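import Mathlib
import Pool.Agent.Helper10.HodgeTypes

/-!
# The definitions in explicit form (used in the proofs)

-/

universe u v w u' w'

open CategoryTheory TensorProduct

namespace Pool.Agent.Helper10

open SmProjVar

namespace CohomologyData

variable {k : Type u} [Field k] {K : Type v} [Field K] (W : CohomologyData.{u, v, w} k K)

/-- The standard conjecture of Hodge type for the variety `X` with the divisor `h`, modulo
homological equivalence: for `2 p + r = dim X` and every algebraic cycle `z` of codimension `p`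
with primitive nonzero cohomology class, the number `(-1) ^ p ∫ z ∪ h ^ r ∪ z` is a positive
integer. -/
def HodgeTypeE (X : SmProjVar k) (h : X.Z 1) : Prop :=
  ∀ p r : ℕ, 2 * p + r = X.dim → ∀ z : X.Z p,
    W.cy X 1 h ^ (r + 1) * W.cy X p z = 0 → W.cy X p z ≠ 0 →
      ∃ i : ℕ, 0 < i ∧ W.tr X (W.cy X p z * W.cy X 1 h ^ r * W.cy X p z) = (-1) ^ p * (i : K)

/-- The standard conjecture of Lefschetz type (conjecture `A`) for the variety `X` with the
divisor `h`: for `2 p + r = dim X`, the multiplication by `h ^ r` is an isomorphism between the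
`ℚ`-vector spaces of cohomology classes of algebraic cycles of codimension `p` and `p + r`. -/
def LefschetzTypeE (X : SmProjVar k) (h : X.Z 1) : Prop :=
  ∀ p r : ℕ, 2 * p + r = X.dim →
    (∀ z : X.Z p, W.cy X 1 h ^ r * W.cy X p z = 0 → W.cy X p z = 0) ∧
      ∀ z : X.Z (p + r), ∃ (m : ℤ) (y : X.Z p), m ≠ 0 ∧
        m • W.cy X (p + r) z = W.cy X 1 h ^ r * W.cy X p y

end CohomologyData

/-- The variety `X` with the divisor `h` has a semistable degeneration with strata `S`, for the
cohomology theories `W` and `W'` (with the same field of coefficients): `sp` is the specialization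
of cycles on `X` to cycles on the `U_s` (of level `0`), and `ρ`, `δ` are the sums of the
restriction maps and of the Gysin maps on the sum of all `H'(U_s)`. -/
structure IsSemistableDegenerationE {k : Type u} [Field k] {k' : Type u'} [Field k']
    {K : Type v} [Field K] (W : CohomologyData.{u, v, w} k K)
    (W' : CohomologyData.{u', v, w'} k' K) (X : SmProjVar k) (h : X.Z 1) (S : Strata k')
    (sp : ∀ j : ℕ, X.Z j → ∀ s, (S.U s).Z j)
    (ρ δ : (∀ s, W'.H (S.U s)) → ∀ s, W'.H (S.U s)) : Prop where
  /-- strata of level `m` have dimension `dim X - m` -/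
  dim_eq : ∀ s, S.lev s + (S.U s).dim = X.dim
  /-- `ρ` is the sum of the maps `H'(U_s) → H'(U_t)`, where the level of `U_t` is one more than the
  level of `U_s`, which are induced by the correspondences `inc s t` -/
  rho_eq : ∀ (x : ∀ s, W'.H (S.U s)) (t : Fin S.N) (w : W'.H (S.U t)),
    W'.pairing (S.U t) (ρ x t) w =
      ∑ s with S.lev t = S.lev s + 1, W'.corrPairing ⟨_, S.inc s t⟩ (x s) w
  /-- `δ` is the transpose of `ρ` -/
  delta_eq : ∀ (y : ∀ s, W'.H (S.U s)) (s : Fin S.N) (w : W'.H (S.U s)),
    W'.pairing (S.U s) w (δ y s) =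
      ∑ t with S.lev t = S.lev s + 1, W'.corrPairing ⟨_, S.inc s t⟩ w (y t)
  /-- `ρ` is a differential -/
  rho_rho : ∀ x, ρ (ρ x) = 0
  /-- `ρ` and `δ` anticommute in levels `≥ 1` -/
  rho_delta : ∀ x, (∀ s, S.lev s = 0 → x s = 0) → ρ (δ x) + δ (ρ x) = 0
  /-- `ρ` commutes with the multiplication by the divisors `h_s` -/
  rho_hyp : ∀ (x : ∀ s, W'.H (S.U s)) (t : Fin S.N),
    ρ (fun s => W'.cy (S.U s) 1 (S.div s) * x s) t = W'.cy (S.U t) 1 (S.div t) * ρ x t
  /-- the specializations of a cycle agree on the strata of level `1` -/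
  rho_sp : ∀ (j : ℕ) (z : X.Z j),
    ρ (fun s => if S.lev s = 0 then W'.cy (S.U s) j (sp j z s) else 0) = 0
  /-- intersection numbers specialize -/
  tr_sp : ∀ (i j r : ℕ) (z : X.Z i) (z' : X.Z j),
    W.tr X (W.cy X i z * W.cy X 1 h ^ r * W.cy X j z') =
      ∑ s with S.lev s = 0, W'.tr (S.U s) (W'.cy (S.U s) i (sp i z s) *
        W'.cy (S.U s) 1 (S.div s) ^ r * W'.cy (S.U s) j (sp j z' s))
  /-- a cohomology class `h ^ r ∪ z` on `X` is zero if and only if its specialization is a boundary
  in the complex with differential `ρ + δ` (the first term of the weight spectral sequence) -/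
  eq_zero_iff : ∀ (r j : ℕ) (z : X.Z j), W.cy X 1 h ^ r * W.cy X j z = 0 ↔
    ∃ x : ∀ s, W'.H (S.U s), (∀ s, Even (S.lev s) → x s = 0) ∧
      ∀ s, ρ x s + δ x s = if S.lev s = 0 then
        W'.cy (S.U s) 1 (S.div s) ^ r * W'.cy (S.U s) j (sp j z s) else 0

end Pool.Agent.Helper10
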