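import Mathlib
import Pool.Agent.Helper10.HD.Expl
import Pool.Agent.Helper10.DegenThm

/-!
# The rational vector space of algebraic classes on a finite family of varieties
-/

universe u v w

open CategoryTheory TensorProduct

namespace Pool.Agent.Helper10.HD

open SmProjVar Degen Finset

section

variable {k : Type u} [Field k] {K : Type v} [Field K] [CharZero K]
  (W : WeilCohomology.{u, v, w} k K)

/-! ### projections to the graded pieces -/

/-- the projection to the part of degree `i` -/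
lemma exists_dproj (X : SmProjVar k) (i : ℕ) : ∃ P : W.H X →ₗ[K] W.H X,
    (∀ x, P x ∈ W.gr X i) ∧ (∀ x ∈ W.gr X i, P x = x) ∧
      ∀ j, j ≠ i → ∀ x ∈ W.gr X j, P x = 0 := by
  have hd : Disjoint (W.gr X i) (⨆ (j) (_ : j ≠ i), W.gr X j) := (W.graded X).indep i
  have hc : Codisjoint (W.gr X i) (⨆ (j) (_ : j ≠ i), W.gr X j) := by
    rw [codisjoint_iff, ← W.iSup_gr X]
    refine le_antisymm (sup_le (le_iSup _ i) (iSup₂_le fun j _ => le_iSup _ j)) ?_
    refine iSup_le fun j => ?_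
    by_cases h : j = i
    · rw [h]; exact le_sup_left
    · exact le_sup_of_le_right (le_iSup₂_of_le j h le_rfl)
  have hcompl : IsCompl (W.gr X i) (⨆ (j) (_ : j ≠ i), W.gr X j) := ⟨hd, hc⟩
  refine ⟨(W.gr X i).subtype.comp (Submodule.projectionOnto _ _ hcompl), ?_, ?_, ?_⟩
  · intro x
    exact (Submodule.projectionOnto _ _ hcompl x).2
  · intro x hx
    have := Submodule.projectionOnto_apply_left hcompl ⟨x, hx⟩
    rw [LinearMap.comp_apply]
    exact congrArg Subtype.val this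
  · intro j hj x hx
    rw [LinearMap.comp_apply]
    have : x ∈ (⨆ (j) (_ : j ≠ i), W.gr X j) := Submodule.mem_iSup_of_mem j
      (Submodule.mem_iSup_of_mem hj hx)
    rw [(Submodule.projectionOnto_apply_eq_zero_iff hcompl).mpr this, map_zero]

/-- the projection to the part of degree `i` -/
noncomputable def dproj (X : SmProjVar k) (i : ℕ) : W.H X →ₗ[K] W.H X :=
  (exists_dproj W X i).choose

lemma dproj_mem (X : SmProjVar k) (i : ℕ) (x : W.H X) : dproj W X i x ∈ W.gr X i :=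
  (exists_dproj W X i).choose_spec.1 x

lemma dproj_of_mem {X : SmProjVar k} {i : ℕ} {x : W.H X} (hx : x ∈ W.gr X i) :
    dproj W X i x = x := (exists_dproj W X i).choose_spec.2.1 x hx

lemma dproj_of_ne {X : SmProjVar k} {i j : ℕ} (h : j ≠ i) {x : W.H X} (hx : x ∈ W.gr X j) :
    dproj W X i x = 0 := (exists_dproj W X i).choose_spec.2.2 j h x hx

lemma dproj_dproj (X : SmProjVar k) (i j : ℕ) (x : W.H X) :
    dproj W X i (dproj W X j x) = if i = j then dproj W X j x else 0 := by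
  split_ifs with h
  · subst h; exact dproj_of_mem W (dproj_mem W X i x)
  · exact dproj_of_ne W (fun h' => h h'.symm) (dproj_mem W X j x)

/-! ### cycle classes -/

lemma cy_cast {X : SmProjVar k} {i j : ℕ} (h : i = j) (c : X.Z i) :
    ∃ c' : X.Z j, W.cy X j c' = W.cy X i c := by
  subst h; exact ⟨c, rfl⟩

lemma cy_eq_zero_of_lt {X : SmProjVar k} {j : ℕ} (h : X.dim < j) (c : X.Z j) :
    W.cy X j c = 0 := by
  have h1 := W.cycleClasses.cy_mem X j c
  rw [(W.graded X).eq_bot (2 * j) (by omega)] at h1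
  exact (Submodule.mem_bot K).mp h1

lemma cy_mul_pow (X : SmProjVar k) (h : X.Z 1) (p r : ℕ) (z : X.Z p) :
    ∃ z' : X.Z (p + r), W.cy X (p + r) z' = W.cy X 1 h ^ r * W.cy X p z := by
  induction r with
  | zero => exact ⟨z, by rw [pow_zero, one_mul]; rfl⟩
  | succ r ih =>
    obtain ⟨z', hz'⟩ := ih
    obtain ⟨c, hc⟩ := W.cycleClasses.cy_mul X 1 (p + r) h z'
    obtain ⟨c', hc'⟩ := cy_cast W (show 1 + (p + r) = p + (r + 1) by omega) c
    exact ⟨c', by rw [hc', hc, hz', pow_succ', mul_assoc]⟩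

lemma tr_cy_mul_int (X : SmProjVar k) (i j : ℕ) (c : X.Z i) (c' : X.Z j) :
    ∃ a : ℤ, W.trL X (W.cy X i c * W.cy X j c') = a := by
  by_cases h : i + j = X.dim
  · exact ⟨_, W.cycleClasses.tr_cy_mul X i j c c' h⟩
  · refine ⟨0, ?_⟩
    rw [Int.cast_zero]
    exact W.tr_eq_zero_of_gr X (i := 2 * i + 2 * j) (by omega)
      (W.gr_mul X (W.cycleClasses.cy_mem X _ _) (W.cycleClasses.cy_mem X _ _))

lemma tr_cy_mul_of_ne (X : SmProjVar k) (i j : ℕ) (c : X.Z i) (c' : X.Z j)
    (h : i + j ≠ X.dim) : W.trL X (W.cy X i c * W.cy X j c') = 0 :=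
  W.tr_eq_zero_of_gr X (i := 2 * i + 2 * j) (by omega)
      (W.gr_mul X (W.cycleClasses.cy_mem X _ _) (W.cycleClasses.cy_mem X _ _))

/-- the correspondence attached to a cycle maps cycle classes to cycle classes -/
lemma corr_cy {X Y : SmProjVar k} (γ : (X.prod Y).Z X.dim) {i : ℕ} (c : X.Z i) :
    ∃ c' : Y.Z i, ∀ w, W.trL Y (W.cy Y i c' * w) = W.trL (X.prod Y)
      (W.pullA (fst X Y) (W.cy X i c) * W.cy (X.prod Y) X.dim γ * W.pullA (snd X Y) w) := by
  obtain ⟨a, ha⟩ := W.cycleClasses.cy_pull (fst X Y) i c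
  obtain ⟨b, hb⟩ := W.cycleClasses.cy_mul (X.prod Y) i X.dim a γ
  have hd : (X.prod Y).dim = Y.dim + X.dim := rfl
  let c' : Y.Z i := ⟨_, WeilCohomology.pushCycle_mem (snd X Y) (i + X.dim) i (by omega) b⟩
  refine ⟨c', fun w => ?_⟩
  have h := W.cycleClasses.cy_push (snd X Y) (i + X.dim) i b c' rfl w
  rw [hb, ha] at h
  exact h

/-- the transposed correspondence -/
lemma corr_cy' {X Y : SmProjVar k} (hXY : X.dim = Y.dim + 1) (γ : (X.prod Y).Z X.dim) {i : ℕ}
    (c : Y.Z i) :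
    ∃ c' : X.Z (i + 1), ∀ w, W.trL X (w * W.cy X (i + 1) c') = W.trL (X.prod Y)
      (W.pullA (fst X Y) w * W.cy (X.prod Y) X.dim γ * W.pullA (snd X Y) (W.cy Y i c)) := by
  obtain ⟨a, ha⟩ := W.cycleClasses.cy_pull (snd X Y) i c
  obtain ⟨b, hb⟩ := W.cycleClasses.cy_mul (X.prod Y) X.dim i γ a
  have hd : (X.prod Y).dim = Y.dim + X.dim := rfl
  let c' : X.Z (i + 1) :=
    ⟨_, WeilCohomology.pushCycle_mem (fst X Y) (X.dim + i) (i + 1) (by omega) b⟩
  refine ⟨c', fun w => ?_⟩
  have h := W.cycleClasses.cy_push (fst X Y) (X.dim + i) (i + 1) b c' rfl w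
  rw [← tr_comm_alg (W.cy_mem_algClasses X (i + 1) c') w]
  refine h.trans ?_
  change W.trL _ _ = _
  rw [hb, ha, mul_assoc (W.pullA (fst X Y) w)]
  refine tr_comm_alg (X := X.prod Y) ?_ _
  exact W.mul_mem_algClasses _ _ (W.cy_mem_algClasses _ _ _) _
    (W.pull_mem_algClasses (snd X Y) _ (W.cy_mem_algClasses _ _ _))

/-! ### the rational structure -/

/-- the structure of `ℚ`-vector space on cohomology -/
@[instance_reducible] noncomputable def ratModule (X : SmProjVar k) : Module ℚ (W.H X) :=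
  Module.compHom (W.H X) (algebraMap ℚ K)

attribute [local instance] ratModule

lemma rat_smul {X : SmProjVar k} (q : ℚ) (x : W.H X) : q • x = (algebraMap ℚ K q) • x := rfl

instance ratTower (X : SmProjVar k) : IsScalarTower ℚ K (W.H X) :=
  ⟨fun q a x => by rw [rat_smul, smul_smul, Algebra.smul_def (R := ℚ) (A := K)]⟩

/-- clearing denominators -/
lemma exists_multiple {X : SmProjVar k} {p : ℕ} {x : W.H X}
    (hx : x ∈ Submodule.span ℚ {y | ∃ c : X.Z p, y = W.cy X p c}) :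
    ∃ (m : ℕ) (c : X.Z p), 0 < m ∧ (m : ℚ) • x = W.cy X p c := by
  have key : ∃ m : ℕ, 0 < m ∧ (m : ℚ) • x ∈ W.cyG X p := by
    induction hx using Submodule.span_induction with
    | mem y hy =>
      obtain ⟨c, rfl⟩ := hy
      exact ⟨1, one_pos, by rw [Nat.cast_one, one_smul]; exact W.cy_mem_cyG c⟩
    | zero => exact ⟨1, one_pos, by rw [smul_zero]; exact zero_mem _⟩
    | add a b _ _ ha hb =>
      obtain ⟨m, hm, ha⟩ := ha
      obtain ⟨n, hn, hb⟩ := hb
      refine ⟨m * n, Nat.mul_pos hm hn, ?_⟩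
      have h1 : ((m * n : ℕ) : ℚ) • (a + b) = n • ((m : ℚ) • a) + m • ((n : ℚ) • b) := by
        rw [← Nat.cast_smul_eq_nsmul ℚ n, ← Nat.cast_smul_eq_nsmul ℚ m, smul_smul, smul_smul,
          smul_add]
        push_cast
        rw [mul_comm (n : ℚ) m]
      rw [h1]
      exact add_mem (nsmul_mem ha n) (nsmul_mem hb m)
    | smul q a _ ha =>
      obtain ⟨m, hm, ha⟩ := ha
      refine ⟨q.den * m, Nat.mul_pos q.den_pos hm, ?_⟩
      have h1 : ((q.den * m : ℕ) : ℚ) • q • a = q.num • ((m : ℚ) • a) := by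
        rw [← Int.cast_smul_eq_zsmul ℚ q.num, smul_smul, smul_smul]
        congr 1
        push_cast
        have := Rat.mul_den_eq_num q
        rw [mul_right_comm, mul_comm (q.den : ℚ) q, this]
      rw [h1]
      exact zsmul_mem ha _
  obtain ⟨m, hm, c, hc⟩ := key
  exact ⟨m, c, hm, hc⟩

end

end Pool.Agent.Helper10.HD
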