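import Pool.Agent.Helper10.HD.Harmonic

/-! The bigraded complex (piece HD-4). -/

set_option autoImplicit false

namespace Pool.Agent.Helper10.HD

open Finset

namespace Cx

variable {A : Type*} [AddCommGroup A] [Module ℚ A]

/-- the functions whose `k`-th value has no component of level less than `k` -/
def Csub (lam : ℕ → A →ₗ[ℚ] A) : Submodule ℚ (ℕ → A) where
  carrier := {c | ∀ k m, m < k → lam m (c k) = 0}
  add_mem' := by
    intro a b ha hb k m h
    rw [Pi.add_apply, map_add, ha k m h, hb k m h, add_zero]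
  zero_mem' := by
    intro k m _
    rw [Pi.zero_apply, map_zero]
  smul_mem' := by
    intro r a ha k m h
    rw [Pi.smul_apply, map_smul, ha k m h, smul_zero]

/-- the operator multiplying level `m` by `m` -/
def mh (M : ℕ) (lam : ℕ → A →ₗ[ℚ] A) : A →ₗ[ℚ] A :=
  ∑ m ∈ range (M + 1), (m : ℚ) • lam m

/-- the differential on functions -/
def dF (ρ δ : A →ₗ[ℚ] A) : (ℕ → A) →ₗ[ℚ] (ℕ → A) where
  toFun c k := ρ (c k) + δ (c (k + 1))
  map_add' a b := by
    funext k
    simp only [Pi.add_apply, map_add]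
    abel
  map_smul' r a := by
    funext k
    simp only [Pi.smul_apply, map_smul, smul_add, RingHom.id_apply]

/-- the adjoint on functions -/
def eF (μ R D : A →ₗ[ℚ] A) : (ℕ → A) →ₗ[ℚ] (ℕ → A) where
  toFun c k := μ (R (c k)) + (1 - (k : ℚ)) • R (c k) + (k : ℚ) • D (c (k - 1))
  map_add' a b := by
    funext k
    simp only [Pi.add_apply, map_add, smul_add]
    abel
  map_smul' r a := by
    funext k
    simp only [Pi.smul_apply, map_smul, smul_add, RingHom.id_apply, smul_comm r]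

/-- the shift -/
def nF : (ℕ → A) →ₗ[ℚ] (ℕ → A) where
  toFun c k := c (k + 1)
  map_add' _ _ := rfl
  map_smul' _ _ := rfl

/-- an operator applied to all components -/
def cF (T : A →ₗ[ℚ] A) : (ℕ → A) →ₗ[ℚ] (ℕ → A) where
  toFun c k := T (c k)
  map_add' a b := by
    funext k
    simp only [Pi.add_apply, map_add]
  map_smul' r a := by
    funext k
    simp only [Pi.smul_apply, map_smul, RingHom.id_apply]

/-- the level operator -/
def hF (μ : A →ₗ[ℚ] A) : (ℕ → A) →ₗ[ℚ] (ℕ → A) where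
  toFun c k := μ (c k) - (2 * (k : ℚ)) • c k
  map_add' a b := by
    funext k
    simp only [Pi.add_apply, map_add, smul_add]
    abel
  map_smul' r a := by
    funext k
    simp only [Pi.smul_apply, map_smul, RingHom.id_apply, smul_sub, smul_comm r]

/-- the operator lowering `N` -/
def lF (μ : A →ₗ[ℚ] A) : (ℕ → A) →ₗ[ℚ] (ℕ → A) where
  toFun c k := (k : ℚ) • (μ (c (k - 1)) + (1 - (k : ℚ)) • c (k - 1))
  map_add' a b := by
    funext k
    simp only [Pi.add_apply, map_add, smul_add]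
    abel
  map_smul' r a := by
    funext k
    simp only [Pi.smul_apply, map_smul, RingHom.id_apply, smul_add, smul_comm r]

section

variable {M : ℕ} {lam : ℕ → A →ₗ[ℚ] A}

theorem lam_big (lam_proj : ∀ m m' x, lam m (lam m' x) = if m = m' then lam m' x else 0)
    (lam_sum : ∀ x, ∑ m ∈ range (M + 1), lam m x = x) {m : ℕ} (hm : M < m) (x : A) :
    lam m x = 0 := by
  rw [← lam_sum x, map_sum]
  refine Finset.sum_eq_zero fun i hi => ?_
  rw [lam_proj, if_neg]
  rw [mem_range] at hi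
  omega

theorem mh_lam (lam_proj : ∀ m m' x, lam m (lam m' x) = if m = m' then lam m' x else 0)
    (lam_sum : ∀ x, ∑ m ∈ range (M + 1), lam m x = x) (m : ℕ) (x : A) :
    lam m (mh M lam x) = (m : ℚ) • lam m x := by
  unfold mh
  rw [LinearMap.sum_apply, map_sum]
  simp only [LinearMap.smul_apply, map_smul, lam_proj]
  by_cases hm : M < m
  · rw [lam_big lam_proj lam_sum hm, smul_zero]
    refine Finset.sum_eq_zero fun i hi => ?_
    rw [if_neg, smul_zero]
    rw [mem_range] at hi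
    omega
  · rw [Finset.sum_eq_single m]
    · rw [if_pos rfl]
    · intro b _ hb
      rw [if_neg (Ne.symm hb), smul_zero]
    · intro h
      rw [mem_range] at h
      omega

theorem mh_eq (lam_proj : ∀ m m' x, lam m (lam m' x) = if m = m' then lam m' x else 0)
    (lam_sum : ∀ x, ∑ m ∈ range (M + 1), lam m x = x) {x y : A}
    (h : ∀ m, lam m x = lam m y) : x = y := by
  rw [← lam_sum x, ← lam_sum y]
  exact Finset.sum_congr rfl fun m _ => h m

theorem mh_comm {T : A →ₗ[ℚ] A} (hT : ∀ m x, T (lam m x) = lam m (T x)) (x : A) :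
    T (mh M lam x) = mh M lam (T x) := by
  unfold mh
  rw [LinearMap.sum_apply, LinearMap.sum_apply, map_sum]
  refine Finset.sum_congr rfl fun m _ => ?_
  rw [LinearMap.smul_apply, LinearMap.smul_apply, map_smul, hT]

/-- the level operator and an operator raising the level -/
theorem mh_up (lam_proj : ∀ m m' x, lam m (lam m' x) = if m = m' then lam m' x else 0)
    (lam_sum : ∀ x, ∑ m ∈ range (M + 1), lam m x = x) {T : A →ₗ[ℚ] A}
    (hT : ∀ m x, T (lam m x) = lam (m + 1) (T x)) (hT0 : ∀ x, lam 0 (T x) = 0) (x : A) :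
    mh M lam (T x) = T (mh M lam x) + T x := by
  refine mh_eq lam_proj lam_sum fun m => ?_
  rw [mh_lam lam_proj lam_sum, map_add]
  cases m with
  | zero => rw [hT0, hT0]; simp
  | succ m =>
    rw [← hT m (mh M lam x), mh_lam lam_proj lam_sum, map_smul, hT]
    push_cast
    rw [add_smul, one_smul]

theorem mh_down (lam_proj : ∀ m m' x, lam m (lam m' x) = if m = m' then lam m' x else 0)
    (lam_sum : ∀ x, ∑ m ∈ range (M + 1), lam m x = x) {T : A →ₗ[ℚ] A}
    (hT : ∀ m x, T (lam (m + 1) x) = lam m (T x)) (x : A) :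
    mh M lam (T x) = T (mh M lam x) - T x := by
  refine mh_eq lam_proj lam_sum fun m => ?_
  rw [mh_lam lam_proj lam_sum, map_sub, ← hT m (mh M lam x), mh_lam lam_proj lam_sum, map_smul, hT]
  push_cast
  rw [add_smul, one_smul, add_sub_cancel_right]

end

end Cx

theorem complex_step {A : Type*} [AddCommGroup A] [Module ℚ A] [FiniteDimensional ℚ A] (M : ℕ)
    (lam : ℕ → A →ₗ[ℚ] A) (L Λ H ρ δ : A →ₗ[ℚ] A) (g : A →ₗ[ℚ] A →ₗ[ℚ] ℚ)
    (lam_proj : ∀ m m' x, lam m (lam m' x) = if m = m' then lam m' x else 0)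
    (lam_sum : ∀ x, ∑ m ∈ range (M + 1), lam m x = x)
    (gsymm : ∀ x y, g x y = g y x) (gpos : ∀ x, x ≠ 0 → 0 < g x x)
    (glam : ∀ m x y, g (lam m x) y = g x (lam m y))
    (Llam : ∀ m x, L (lam m x) = lam m (L x)) (Λlam : ∀ m x, Λ (lam m x) = lam m (Λ x))
    (Hlam : ∀ m x, H (lam m x) = lam m (H x))
    (ρlam : ∀ m x, ρ (lam m x) = lam (m + 1) (ρ x)) (ρlam0 : ∀ x, lam 0 (ρ x) = 0)
    (δlam : ∀ m x, δ (lam (m + 1) x) = lam m (δ x)) (δlam0 : ∀ x, δ (lam 0 x) = 0)
    (Lρ : ∀ x, L (ρ x) = ρ (L x)) (Lδ : ∀ x, L (δ x) = δ (L x))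
    (LΛ : ∀ x, L (Λ x) - Λ (L x) = H x) (HL : ∀ x, H (L x) - L (H x) = (2 : ℚ) • L x)
    (HΛ : ∀ x, H (Λ x) - Λ (H x) = (-2 : ℚ) • Λ x)
    (Hρ : ∀ x, H (ρ x) - ρ (H x) = ρ x) (Hδ : ∀ x, H (δ x) - δ (H x) = δ x)
    (adjρ : ∀ x y, g (ρ x) y = g x (Λ (δ y) - δ (Λ y)))
    (adjδ : ∀ x y, g (δ x) y = -g x (Λ (ρ y) - ρ (Λ y)))
    (ρρ : ∀ x, ρ (ρ x) = 0) (δδ : ∀ x, δ (δ x) = 0)
    (ρδ : ∀ x, lam 0 x = 0 → ρ (δ x) + δ (ρ x) = 0)
    (v ξ : A) (b : ℚ) (s : ℕ) (hv0 : lam 0 v = v) (hvρ : ρ v = 0) (hvH : H v = b • v)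
    (hξ : ∀ m, Even m → lam m ξ = 0) (hvL : (L ^ s) v = ρ ξ + δ ξ) :
    ∃ v' ξ' : A, lam 0 v' = v' ∧ ρ v' = 0 ∧ H v' = b • v' ∧ (L ^ s) v' = 0 ∧
      (∀ m, Even m → lam m ξ' = 0) ∧ v = v' + (ρ ξ' + δ ξ') := by
  classical
  set μ : A →ₗ[ℚ] A := Cx.mh M lam with hμ
  -- the adjoints
  set R : A →ₗ[ℚ] A := Λ ∘ₗ δ - δ ∘ₗ Λ with hR
  set D : A →ₗ[ℚ] A := ρ ∘ₗ Λ - Λ ∘ₗ ρ with hD
  have R_apply : ∀ x, R x = Λ (δ x) - δ (Λ x) := fun x => rfl
  have D_apply : ∀ x, D x = ρ (Λ x) - Λ (ρ x) := fun x => rfl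
  have Rlam : ∀ m x, R (lam (m + 1) x) = lam m (R x) := by
    intro m x
    rw [R_apply, R_apply, δlam, Λlam, Λlam, δlam, map_sub]
  have Rlam0 : ∀ x, R (lam 0 x) = 0 := by
    intro x
    rw [R_apply, δlam0, Λlam, δlam0, map_zero, sub_zero]
  have Dlam : ∀ m x, D (lam m x) = lam (m + 1) (D x) := by
    intro m x
    rw [D_apply, D_apply, Λlam, ρlam, ρlam, Λlam, map_sub]
  have Dlam0 : ∀ x, lam 0 (D x) = 0 := by
    intro x
    rw [D_apply, map_sub, ρlam0, ← Λlam, ρlam0, map_zero, sub_zero]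
  have Rμ : ∀ x, μ (R x) = R (μ x) - R x := Cx.mh_down lam_proj lam_sum Rlam
  have δμ : ∀ x, μ (δ x) = δ (μ x) - δ x := Cx.mh_down lam_proj lam_sum δlam
  have ρμ : ∀ x, μ (ρ x) = ρ (μ x) + ρ x := Cx.mh_up lam_proj lam_sum ρlam ρlam0
  have Dμ : ∀ x, μ (D x) = D (μ x) + D x := Cx.mh_up lam_proj lam_sum Dlam Dlam0
  have Lμ : ∀ x, L (μ x) = μ (L x) := Cx.mh_comm Llam
  have Hμ : ∀ x, H (μ x) = μ (H x) := Cx.mh_comm Hlam
  have Λμ : ∀ x, Λ (μ x) = μ (Λ x) := Cx.mh_comm Λlam
  have lamμ : ∀ m x, lam m (μ x) = (m : ℚ) • lam m x := Cx.mh_lam lam_proj lam_sum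
  have LR : ∀ x, L (R x) - R (L x) = δ x := by
    intro x
    have e1 : L (Λ (δ x)) = H (δ x) + Λ (L (δ x)) := eq_add_of_sub_eq (LΛ _)
    have e2 : L (Λ x) = H x + Λ (L x) := eq_add_of_sub_eq (LΛ _)
    have e3 : H (δ x) = δ x + δ (H x) := eq_add_of_sub_eq (Hδ _)
    rw [R_apply, R_apply, map_sub, e1, Lδ (Λ x), e2, map_add, e3, Lδ x]
    abel
  have LD : ∀ x, L (D x) - D (L x) = - ρ x := by
    intro x
    have e1 : L (Λ (ρ x)) = H (ρ x) + Λ (L (ρ x)) := eq_add_of_sub_eq (LΛ _)
    have e2 : L (Λ x) = H x + Λ (L x) := eq_add_of_sub_eq (LΛ _)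
    have e3 : H (ρ x) = ρ x + ρ (H x) := eq_add_of_sub_eq (Hρ _)
    rw [D_apply, D_apply, map_sub, e1, Lρ (Λ x), e2, map_add, e3, Lρ x]
    abel
  have HR : ∀ x, H (R x) = R (H x) - R x := by
    intro x
    have e1 : H (Λ (δ x)) = (-2 : ℚ) • Λ (δ x) + Λ (H (δ x)) := eq_add_of_sub_eq (HΛ _)
    have e2 : H (δ x) = δ x + δ (H x) := eq_add_of_sub_eq (Hδ _)
    have e3 : H (δ (Λ x)) = δ (Λ x) + δ (H (Λ x)) := eq_add_of_sub_eq (Hδ _)
    have e4 : H (Λ x) = (-2 : ℚ) • Λ x + Λ (H x) := eq_add_of_sub_eq (HΛ _)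
    rw [R_apply, R_apply, map_sub, e1, e3, e4, e2]
    simp only [map_add, map_smul]
    module
  have HD : ∀ x, H (D x) = D (H x) - D x := by
    intro x
    have e1 : H (Λ (ρ x)) = (-2 : ℚ) • Λ (ρ x) + Λ (H (ρ x)) := eq_add_of_sub_eq (HΛ _)
    have e2 : H (ρ x) = ρ x + ρ (H x) := eq_add_of_sub_eq (Hρ _)
    have e3 : H (ρ (Λ x)) = ρ (Λ x) + ρ (H (Λ x)) := eq_add_of_sub_eq (Hρ _)
    have e4 : H (Λ x) = (-2 : ℚ) • Λ x + Λ (H x) := eq_add_of_sub_eq (HΛ _)
    rw [D_apply, D_apply, map_sub, e1, e3, e4, e2]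
    simp only [map_add, map_smul]
    module
  -- the operators
  let C := Cx.Csub lam
  have memC : ∀ c : ℕ → A, c ∈ C ↔ ∀ k m, m < k → lam m (c k) = 0 := fun c => Iff.rfl
  have hdF : ∀ c ∈ C, Cx.dF ρ δ c ∈ C := by
    intro c hc k m hm
    change lam m (ρ (c k) + δ (c (k + 1))) = 0
    rw [map_add, ← δlam, hc (k + 1) (m + 1) (by omega), map_zero, add_zero]
    cases m with
    | zero => exact ρlam0 _
    | succ m => rw [← ρlam, hc k m (by omega), map_zero]
  have heF : ∀ c ∈ C, Cx.eF μ R D c ∈ C := by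
    intro c hc k m hm
    change lam m (μ (R (c k)) + (1 - (k : ℚ)) • R (c k) + (k : ℚ) • D (c (k - 1))) = 0
    rw [map_add, map_add, map_smul, map_smul, lamμ, ← add_smul, ← Rlam]
    have h2 : lam m (D (c (k - 1))) = 0 := by
      cases m with
      | zero => exact Dlam0 _
      | succ m => rw [← Dlam, hc (k - 1) m (by omega), map_zero]
    rw [h2, smul_zero, add_zero]
    by_cases h : m + 1 < k
    · rw [hc k (m + 1) h, map_zero, smul_zero]
    · have h3 : k = m + 1 := by omega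
      rw [h3]
      push_cast
      rw [show (m : ℚ) + (1 - ((m : ℚ) + 1)) = 0 by ring, zero_smul]
  have hnF : ∀ c ∈ C, Cx.nF c ∈ C := by
    intro c hc k m hm
    exact hc (k + 1) m (by omega)
  have hcF : ∀ T : A →ₗ[ℚ] A, (∀ m x, T (lam m x) = lam m (T x)) → ∀ c ∈ C, Cx.cF T c ∈ C := by
    intro T hT c hc k m hm
    change lam m (T (c k)) = 0
    rw [← hT, hc k m hm, map_zero]
  have hhF : ∀ c ∈ C, Cx.hF μ c ∈ C := by
    intro c hc k m hm
    change lam m (μ (c k) - (2 * (k : ℚ)) • c k) = 0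
    rw [map_sub, map_smul, lamμ, hc k m hm, smul_zero, smul_zero, sub_zero]
  have hlF : ∀ c ∈ C, Cx.lF μ c ∈ C := by
    intro c hc k m hm
    change lam m ((k : ℚ) • (μ (c (k - 1)) + (1 - (k : ℚ)) • c (k - 1))) = 0
    rw [map_smul, map_add, map_smul, lamμ, ← add_smul]
    by_cases h : m + 1 < k
    · rw [hc (k - 1) m (by omega), smul_zero, smul_zero]
    · have h3 : k = m + 1 := by omega
      rw [h3]
      push_cast
      rw [show (m : ℚ) + (1 - ((m : ℚ) + 1)) = 0 by ring, zero_smul, smul_zero]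
  let d : C →ₗ[ℚ] C := (Cx.dF ρ δ).restrict hdF
  let d' : C →ₗ[ℚ] C := (Cx.eF μ R D).restrict heF
  let N : C →ₗ[ℚ] C := Cx.nF.restrict hnF
  let Λc : C →ₗ[ℚ] C := (Cx.cF Λ).restrict (hcF Λ Λlam)
  let Lc : C →ₗ[ℚ] C := (Cx.cF L).restrict (hcF L Llam)
  let Hc : C →ₗ[ℚ] C := (Cx.cF H).restrict (hcF H Hlam)
  let Hm : C →ₗ[ℚ] C := (Cx.hF μ).restrict hhF
  let ΛN : C →ₗ[ℚ] C := (Cx.lF μ).restrict hlF
  have d_apply : ∀ (c : C) k, (d c).1 k = ρ (c.1 k) + δ (c.1 (k + 1)) := fun c k => rfl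
  have d'_apply : ∀ (c : C) k, (d' c).1 k = μ (R (c.1 k)) + (1 - (k : ℚ)) • R (c.1 k) +
    (k : ℚ) • D (c.1 (k - 1)) := fun c k => rfl
  have N_apply : ∀ (c : C) k, (N c).1 k = c.1 (k + 1) := fun c k => rfl
  have Λc_apply : ∀ (c : C) k, (Λc c).1 k = Λ (c.1 k) := fun c k => rfl
  have Lc_apply : ∀ (c : C) k, (Lc c).1 k = L (c.1 k) := fun c k => rfl
  have Hc_apply : ∀ (c : C) k, (Hc c).1 k = H (c.1 k) := fun c k => rfl
  have Hm_apply : ∀ (c : C) k, (Hm c).1 k = μ (c.1 k) - (2 * (k : ℚ)) • c.1 k := fun c k => rfl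
  have ΛN_apply : ∀ (c : C) k, (ΛN c).1 k = (k : ℚ) • (μ (c.1 (k - 1)) + (1 - (k : ℚ)) • c.1 (k - 1)) :=
    fun c k => rfl
  have extC : ∀ a b : C, (∀ k, a.1 k = b.1 k) → a = b := fun a b h => Subtype.ext (funext h)
  have subC : ∀ (a b : C) k, (a - b).1 k = a.1 k - b.1 k := fun a b k => rfl
  have addC : ∀ (a b : C) k, (a + b).1 k = a.1 k + b.1 k := fun a b k => rfl
  have negC : ∀ (a : C) k, (-a).1 k = -a.1 k := fun a k => rfl
  have smulC : ∀ (r : ℚ) (a : C) k, (r • a).1 k = r • a.1 k := fun r a k => rfl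
  have zeroC : ∀ k, (0 : C).1 k = 0 := fun k => rfl
  have bigC : ∀ (c : C) k, M < k → c.1 k = 0 := by
    intro c k hk
    rw [← lam_sum (c.1 k)]
    refine Finset.sum_eq_zero fun m hm => ?_
    rw [mem_range] at hm
    exact c.2 k m (by omega)
  haveI : FiniteDimensional ℚ C := by
    let F : C →ₗ[ℚ] (Fin (M + 1) → A) :=
      { toFun := fun c k => c.1 k
        map_add' := fun a b => rfl
        map_smul' := fun r a => rfl }
    refine Module.Finite.of_injective F ?_
    intro a b hab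
    refine extC a b fun k => ?_
    by_cases hk : M < k
    · rw [bigC a k hk, bigC b k hk]
    · exact congrFun hab ⟨k, by omega⟩
  -- commutation relations
  have dd : ∀ c, d (d c) = 0 := by
    intro c
    refine extC _ _ fun k => ?_
    rw [d_apply, d_apply, d_apply, map_add, map_add, ρρ, δδ, zeroC, zero_add, add_zero]
    exact ρδ _ (c.2 (k + 1) 0 (by omega))
  have Nd : ∀ c, N (d c) = d (N c) := by
    intro c
    refine extC _ _ fun k => ?_
    rw [d_apply, N_apply, N_apply, N_apply, d_apply]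
  have Nd' : ∀ c, N (d' c) = d' (N c) - (Λc (d c) - d (Λc c)) := by
    intro c
    refine extC _ _ fun k => ?_
    rw [N_apply, d'_apply, subC, subC, d'_apply, Λc_apply, d_apply, d_apply, Λc_apply, Λc_apply,
      N_apply, N_apply]
    have hk : (k : ℚ) • D (c.1 (k - 1 + 1)) = (k : ℚ) • D (c.1 k) := by
      cases k with
      | zero => simp
      | succ k => rfl
    rw [hk, Nat.add_sub_cancel, R_apply (c.1 (k + 1)), D_apply (c.1 k), map_add]
    push_cast
    module
  have Ld : ∀ c, Lc (d c) = d (Lc c) := by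
    intro c
    refine extC _ _ fun k => ?_
    rw [d_apply, Lc_apply, Lc_apply, Lc_apply, d_apply, map_add, Lρ, Lδ]
  have Ld' : ∀ c, Lc (d' c) = d' (Lc c) - (ΛN (d c) - d (ΛN c)) := by
    intro c
    refine extC _ _ fun k => ?_
    have e1 : L (R (c.1 k)) = δ (c.1 k) + R (L (c.1 k)) := eq_add_of_sub_eq (LR _)
    have e2 : L (D (c.1 (k - 1))) = - ρ (c.1 (k - 1)) + D (L (c.1 (k - 1))) :=
      eq_add_of_sub_eq (LD _)
    have hk : (k : ℚ) • (δ (c.1 (k - 1 + 1))) = (k : ℚ) • (δ (c.1 k)) := by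
      cases k with
      | zero => simp
      | succ k => rfl
    have hk2 : ((k : ℚ) * (1 - (k : ℚ))) • (δ (c.1 (k - 1 + 1))) =
        ((k : ℚ) * (1 - (k : ℚ))) • (δ (c.1 k)) := by
      cases k with
      | zero => simp
      | succ k => rfl
    have hk3 : (k : ℚ) • (δ (μ (c.1 (k - 1 + 1)))) = (k : ℚ) • (δ (μ (c.1 k))) := by
      cases k with
      | zero => simp
      | succ k => rfl
    rw [Lc_apply, d'_apply, subC, subC, d'_apply, ΛN_apply, d_apply, d_apply, ΛN_apply, ΛN_apply,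
      Lc_apply, Lc_apply]
    simp only [map_add, map_smul, Lμ, e1, e2, smul_add, Nat.add_sub_cancel, map_neg, smul_neg]
    rw [ρμ, δμ, δμ]
    simp only [smul_add, smul_sub, smul_smul]
    push_cast
    rw [hk, hk2, hk3]
    module
  have Hmd : ∀ c, Hm (d c) = d (Hm c) + d c := by
    intro c
    refine extC _ _ fun k => ?_
    rw [addC, Hm_apply, d_apply, d_apply, Hm_apply, Hm_apply, map_add, ρμ, δμ]
    simp only [map_sub, map_smul]
    push_cast
    module
  have Hmd' : ∀ c, Hm (d' c) = d' (Hm c) - d' c := by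
    intro c
    refine extC _ _ fun k => ?_
    have hk : (k : ℚ) • ((2 * ((k - 1 : ℕ) : ℚ)) • D (c.1 (k - 1))) =
        (k : ℚ) • ((2 * ((k : ℚ) - 1)) • D (c.1 (k - 1))) := by
      cases k with
      | zero => simp
      | succ k => simp
    rw [subC, Hm_apply, d'_apply, d'_apply, Hm_apply, Hm_apply]
    simp only [map_add, map_sub, map_smul, smul_sub, smul_add, Rμ, Dμ]
    rw [hk]
    module
  have Hd : ∀ c, Hc (d c) = d (Hc c) + d c := by
    intro c
    refine extC _ _ fun k => ?_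
    have e1 : H (ρ (c.1 k)) = ρ (c.1 k) + ρ (H (c.1 k)) := eq_add_of_sub_eq (Hρ _)
    have e2 : H (δ (c.1 (k + 1))) = δ (c.1 (k + 1)) + δ (H (c.1 (k + 1))) :=
      eq_add_of_sub_eq (Hδ _)
    rw [addC, Hc_apply, d_apply, d_apply, Hc_apply, Hc_apply, map_add, e1, e2]
    abel
  have Hd' : ∀ c, Hc (d' c) = d' (Hc c) - d' c := by
    intro c
    refine extC _ _ fun k => ?_
    rw [subC, Hc_apply, d'_apply, d'_apply, Hc_apply, Hc_apply]
    simp only [map_add, map_smul, Hμ, HR, HD, map_sub]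
    module
  -- the inner product
  let W : ℕ → ℕ → ℚ := fun m k => ((m - k).factorial : ℚ) / (k.factorial : ℚ)
  have Wpos : ∀ m k, 0 < W m k := fun m k => by
    have h1 : (0 : ℚ) < ((m - k).factorial : ℚ) := by exact_mod_cast Nat.factorial_pos _
    have h2 : (0 : ℚ) < (k.factorial : ℚ) := by exact_mod_cast Nat.factorial_pos _
    exact div_pos h1 h2
  let gC : C →ₗ[ℚ] C →ₗ[ℚ] ℚ := LinearMap.mk₂ ℚ
    (fun a b => ∑ k ∈ range (M + 1), ∑ m ∈ range (M + 1), W m k * g (lam m (a.1 k)) (b.1 k))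
    (by
      intro a a' b
      rw [← Finset.sum_add_distrib]
      refine Finset.sum_congr rfl fun k _ => ?_
      rw [← Finset.sum_add_distrib]
      refine Finset.sum_congr rfl fun m _ => ?_
      rw [addC, map_add, map_add, LinearMap.add_apply, mul_add])
    (by
      intro r a b
      rw [Finset.smul_sum]
      refine Finset.sum_congr rfl fun k _ => ?_
      rw [Finset.smul_sum]
      refine Finset.sum_congr rfl fun m _ => ?_
      rw [smulC, map_smul, map_smul, LinearMap.smul_apply, smul_eq_mul, smul_eq_mul]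
      ring)
    (by
      intro a b b'
      rw [← Finset.sum_add_distrib]
      refine Finset.sum_congr rfl fun k _ => ?_
      rw [← Finset.sum_add_distrib]
      refine Finset.sum_congr rfl fun m _ => ?_
      rw [addC, map_add, mul_add])
    (by
      intro r a b
      rw [Finset.smul_sum]
      refine Finset.sum_congr rfl fun k _ => ?_
      rw [Finset.smul_sum]
      refine Finset.sum_congr rfl fun m _ => ?_
      rw [smulC, map_smul, smul_eq_mul, smul_eq_mul]
      ring)
  have gC_apply : ∀ a b : C, gC a b = ∑ k ∈ range (M + 1), ∑ m ∈ range (M + 1),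
      W m k * g (lam m (a.1 k)) (b.1 k) := fun a b => rfl
  have gCsymm : ∀ a b, gC a b = gC b a := by
    intro a b
    rw [gC_apply, gC_apply]
    refine Finset.sum_congr rfl fun k _ => Finset.sum_congr rfl fun m _ => ?_
    rw [glam, gsymm]
  have glam2 : ∀ m x, g (lam m x) x = g (lam m x) (lam m x) := by
    intro m x
    rw [glam m x (lam m x), lam_proj, if_pos rfl, ← glam]
  have gnn : ∀ x, 0 ≤ g x x := by
    intro x
    by_cases h : x = 0
    · rw [h, map_zero]
    · exact (gpos x h).le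
  have gCpos : ∀ a, a ≠ 0 → 0 < gC a a := by
    intro a ha
    rw [gC_apply]
    have hex : ∃ k ∈ range (M + 1), ∃ m ∈ range (M + 1), lam m (a.1 k) ≠ 0 := by
      by_contra hcon
      push Not at hcon
      apply ha
      refine extC _ _ fun k => ?_
      rw [zeroC]
      by_cases hk : M < k
      · exact bigC a k hk
      · rw [← lam_sum (a.1 k)]
        exact Finset.sum_eq_zero fun m hm => hcon k (mem_range.2 (by omega)) m hm
    obtain ⟨k0, hk0, m0, hm0, hne⟩ := hex
    have hterm : ∀ k m, 0 ≤ W m k * g (lam m (a.1 k)) (a.1 k) := by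
      intro k m
      rw [glam2]
      exact mul_nonneg (Wpos m k).le (gnn _)
    refine Finset.sum_pos' (fun k _ => Finset.sum_nonneg fun m _ => hterm k m) ⟨k0, hk0, ?_⟩
    refine Finset.sum_pos' (fun m _ => hterm k0 m) ⟨m0, hm0, ?_⟩
    rw [glam2]
    exact mul_pos (Wpos _ _) (gpos _ hne)
  have gμ : ∀ m x y, g (lam m x) (μ y) = (m : ℚ) * g (lam m x) y := by
    intro m x y
    have h1 : g (lam m x) (μ y) = g (lam m (lam m x)) (μ y) := by rw [lam_proj, if_pos rfl]
    rw [h1, glam, lamμ, map_smul, smul_eq_mul, ← glam, lam_proj, if_pos rfl]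
  have gadj : ∀ a b, gC (d a) b = gC a (d' b) := by
    intro a b
    rw [gC_apply, gC_apply]
    have hlast : ∀ m x, M < m → lam m x = 0 := fun m x hm => Cx.lam_big lam_proj lam_sum hm x
    -- first part
    have h1 : ∀ k, ∑ m ∈ range (M + 1), W m k * g (lam m (ρ (a.1 k))) (b.1 k) =
        ∑ m ∈ range (M + 1), W m k * g (lam m (a.1 k)) (μ (R (b.1 k)) + (1 - (k : ℚ)) • R (b.1 k)) := by
      intro k
      rw [Finset.sum_range_succ', ρlam0, map_zero, LinearMap.zero_apply, mul_zero, add_zero,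
        Finset.sum_range_succ]
      have hl : g (lam M (a.1 k)) (μ (R (b.1 k)) + (1 - (k : ℚ)) • R (b.1 k)) = 0 := by
        rw [map_add, gμ, map_smul, glam, ← Rlam, hlast (M + 1) _ (by omega), map_zero, map_zero]
        simp
      rw [hl, mul_zero, add_zero]
      refine Finset.sum_congr rfl fun m _ => ?_
      rw [← ρlam, adjρ, ← R_apply, map_add, gμ, map_smul, smul_eq_mul]
      by_cases hm : m < k
      · rw [a.2 k m hm, map_zero, LinearMap.zero_apply]
        simp
      · have hW : W (m + 1) k = W m k * ((m : ℚ) + (1 - (k : ℚ))) := by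
          change (((m + 1 - k).factorial : ℕ) : ℚ) / (k.factorial : ℚ) =
            (((m - k).factorial : ℕ) : ℚ) / (k.factorial : ℚ) * ((m : ℚ) + (1 - (k : ℚ)))
          rw [show m + 1 - k = (m - k) + 1 by omega, Nat.factorial_succ]
          push_cast [Nat.cast_sub (show k ≤ m by omega)]
          ring
        rw [hW]
        ring
    -- second part
    have h2 : ∑ k ∈ range (M + 1), ∑ m ∈ range (M + 1), W m k * g (lam m (δ (a.1 (k + 1)))) (b.1 k) =
        ∑ k ∈ range (M + 1), ∑ m ∈ range (M + 1), W m k * g (lam m (a.1 k)) ((k : ℚ) • D (b.1 (k - 1))) := by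
      rw [Finset.sum_range_succ, Finset.sum_range_succ' (fun k => ∑ m ∈ range (M + 1),
        W m k * g (lam m (a.1 k)) ((k : ℚ) • D (b.1 (k - 1))))]
      have e1 : ∑ m ∈ range (M + 1), W m M * g (lam m (δ (a.1 (M + 1)))) (b.1 M) = 0 := by
        refine Finset.sum_eq_zero fun m _ => ?_
        rw [bigC a (M + 1) (by omega), map_zero, map_zero, map_zero, LinearMap.zero_apply, mul_zero]
      have e2 : ∑ m ∈ range (M + 1),
          W m 0 * g (lam m (a.1 0)) (((0 : ℕ) : ℚ) • D (b.1 (0 - 1))) = 0 := by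
        refine Finset.sum_eq_zero fun m _ => ?_
        rw [Nat.cast_zero, zero_smul, map_zero, mul_zero]
      rw [e1, e2, add_zero, add_zero]
      refine Finset.sum_congr rfl fun k _ => ?_
      rw [Finset.sum_range_succ, Finset.sum_range_succ' (fun m => W m (k + 1) *
        g (lam m (a.1 (k + 1))) (((k + 1 : ℕ) : ℚ) • D (b.1 (k + 1 - 1))))]
      have e3 : W M k * g (lam M (δ (a.1 (k + 1)))) (b.1 k) = 0 := by
        rw [← δlam, hlast (M + 1) _ (by omega), map_zero, map_zero, LinearMap.zero_apply, mul_zero]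
      have e4 : W 0 (k + 1) * g (lam 0 (a.1 (k + 1))) (((k + 1 : ℕ) : ℚ) • D (b.1 (k + 1 - 1))) =
          0 := by
        rw [a.2 (k + 1) 0 (by omega), map_zero, LinearMap.zero_apply, mul_zero]
      rw [e3, e4, add_zero, add_zero]
      refine Finset.sum_congr rfl fun m _ => ?_
      have hD' : -(Λ (ρ (b.1 k)) - ρ (Λ (b.1 k))) = D (b.1 k) := by
        rw [D_apply, neg_sub]
      rw [← δlam, adjδ, ← map_neg, hD', map_smul, smul_eq_mul, Nat.add_sub_cancel]
      have hW : W (m + 1) (k + 1) * ((k + 1 : ℕ) : ℚ) = W m k := by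
        change (((m + 1 - (k + 1)).factorial : ℕ) : ℚ) / ((k + 1).factorial : ℚ) * ((k + 1 : ℕ) : ℚ) =
          (((m - k).factorial : ℕ) : ℚ) / (k.factorial : ℚ)
        rw [show m + 1 - (k + 1) = m - k by omega, Nat.factorial_succ]
        have h1 : (k.factorial : ℚ) ≠ 0 := by exact_mod_cast Nat.factorial_ne_zero _
        have h2 : ((k : ℚ) + 1) ≠ 0 := by positivity
        push_cast
        field_simp
      rw [← hW]
      ring
    have h3 : ∑ k ∈ range (M + 1), ∑ m ∈ range (M + 1), W m k * g (lam m ((d a).1 k)) (b.1 k) =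
        ∑ k ∈ range (M + 1), ∑ m ∈ range (M + 1), W m k * g (lam m (ρ (a.1 k))) (b.1 k) +
        ∑ k ∈ range (M + 1), ∑ m ∈ range (M + 1), W m k * g (lam m (δ (a.1 (k + 1)))) (b.1 k) := by
      rw [← Finset.sum_add_distrib]
      refine Finset.sum_congr rfl fun k _ => ?_
      rw [← Finset.sum_add_distrib]
      refine Finset.sum_congr rfl fun m _ => ?_
      rw [d_apply, map_add, map_add, LinearMap.add_apply, mul_add]
    have h4 : ∑ k ∈ range (M + 1), ∑ m ∈ range (M + 1), W m k * g (lam m (a.1 k)) ((d' b).1 k) =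
        ∑ k ∈ range (M + 1), ∑ m ∈ range (M + 1), W m k * g (lam m (a.1 k))
          (μ (R (b.1 k)) + (1 - (k : ℚ)) • R (b.1 k)) +
        ∑ k ∈ range (M + 1), ∑ m ∈ range (M + 1),
          W m k * g (lam m (a.1 k)) ((k : ℚ) • D (b.1 (k - 1))) := by
      rw [← Finset.sum_add_distrib]
      refine Finset.sum_congr rfl fun k _ => ?_
      rw [← Finset.sum_add_distrib]
      refine Finset.sum_congr rfl fun m _ => ?_
      rw [d'_apply, map_add (g (lam m (a.1 k))), mul_add]
    rw [h3, h4, h2]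
    congr 1
    exact Finset.sum_congr rfl fun k _ => h1 k
  -- the vector z
  let z : C := ⟨fun k => if k = 0 then v else 0, by
    intro k m hm
    have hk : k ≠ 0 := by omega
    beta_reduce
    rw [if_neg hk, map_zero]⟩
  have z0 : z.1 0 = v := rfl
  have zs : ∀ k, z.1 (k + 1) = 0 := fun k => rfl
  have hz : d z = 0 := by
    refine extC _ _ fun k => ?_
    rw [d_apply, zs, map_zero, add_zero, zeroC]
    cases k with
    | zero => rw [z0, hvρ]
    | succ k => rw [zs, map_zero]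
  obtain ⟨x, y, hxy, hdx, _, hT⟩ := harmonic gC gCsymm gCpos d d' gadj dd z hz
  -- T = N
  have hN : N x = 0 := by
    refine hT N ?_ ?_ ?_
    · intro c
      have e1 : N (d (d' c)) = d (d' (N c)) - d (Λc (d c)) := by
        rw [Nd, Nd', map_sub, map_sub, dd, sub_zero]
      have e2 : N (d' (d c)) = d' (d (N c)) + d (Λc (d c)) := by
        rw [Nd', Nd, dd, map_zero, zero_sub, sub_neg_eq_add]
      rw [map_add, e1, e2]
      abel
    · intro c
      exact ⟨N c, Nd c⟩
    · refine ⟨0, ?_⟩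
      rw [map_zero]
      exact extC _ _ fun k => rfl
  have xs : ∀ k, x.1 (k + 1) = 0 := by
    intro k
    have := congrArg (fun c : C => c.1 k) hN
    exact this
  -- T = Hm
  have hHm : Hm x = 0 := by
    refine hT Hm ?_ ?_ ?_
    · intro c
      rw [map_add, Hmd, Hmd', Hmd', Hmd, map_sub, map_add]
      abel
    · intro c
      exact ⟨Hm c + c, by rw [map_add, Hmd]⟩
    · refine ⟨0, ?_⟩
      rw [map_zero]
      refine extC _ _ fun k => ?_
      rw [Hm_apply, zeroC]
      cases k with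
      | zero =>
        rw [z0, Nat.cast_zero, mul_zero, zero_smul, sub_zero]
        refine Cx.mh_eq lam_proj lam_sum fun m => ?_
        rw [lamμ, map_zero]
        by_cases hm : m = 0
        · rw [hm, Nat.cast_zero, zero_smul]
        · rw [← hv0, lam_proj, if_neg hm, smul_zero]
      | succ k => rw [zs, map_zero, smul_zero, sub_zero]
  have hx0 : ∀ m, m ≠ 0 → lam m (x.1 0) = 0 := by
    intro m hm
    have h1 : μ (x.1 0) = 0 := by
      have := congrArg (fun c : C => c.1 0) hHm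
      have h2 : (Hm x).1 0 = 0 := this
      rw [Hm_apply, Nat.cast_zero, mul_zero, zero_smul, sub_zero] at h2
      exact h2
    have h2 := lamμ m (x.1 0)
    rw [h1, map_zero] at h2
    have h3 : (m : ℚ) ≠ 0 := by exact_mod_cast hm
    exact (smul_eq_zero.1 h2.symm).resolve_left h3
  have hx00 : lam 0 (x.1 0) = x.1 0 := by
    conv_rhs => rw [← lam_sum (x.1 0)]
    rw [Finset.sum_eq_single 0]
    · intro m _ hm
      exact hx0 m hm
    · intro h
      exact absurd (mem_range.2 (Nat.succ_pos M)) h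
  -- T = L ^ s
  have hLs : ∀ (s : ℕ) (c : C) k, ((Lc ^ s) c).1 k = (L ^ s) (c.1 k) := by
    intro s
    induction s with
    | zero =>
      intro c k
      rfl
    | succ s ih =>
      intro c k
      rw [pow_succ, pow_succ, Module.End.mul_apply, Module.End.mul_apply, ih, Lc_apply]
  have LΔ : ∀ c, Lc (d (d' c) + d' (d c)) = d (d' (Lc c)) + d' (d (Lc c)) := by
    intro c
    have e1 : Lc (d (d' c)) = d (d' (Lc c)) - d (ΛN (d c)) := by
      rw [Ld, Ld', map_sub, map_sub, dd, sub_zero]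
    have e2 : Lc (d' (d c)) = d' (d (Lc c)) + d (ΛN (d c)) := by
      rw [Ld', Ld, dd, map_zero, zero_sub, sub_neg_eq_add]
    rw [map_add, e1, e2]
    abel
  have hL : (Lc ^ s) x = 0 := by
    refine hT (Lc ^ s) ?_ ?_ ?_
    · generalize s = s'
      induction s' with
      | zero =>
        intro c
        rfl
      | succ s' ih =>
        intro c
        rw [pow_succ, Module.End.mul_apply, Module.End.mul_apply, LΔ, ih]
    · generalize s = s'
      induction s' with
      | zero =>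
        intro c
        exact ⟨c, rfl⟩
      | succ s' ih =>
        intro c
        rw [pow_succ, Module.End.mul_apply, Ld]
        exact ih _
    · have hw : (fun k => if k = 0 then 0 else lam (2 * k - 1) ξ : ℕ → A) ∈ C := by
        intro k m hm
        have hk : k ≠ 0 := by omega
        beta_reduce
        rw [if_neg hk, lam_proj, if_neg (by omega)]
      refine ⟨⟨_, hw⟩, extC _ _ fun k => ?_⟩
      rw [hLs, d_apply]
      change (L ^ s) (z.1 k) = ρ (if k = 0 then 0 else lam (2 * k - 1) ξ) +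
        δ (if k + 1 = 0 then 0 else lam (2 * (k + 1) - 1) ξ)
      rw [if_neg (Nat.succ_ne_zero k), show 2 * (k + 1) - 1 = 2 * k + 1 by omega, δlam]
      cases k with
      | zero =>
        rw [if_pos rfl, map_zero, zero_add, z0, hvL]
        have h1 : lam 0 ((L ^ s) v) = (L ^ s) v := by
          have h2 : ∀ t : ℕ, lam 0 ((L ^ t) v) = (L ^ t) v := by
            intro t
            induction t with
            | zero => exact hv0
            | succ t ih => rw [pow_succ', Module.End.mul_apply, ← Llam, ih]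
          exact h2 s
        rw [hvL, map_add, ρlam0, zero_add] at h1
        rw [mul_zero, h1]
      | succ k =>
        rw [if_neg (Nat.succ_ne_zero k), zs, map_zero, show 2 * (k + 1) - 1 = 2 * k + 1 by omega,
          ρlam, show 2 * k + 1 + 1 = 2 * (k + 1) by ring, ← map_add, ← hvL]
        have h2 : ∀ t : ℕ, lam (2 * (k + 1)) ((L ^ t) v) = 0 := by
          intro t
          induction t with
          | zero =>
            change lam (2 * (k + 1)) v = 0
            rw [← hv0, lam_proj, if_neg (by omega)]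
          | succ t ih => rw [pow_succ', Module.End.mul_apply, ← Llam, ih, map_zero]
        exact (h2 s).symm
  -- T = H - b
  have hH : (Hc - b • (LinearMap.id : C →ₗ[ℚ] C)) x = 0 := by
    refine hT (Hc - b • (LinearMap.id : C →ₗ[ℚ] C)) ?_ ?_ ?_
    · intro c
      simp only [LinearMap.sub_apply, LinearMap.smul_apply, LinearMap.id_apply, map_sub, map_smul,
        map_add, Hd, Hd']
      module
    · intro c
      refine ⟨Hc c + c - b • c, ?_⟩
      simp only [LinearMap.sub_apply, LinearMap.smul_apply, LinearMap.id_apply, map_sub, map_smul,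
        map_add, Hd]
    · refine ⟨0, ?_⟩
      rw [map_zero]
      refine extC _ _ fun k => ?_
      rw [LinearMap.sub_apply, LinearMap.smul_apply, LinearMap.id_apply, subC, smulC, Hc_apply,
        zeroC]
      cases k with
      | zero => rw [z0, hvH, sub_self]
      | succ k => rw [zs, map_zero, smul_zero, sub_zero]
  refine ⟨x.1 0, ∑ k ∈ range (M + 1), lam (2 * k + 1) (y.1 (k + 1)), hx00, ?_, ?_, ?_, ?_, ?_⟩
  · have h1 : (d x).1 0 = 0 := by rw [hdx, zeroC]
    rw [d_apply, xs, map_zero, add_zero] at h1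
    exact h1
  · have h1 : ((Hc - b • (LinearMap.id : C →ₗ[ℚ] C)) x).1 0 = 0 := by rw [hH, zeroC]
    rw [LinearMap.sub_apply, LinearMap.smul_apply, LinearMap.id_apply, subC, smulC, Hc_apply] at h1
    exact sub_eq_zero.1 h1
  · rw [← hLs, hL, zeroC]
  · intro m hm
    rw [map_sum]
    refine Finset.sum_eq_zero fun k _ => ?_
    rw [lam_proj, if_neg]
    rintro rfl
    rw [Nat.even_add_one] at hm
    exact hm (even_two_mul k)
  · have hk : ∀ k, z.1 k = x.1 k + (ρ (y.1 k) + δ (y.1 (k + 1))) := by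
      intro k
      conv_lhs => rw [hxy]
      rw [addC, d_apply]
    rw [map_sum, map_sum]
    have e1 : ∑ k ∈ range (M + 1), ρ (lam (2 * k + 1) (y.1 (k + 1))) =
        ∑ k ∈ range (M + 1), lam (2 * k) (ρ (y.1 k)) := by
      have h1 : ∑ k ∈ range (M + 1 + 1), lam (2 * k) (ρ (y.1 k)) =
          ∑ k ∈ range (M + 1), lam (2 * k) (ρ (y.1 k)) := by
        rw [Finset.sum_range_succ, bigC y (M + 1) (by omega), map_zero, map_zero, add_zero]
      rw [← h1, Finset.sum_range_succ' (fun k => lam (2 * k) (ρ (y.1 k))), mul_zero, ρlam0, add_zero]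
      refine Finset.sum_congr rfl fun k _ => ?_
      rw [ρlam, show 2 * k + 1 + 1 = 2 * (k + 1) by ring]
    have e2 : ∑ k ∈ range (M + 1), δ (lam (2 * k + 1) (y.1 (k + 1))) =
        ∑ k ∈ range (M + 1), lam (2 * k) (δ (y.1 (k + 1))) :=
      Finset.sum_congr rfl fun k _ => δlam _ _
    rw [e1, e2, ← Finset.sum_add_distrib, Finset.sum_range_succ']
    have e3 : ∑ k ∈ range M, (lam (2 * (k + 1)) (ρ (y.1 (k + 1))) +
        lam (2 * (k + 1)) (δ (y.1 (k + 1 + 1)))) = 0 := by
      refine Finset.sum_eq_zero fun k _ => ?_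
      have h1 := hk (k + 1)
      rw [zs, xs, zero_add] at h1
      rw [← map_add, ← h1, map_zero]
    have h0 := hk 0
    rw [z0] at h0
    rw [e3, zero_add, mul_zero, ← map_add]
    have h1 : ρ (y.1 0) + δ (y.1 (0 + 1)) = v - x.1 0 := by
      rw [h0]
      abel
    rw [h1, map_sub, hv0, hx00]
    abel

end Pool.Agent.Helper10.HD
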