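import Mathlib
import Pool.Agent.Helper10.HD.Classes

/-!
# The rational vector space of algebraic classes on a finite family of varieties, with its operators
-/

universe u v w

open CategoryTheory TensorProduct

namespace Pool.Agent.Helper10.HD

open SmProjVar Degen Finset

section

variable {k : Type u} [Field k] {K : Type v} [Field K] [CharZero K]
  (W : WeilCohomology.{u, v, w} k K)

attribute [local instance] ratModule

variable {N : ℕ} (U : Fin N → SmProjVar k) (lev : Fin N → ℕ) (h : ∀ s, (U s).Z 1)

/-- algebraic classes of codimension `p` on the members of level `m` -/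
noncomputable def G (m p : ℕ) : Submodule ℚ (∀ s, W.H (U s)) :=
  Submodule.span ℚ {x | ∃ s, lev s = m ∧ ∃ c : (U s).Z p, x = Pi.single s (W.cy (U s) p c)}

/-- algebraic classes -/
noncomputable def Aq : Submodule ℚ (∀ s, W.H (U s)) := ⨆ m, ⨆ p, G W U lev m p

lemma G_le_Aq (m p : ℕ) : G W U lev m p ≤ Aq W U lev :=
  le_iSup_of_le m (le_iSup_of_le p le_rfl)

variable {W U lev}

lemma single_mem_G {s : Fin N} {p : ℕ} (c : (U s).Z p) :
    Pi.single s (W.cy (U s) p c) ∈ G W U lev (lev s) p :=
  Submodule.subset_span ⟨s, rfl, c, rfl⟩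

lemma G_induction {m p : ℕ} {P : (∀ s, W.H (U s)) → Prop}
    (hgen : ∀ s, lev s = m → ∀ c : (U s).Z p, P (Pi.single s (W.cy (U s) p c))) (h0 : P 0)
    (hadd : ∀ x y, P x → P y → P (x + y)) (hsmul : ∀ (q : ℚ) x, P x → P (q • x))
    {x : ∀ s, W.H (U s)} (hx : x ∈ G W U lev m p) : P x := by
  unfold G at hx
  induction hx using Submodule.span_induction with
  | mem x hx =>
    obtain ⟨s, hs, c, rfl⟩ := hx
    exact hgen s hs c
  | zero => exact h0
  | add x y _ _ hx hy => exact hadd x y hx hy
  | smul q x _ hx => exact hsmul q x hx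

lemma Aq_induction {P : (∀ s, W.H (U s)) → Prop}
    (hG : ∀ m p x, x ∈ G W U lev m p → P x)
    (hadd : ∀ x y, P x → P y → P (x + y)) {x : ∀ s, W.H (U s)} (hx : x ∈ Aq W U lev) : P x := by
  unfold Aq at hx
  refine Submodule.iSup_induction _ hx (motive := P) ?_ (hG 0 0 0 (zero_mem _)) hadd
  intro m x hx
  refine Submodule.iSup_induction _ hx (motive := P) (hG m) (hG 0 0 0 (zero_mem _)) hadd

variable (W U lev)

/-- projection to level `m` and codimension `p` -/
noncomputable def E (m p : ℕ) : (∀ s, W.H (U s)) →ₗ[K] ∀ s, W.H (U s) :=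
  LinearMap.pi fun s => if lev s = m then (dproj W (U s) (2 * p)).comp (LinearMap.proj s) else 0

variable {W U lev}

lemma E_apply (m p : ℕ) (x : ∀ s, W.H (U s)) (s : Fin N) :
    E W U lev m p x s = if lev s = m then dproj W (U s) (2 * p) (x s) else 0 := by
  unfold E
  rw [LinearMap.pi_apply]
  split_ifs <;> rfl

lemma E_E (m p m' p' : ℕ) (x : ∀ s, W.H (U s)) : E W U lev m p (E W U lev m' p' x) =
    if m = m' ∧ p = p' then E W U lev m' p' x else 0 := by
  funext s
  rw [E_apply, E_apply]
  by_cases h1 : lev s = m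
  · by_cases h2 : lev s = m'
    · rw [if_pos h1, if_pos h2, dproj_dproj]
      by_cases h3 : p = p'
      · rw [if_pos (by omega), if_pos ⟨h1.symm.trans h2, h3⟩, E_apply, if_pos h2]
      · rw [if_neg (by omega), if_neg (fun h => h3 h.2)]
        rfl
    · rw [if_neg h2, map_zero, ite_self]
      split_ifs with h4
      · rw [E_apply, if_neg h2]
      · rfl
  · rw [if_neg h1]
    split_ifs with h4
    · rw [E_apply, if_neg (fun h => h1 (h.trans h4.1.symm))]
    · rfl

lemma E_single (m p : ℕ) (s : Fin N) (y : W.H (U s)) (j : ℕ) (hy : y ∈ W.gr (U s) (2 * j)) :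
    E W U lev m p (Pi.single s y) = if m = lev s ∧ p = j then Pi.single s y else 0 := by
  funext t
  rw [E_apply]
  by_cases hts : t = s
  · subst hts
    rw [Pi.single_eq_same]
    by_cases h1 : m = lev t
    · rw [if_pos h1.symm]
      by_cases h2 : p = j
      · subst h2
        rw [dproj_of_mem W hy, if_pos ⟨h1, rfl⟩, Pi.single_eq_same]
      · rw [dproj_of_ne W (by omega) hy, if_neg (fun h => h2 h.2)]
        rfl
    · rw [if_neg (fun h => h1 h.symm), if_neg (fun h => h1 h.1)]
      rfl
  · rw [Pi.single_eq_of_ne hts, map_zero, ite_self]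
    split_ifs
    · rw [Pi.single_eq_of_ne hts]
    · rfl

lemma E_G {m p : ℕ} {x : ∀ s, W.H (U s)} (hx : x ∈ G W U lev m p) (m' p' : ℕ) :
    E W U lev m' p' x = if m' = m ∧ p' = p then x else 0 := by
  refine G_induction (P := fun x => E W U lev m' p' x = if m' = m ∧ p' = p then x else 0)
    ?_ ?_ ?_ ?_ hx
  · intro s hs c
    rw [E_single m' p' s _ p (W.cycleClasses.cy_mem _ _ _), hs]
  · rw [map_zero, ite_self]
  · intro x y hx hy
    rw [map_add, hx, hy]
    split_ifs
    · rfl
    · rw [add_zero]
  · intro q x hx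
    have : q • x = (algebraMap ℚ K q) • x := rfl
    rw [this, map_smul, hx]
    split_ifs
    · rfl
    · rw [smul_zero]

lemma E_mem {x : ∀ s, W.H (U s)} (hx : x ∈ Aq W U lev) (m p : ℕ) :
    E W U lev m p x ∈ Aq W U lev := by
  refine Aq_induction (P := fun x => E W U lev m p x ∈ Aq W U lev) ?_ ?_ hx
  · intro m' p' x hx
    rw [E_G hx]
    split_ifs
    · exact G_le_Aq W U lev _ _ hx
    · exact zero_mem _
  · intro x y hx hy
    rw [map_add]
    exact add_mem hx hy

lemma E_mem_G {x : ∀ s, W.H (U s)} (hx : x ∈ Aq W U lev) (m p : ℕ) :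
    E W U lev m p x ∈ G W U lev m p := by
  refine Aq_induction (P := fun x => E W U lev m p x ∈ G W U lev m p) ?_ ?_ hx
  · intro m' p' x hx
    rw [E_G hx]
    split_ifs with h
    · obtain ⟨rfl, rfl⟩ := h
      exact hx
    · exact zero_mem _
  · intro x y hx hy
    rw [map_add]
    exact add_mem hx hy

lemma E_zero {n : ℕ} (hn : ∀ s, lev s + (U s).dim = n) {m p : ℕ} (hmp : n < m + p)
    (x : ∀ s, W.H (U s)) : E W U lev m p x = 0 := by
  funext s
  rw [E_apply]
  split_ifs with hs
  · have h1 := dproj_mem W (U s) (2 * p) (x s)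
    have := hn s
    rw [(W.graded (U s)).eq_bot (2 * p) (by omega)] at h1
    exact (Submodule.mem_bot K).mp h1
  · rfl

lemma E_sum {n : ℕ} (hn : ∀ s, lev s + (U s).dim = n) {x : ∀ s, W.H (U s)}
    (hx : x ∈ Aq W U lev) :
    ∑ m ∈ range (n + 1), ∑ p ∈ range (n + 1), E W U lev m p x = x := by
  refine Aq_induction (P := fun x => ∑ m ∈ range (n + 1), ∑ p ∈ range (n + 1),
    E W U lev m p x = x) ?_ ?_ hx
  · intro m p x hx
    by_cases hmp : m + p ≤ n
    · rw [Finset.sum_eq_single m, Finset.sum_eq_single p, E_G hx, if_pos ⟨rfl, rfl⟩]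
      · intro q _ hq
        rw [E_G hx, if_neg (fun h => hq h.2)]
      · intro hp
        exact absurd (Finset.mem_range.mpr (by omega)) hp
      · intro m' _ hm'
        refine Finset.sum_eq_zero fun q _ => ?_
        rw [E_G hx, if_neg (fun h => hm' h.1)]
      · intro hm
        exact absurd (Finset.mem_range.mpr (by omega)) hm
    · have h0 : x = 0 := by
        have h1 := E_G hx m p
        rw [if_pos ⟨rfl, rfl⟩, E_zero hn (by omega)] at h1
        exact h1.symm
      rw [h0]
      exact Finset.sum_eq_zero fun m _ => Finset.sum_eq_zero fun p _ => map_zero _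
  · intro x y hx hy
    simp only [map_add, Finset.sum_add_distrib, hx, hy]

variable (W U)

/-- multiplication by the divisors -/
noncomputable def Lop : (∀ s, W.H (U s)) →ₗ[K] ∀ s, W.H (U s) :=
  LinearMap.pi fun s => (LinearMap.mulLeft K (W.cy (U s) 1 (h s))).comp (LinearMap.proj s)

variable {W U}

lemma Lop_apply (x : ∀ s, W.H (U s)) (s : Fin N) :
    Lop W U h x s = W.cy (U s) 1 (h s) * x s := rfl

lemma Lop_pow_apply (j : ℕ) (x : ∀ s, W.H (U s)) (s : Fin N) :
    (Lop W U h ^ j) x s = W.cy (U s) 1 (h s) ^ j * x s := by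
  induction j with
  | zero => simp
  | succ j ih => rw [pow_succ', Module.End.mul_apply, Lop_apply, ih, pow_succ', mul_assoc]

lemma Lop_G {m p : ℕ} {x : ∀ s, W.H (U s)} (hx : x ∈ G W U lev m p) :
    Lop W U h x ∈ G W U lev m (p + 1) := by
  refine G_induction (P := fun x => Lop W U h x ∈ G W U lev m (p + 1)) ?_ ?_ ?_ ?_ hx
  · intro s hs c
    obtain ⟨c', hc'⟩ := cy_mul_pow W (U s) (h s) p 1 c
    have h1 : Lop W U h (Pi.single s (W.cy (U s) p c)) =
        Pi.single s (W.cy (U s) (p + 1) c') := by
      funext t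
      rw [Lop_apply]
      by_cases hts : t = s
      · subst hts
        rw [Pi.single_eq_same, Pi.single_eq_same, hc', pow_one]
      · rw [Pi.single_eq_of_ne hts, Pi.single_eq_of_ne hts, mul_zero]
    rw [h1, ← hs]
    exact single_mem_G c'
  · rw [map_zero]; exact zero_mem _
  · intro x y hx hy
    rw [map_add]; exact add_mem hx hy
  · intro q x hx
    have : q • x = (algebraMap ℚ K q) • x := rfl
    rw [this, map_smul]
    exact Submodule.smul_mem _ q hx

lemma map_mem_Aq {T : (∀ s, W.H (U s)) →ₗ[K] ∀ s, W.H (U s)}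
    (hT : ∀ m p x, x ∈ G W U lev m p → T x ∈ Aq W U lev) {x : ∀ s, W.H (U s)}
    (hx : x ∈ Aq W U lev) : T x ∈ Aq W U lev := by
  refine Aq_induction (P := fun x => T x ∈ Aq W U lev) hT ?_ hx
  intro x y hx hy
  rw [map_add]
  exact add_mem hx hy

lemma Lop_mem {x : ∀ s, W.H (U s)} (hx : x ∈ Aq W U lev) : Lop W U h x ∈ Aq W U lev :=
  map_mem_Aq (fun m p _ hx => G_le_Aq W U lev m (p + 1) (Lop_G h hx)) hx

variable (W U)

/-- the pairing -/
noncomputable def BK : (∀ s, W.H (U s)) →ₗ[K] (∀ s, W.H (U s)) →ₗ[K] K :=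
  LinearMap.mk₂ K (fun x y => ∑ s, W.trL (U s) (x s * y s))
    (fun x x' y => by
      rw [← Finset.sum_add_distrib]
      exact Finset.sum_congr rfl fun s _ => by rw [Pi.add_apply, add_mul, map_add])
    (fun a x y => by
      rw [smul_eq_mul, Finset.mul_sum]
      exact Finset.sum_congr rfl fun s _ => by
        rw [Pi.smul_apply, smul_mul_assoc, map_smul, smul_eq_mul])
    (fun x y y' => by
      rw [← Finset.sum_add_distrib]
      exact Finset.sum_congr rfl fun s _ => by rw [Pi.add_apply, mul_add, map_add])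
    (fun a x y => by
      rw [smul_eq_mul, Finset.mul_sum]
      exact Finset.sum_congr rfl fun s _ => by
        rw [Pi.smul_apply, mul_smul_comm, map_smul, smul_eq_mul])

variable {W U}

lemma BK_apply (x y : ∀ s, W.H (U s)) : BK W U x y = ∑ s, W.trL (U s) (x s * y s) := rfl

lemma BK_single (s : Fin N) (a : W.H (U s)) (y : ∀ s, W.H (U s)) :
    BK W U (Pi.single s a) y = W.trL (U s) (a * y s) := by
  rw [BK_apply, Finset.sum_eq_single s]
  · rw [Pi.single_eq_same]
  · intro t _ ht
    rw [Pi.single_eq_of_ne ht, zero_mul, map_zero]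
  · intro hs
    exact absurd (Finset.mem_univ s) hs

lemma BK_single' (s : Fin N) (a : W.H (U s)) (y : ∀ s, W.H (U s)) :
    BK W U y (Pi.single s a) = W.trL (U s) (y s * a) := by
  rw [BK_apply, Finset.sum_eq_single s]
  · rw [Pi.single_eq_same]
  · intro t _ ht
    rw [Pi.single_eq_of_ne ht, mul_zero, map_zero]
  · intro hs
    exact absurd (Finset.mem_univ s) hs

lemma Aq_apply_mem {x : ∀ s, W.H (U s)} (hx : x ∈ Aq W U lev) (s : Fin N) :
    x s ∈ W.algClasses (U s) := by
  refine Aq_induction (P := fun x => x s ∈ W.algClasses (U s)) ?_ ?_ hx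
  · intro m p x hx
    refine G_induction (P := fun x => x s ∈ W.algClasses (U s)) ?_ ?_ ?_ ?_ hx
    · intro t _ c
      by_cases hts : s = t
      · subst hts
        rw [Pi.single_eq_same]
        exact W.cy_mem_algClasses _ _ _
      · rw [Pi.single_eq_of_ne hts]
        exact zero_mem _
    · exact zero_mem _
    · intro x y hx hy
      exact add_mem hx hy
    · intro q x hx
      exact Submodule.smul_mem _ (algebraMap ℚ K q) hx
  · intro x y hx hy
    exact add_mem hx hy

lemma BK_comm {x : ∀ s, W.H (U s)} (hx : x ∈ Aq W U lev) (y : ∀ s, W.H (U s)) :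
    BK W U x y = BK W U y x := by
  rw [BK_apply, BK_apply]
  exact Finset.sum_congr rfl fun s _ => tr_comm_alg (Aq_apply_mem hx s) (y s)

lemma BK_Lop (x y : ∀ s, W.H (U s)) : BK W U (Lop W U h x) y = BK W U x (Lop W U h y) := by
  rw [BK_apply, BK_apply]
  refine Finset.sum_congr rfl fun s _ => ?_
  rw [Lop_apply, Lop_apply, W.evK_comm (U s) _ (x s)
    (W.algClasses_le_evK _ (W.cy_mem_algClasses _ _ (h s))), mul_assoc]

/-- values of the pairing on algebraic classes are rational -/
lemma BK_rat {x y : ∀ s, W.H (U s)} (hx : x ∈ Aq W U lev) (hy : y ∈ Aq W U lev) :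
    ∃ q : ℚ, BK W U x y = algebraMap ℚ K q := by
  have hsm : ∀ (q q' : ℚ) (a : K), a = algebraMap ℚ K q' →
      (algebraMap ℚ K q) • a = algebraMap ℚ K (q * q') := by
    intro q q' a ha
    rw [ha, smul_eq_mul, map_mul]
  refine Aq_induction (P := fun x => ∃ q : ℚ, BK W U x y = algebraMap ℚ K q) ?_ ?_ hx
  · intro m p x hx
    refine G_induction (P := fun x => ∃ q : ℚ, BK W U x y = algebraMap ℚ K q) ?_ ?_ ?_ ?_ hx
    · intro s _ c
      refine Aq_induction (P := fun y => ∃ q : ℚ, BK W U (Pi.single s (W.cy (U s) p c)) y =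
        algebraMap ℚ K q) ?_ ?_ hy
      · intro m' p' y hy
        refine G_induction (P := fun y => ∃ q : ℚ, BK W U (Pi.single s (W.cy (U s) p c)) y =
          algebraMap ℚ K q) ?_ ?_ ?_ ?_ hy
        · intro t _ c'
          rw [BK_single]
          by_cases hst : s = t
          · subst hst
            rw [Pi.single_eq_same]
            obtain ⟨a, ha⟩ := tr_cy_mul_int W (U s) p p' c c'
            exact ⟨a, by rw [ha, map_intCast]⟩
          · rw [Pi.single_eq_of_ne hst]
            exact ⟨0, by rw [mul_zero, map_zero, map_zero]⟩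
        · exact ⟨0, by rw [map_zero, map_zero]⟩
        · rintro a b ⟨q, hq⟩ ⟨q', hq'⟩
          exact ⟨q + q', by rw [map_add, hq, hq', map_add]⟩
        · rintro r a ⟨q, hq⟩
          refine ⟨r * q, ?_⟩
          have : r • a = (algebraMap ℚ K r) • a := rfl
          rw [this, map_smul, hsm r q _ hq]
      · rintro a b ⟨q, hq⟩ ⟨q', hq'⟩
        exact ⟨q + q', by rw [map_add, hq, hq', map_add]⟩
    · exact ⟨0, by rw [map_zero, map_zero]; rfl⟩
    · rintro a b ⟨q, hq⟩ ⟨q', hq'⟩
      exact ⟨q + q', by rw [map_add, LinearMap.add_apply, hq, hq', map_add]⟩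
    · rintro r a ⟨q, hq⟩
      refine ⟨r * q, ?_⟩
      have : r • a = (algebraMap ℚ K r) • a := rfl
      rw [this, map_smul, LinearMap.smul_apply, hsm r q _ hq]
  · rintro a b ⟨q, hq⟩ ⟨q', hq'⟩
    exact ⟨q + q', by rw [map_add, LinearMap.add_apply, hq, hq', map_add]⟩

/-- orthogonality of the graded pieces -/
lemma BK_E {n : ℕ} (hn : ∀ s, lev s + (U s).dim = n) {m p q : ℕ} (hmpq : m + p + q = n)
    {x y : ∀ s, W.H (U s)} (hx : x ∈ Aq W U lev) (hy : y ∈ Aq W U lev) :
    BK W U (E W U lev m p x) y = BK W U x (E W U lev m q y) := by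
  refine Aq_induction (P := fun x => BK W U (E W U lev m p x) y = BK W U x (E W U lev m q y))
    ?_ ?_ hx
  · intro m1 p1 x hx
    refine Aq_induction (P := fun y => BK W U (E W U lev m p x) y =
      BK W U x (E W U lev m q y)) ?_ ?_ hy
    · intro m2 p2 y hy
      rw [E_G hx, E_G hy]
      have key : ¬ (m1 = m2 ∧ m1 + p1 + p2 = n) → BK W U x y = 0 := by
        intro hne
        refine G_induction (P := fun x => BK W U x y = 0) ?_ ?_ ?_ ?_ hx
        · intro s hs c
          refine G_induction (P := fun y => BK W U (Pi.single s (W.cy (U s) p1 c)) y = 0)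
            ?_ ?_ ?_ ?_ hy
          · intro t ht c'
            rw [BK_single]
            by_cases hst : s = t
            · subst hst
              rw [Pi.single_eq_same]
              refine tr_cy_mul_of_ne W (U s) p1 p2 c c' ?_
              intro h'
              exact hne ⟨hs.symm.trans ht, by rw [← hn s, ← h', ← hs]; omega⟩
            · rw [Pi.single_eq_of_ne hst, mul_zero, map_zero]
          · rw [map_zero]
          · intro a b ha hb
            rw [map_add, ha, hb, add_zero]
          · intro r a ha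
            have : r • a = (algebraMap ℚ K r) • a := rfl
            rw [this, map_smul, ha, smul_zero]
        · rw [map_zero]; rfl
        · intro a b ha hb
          rw [map_add, LinearMap.add_apply, ha, hb, add_zero]
        · intro r a ha
          have : r • a = (algebraMap ℚ K r) • a := rfl
          rw [this, map_smul, LinearMap.smul_apply, ha, smul_zero]
      by_cases h1 : m = m1 ∧ p = p1
      · rw [if_pos h1]
        by_cases h2 : m = m2 ∧ q = p2
        · rw [if_pos h2]
        · rw [if_neg h2, map_zero]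
          refine key fun h3 => h2 ⟨h1.1.trans h3.1, ?_⟩
          have := h3.2
          have := h1.1
          have := h1.2
          omega
      · rw [if_neg h1, map_zero, LinearMap.zero_apply]
        by_cases h2 : m = m2 ∧ q = p2
        · rw [if_pos h2]
          symm
          refine key fun h3 => h1 ⟨h2.1.trans h3.1.symm, ?_⟩
          have := h3.2
          have := h3.1
          have := h2.1
          have := h2.2
          omega
        · rw [if_neg h2, map_zero]
    · intro a b ha hb
      rw [map_add, map_add, ha, hb, map_add]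
  · intro a b ha hb
    rw [map_add, map_add, LinearMap.add_apply, ha, hb, map_add, LinearMap.add_apply]

end

end Pool.Agent.Helper10.HD
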