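import Pool.Agent.Helper10.HD.Prim

/-!
# The operator `Λ` and the positive definite inner product of a polarised Lefschetz module

Piece HD-2 of `MP_5f0950_ag` (by helper87).
-/

set_option autoImplicit false

namespace Pool.Agent.Helper10.HD

open Finset

section aux

variable {A : Type*} [AddCommGroup A] [Module ℚ A] {n : ℕ} {ω : ℤ → A →ₗ[ℚ] A}
  {L ε : A →ₗ[ℚ] A} {B : A →ₗ[ℚ] A →ₗ[ℚ] ℚ}

/-- `L ^ i` raises weights by `2 i` -/
theorem pack_Lpow_ω (h : IsLefschetz n ω L) (i : ℕ) (b : ℤ) (x : A) :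
    (L ^ i) (ω b x) = ω (b + 2 * i) ((L ^ i) x) := by
  induction i with
  | zero => simp
  | succ i ih =>
    rw [pow_succ', Module.End.mul_apply, Module.End.mul_apply, ih, h.comm]
    congr 2
    push_cast
    ring

theorem pack_ω_Lpow (h : IsLefschetz n ω L) {j : ℕ} {u : A} (hu : IsPrim ω L j u) (i : ℕ) (b : ℤ) :
    ω b ((L ^ i) u) = if b = 2 * i - j then (L ^ i) u else 0 := by
  have h1 : (L ^ i) u = ω (2 * i - j) ((L ^ i) u) := by
    conv_lhs => rw [← hu.1, pack_Lpow_ω h]
    congr 2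
    ring
  rw [h1, h.grading.proj]

theorem pack_Lpow_zero {j : ℕ} {u : A} (hu : IsPrim ω L j u) {i : ℕ} (hi : j < i) :
    (L ^ i) u = 0 := by
  obtain ⟨t, rfl⟩ : ∃ t, i = t + (j + 1) := ⟨i - (j + 1), by omega⟩
  rw [pow_add, Module.End.mul_apply, hu.2, map_zero]

theorem pack_L_pow (i : ℕ) (u : A) : L ((L ^ i) u) = (L ^ (i + 1)) u := by
  rw [pow_succ', Module.End.mul_apply]

theorem pack_Lpow_L (i : ℕ) (u : A) : (L ^ i) (L u) = (L ^ (i + 1)) u := by
  rw [pow_succ, Module.End.mul_apply]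

theorem pack_comm_pow {T : A →ₗ[ℚ] A} (hT : ∀ x, T (L x) = L (T x)) (i : ℕ) (x : A) :
    T ((L ^ i) x) = (L ^ i) (T x) := by
  induction i generalizing x with
  | zero => simp
  | succ i ih => rw [pow_succ, Module.End.mul_apply, Module.End.mul_apply, ih, hT]

theorem pack_ε_pow (h : IsPolarized n ω L ε B) (i : ℕ) (x : A) :
    (L ^ i) (ε x) = (-1 : ℚ) ^ i • ε ((L ^ i) x) := by
  induction i generalizing x with
  | zero => simp
  | succ i ih =>
    have : L (ε x) = - ε (L x) := by rw [h.εL, neg_neg]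
    rw [pow_succ, Module.End.mul_apply, Module.End.mul_apply, this, map_neg, ih, pow_succ]
    simp

theorem pack_B_pow (h : IsPolarized n ω L ε B) (i : ℕ) (x y : A) :
    B ((L ^ i) x) y = B x ((L ^ i) y) := by
  induction i generalizing x y with
  | zero => simp
  | succ i ih =>
    rw [pow_succ', Module.End.mul_apply, h.BL, ih, ← Module.End.mul_apply, ← pow_succ, pow_succ']

theorem pack_prim_ε (h : IsPolarized n ω L ε B) {j : ℕ} {u : A} (hu : IsPrim ω L j u) :
    IsPrim ω L j (ε u) := by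
  refine ⟨by rw [← h.εω, hu.1], ?_⟩
  rw [pack_ε_pow h, hu.2, map_zero, smul_zero]

theorem pack_prim_T {T : A →ₗ[ℚ] A} (hT : ∀ x, T (L x) = L (T x))
    (hω : ∀ b x, T (ω b x) = ω b (T x)) {j : ℕ} {u : A} (hu : IsPrim ω L j u) :
    IsPrim ω L j (T u) := by
  refine ⟨by rw [← hω, hu.1], ?_⟩
  rw [← pack_comm_pow hT, hu.2, map_zero]

/-- decomposition of a vector of weight `-(j - 1)` killed by `L ^ (j + 1)` -/
theorem pack_dec (h : IsLefschetz n ω L) {j : ℕ} {z : A} (hz : ω (-(j : ℤ) + 1) z = z)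
    (hL : (L ^ (j + 1)) z = 0) :
    ∃ v v', IsPrim ω L (j - 1) v ∧ (j = 0 → v = 0) ∧ IsPrim ω L (j + 1) v' ∧ z = v + L v' := by
  rcases j with _ | j
  · obtain ⟨v', hv1, hv2⟩ := h.surj 1 z (by simpa using hz)
    refine ⟨0, v', ⟨by simp, by simp⟩, fun _ => rfl, ⟨hv1, ?_⟩, ?_⟩
    · rw [show 0 + 1 + 1 = 1 + 1 from rfl, pow_succ', Module.End.mul_apply, hv2]
      simpa using hL
    · rw [zero_add, ← hv2, pow_one]
  · have hw : ω ((j + 2 : ℕ) : ℤ) ((L ^ (j + 1)) z) = (L ^ (j + 1)) z := by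
      conv_rhs => rw [← hz, pack_Lpow_ω h]
      congr 2
      push_cast
      ring
    obtain ⟨v', hv1, hv2⟩ := h.surj (j + 2) _ hw
    refine ⟨z - L v', v', ⟨?_, ?_⟩, by simp, ⟨hv1, ?_⟩, by abel⟩
    · rw [map_sub]
      congr 1
      · rw [← hz]
        conv_rhs => rw [← hz]
        congr 2
        push_cast
        simp
      · conv_rhs => rw [← hv1, h.comm]
        congr 2
        push_cast
        simp
    · rw [Nat.add_sub_cancel, map_sub, ← Module.End.mul_apply, ← pow_succ, hv2, sub_self]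
    · rw [show j + 1 + 1 + 1 = 1 + (j + 2) by ring, pow_add, Module.End.mul_apply, hv2,
        ← Module.End.mul_apply, ← pow_add, show 1 + (j + 1) = j + 1 + 1 by ring, hL]

theorem pack_ext {C : Type*} [AddCommGroup C] [Module ℚ C] {π : ℕ → ℕ → A →ₗ[ℚ] A}
    (hprim : ∀ j i x, IsPrim ω L j (π j i x))
    (hsum : ∀ x, ∑ j ∈ range (n + 1), ∑ i ∈ range (j + 1), (L ^ i) (π j i x) = x)
    (F G : A →ₗ[ℚ] C)
    (hFG : ∀ (j i : ℕ) (u : A), IsPrim ω L j u → F ((L ^ i) u) = G ((L ^ i) u)) : F = G := by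
  ext x
  rw [← hsum x, map_sum, map_sum]
  refine Finset.sum_congr rfl fun j _ => ?_
  rw [map_sum, map_sum]
  exact Finset.sum_congr rfl fun i _ => hFG j i _ (hprim j i x)

theorem pack_sum {C : Type*} [AddCommMonoid C] {π : ℕ → ℕ → A →ₗ[ℚ] A}
    (hπ : ∀ (j i : ℕ) (u : A), i ≤ j → IsPrim ω L j u → ∀ j' i' : ℕ, i' ≤ j' →
        π j' i' ((L ^ i) u) = if j' = j ∧ i' = i then u else 0)
    (hz2 : ∀ j i, n < j → π j i = 0) (f : ℕ → ℕ → A → C) (hf : ∀ a b, f a b 0 = 0)
    {j i : ℕ} {u : A} (hij : i ≤ j) (hu : IsPrim ω L j u) :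
    ∑ a ∈ range (n + 1), ∑ b ∈ range (a + 1), f a b (π a b ((L ^ i) u)) = f j i u := by
  have key : ∀ a b, b ≤ a → f a b (π a b ((L ^ i) u)) = if a = j ∧ b = i then f a b u else 0 := by
    intro a b hab
    rw [hπ j i u hij hu a b hab]
    split_ifs with hc
    · rfl
    · exact hf a b
  by_cases hj : n < j
  · have hu0 : u = 0 := by
      have := hπ j 0 u (Nat.zero_le _) hu j 0 (Nat.zero_le _)
      rw [hz2 j 0 hj] at this
      simpa using this.symm
    simp [hu0, hf]
  · rw [Finset.sum_eq_single j]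
    · rw [Finset.sum_eq_single i]
      · rw [key j i hij, if_pos ⟨rfl, rfl⟩]
      · intro b hb hbi
        rw [key j b (by simpa [Nat.lt_succ_iff] using hb), if_neg (fun hc => hbi hc.2)]
      · intro hb
        exact absurd (Finset.mem_range.2 (Nat.lt_succ_of_le hij)) hb
    · intro a _ haj
      refine Finset.sum_eq_zero fun b hb => ?_
      rw [key a b (by simpa [Nat.lt_succ_iff] using hb), if_neg (fun hc => haj hc.1)]
    · intro hb
      exact absurd (Finset.mem_range.2 (by omega)) hb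

end aux

theorem package {A : Type*} [AddCommGroup A] [Module ℚ A] {n : ℕ} {ω : ℤ → A →ₗ[ℚ] A}
    {L ε : A →ₗ[ℚ] A} {B : A →ₗ[ℚ] A →ₗ[ℚ] ℚ} (h : IsPolarized n ω L ε B) :
    ∃ (Λ : A →ₗ[ℚ] A) (g : A →ₗ[ℚ] A →ₗ[ℚ] ℚ),
      (∀ x y, g x y = g y x) ∧ (∀ x, x ≠ 0 → 0 < g x x) ∧
      (∀ b x, Λ (ω b x) = ω (b - 2) (Λ x)) ∧
      (∀ b x, ω b x = x → L (Λ x) - Λ (L x) = (b : ℚ) • x) ∧
      (∀ T : A →ₗ[ℚ] A, (∀ x, T (L x) = L (T x)) → (∀ b x, T (ω b x) = ω b (T x)) →
        (∀ x, T (Λ x) = Λ (T x)) ∧ ((∀ x, T (ε x) = ε (T x)) → (∀ x y, B (T x) y = B x (T y)) →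
          ∀ x y, g (T x) y = g x (T y))) ∧
      (∀ (S T : A →ₗ[ℚ] A) (σ : ℚ), (∀ x, S (L x) = L (S x)) → (∀ x, T (L x) = L (T x)) →
        (∀ b x, S (ω b x) = ω (b + 1) (S x)) → (∀ b x, T (ω b x) = ω (b + 1) (T x)) →
        (∀ x y, B (S x) y = B x (T y)) → (∀ x, ε (S x) = σ • S (ε x)) →
        ∀ x y, g (S x) y = σ * g x (Λ (T y) - T (Λ y))) := by
  have hl := h.lef
  obtain ⟨π, hprim, hsum, hπ, hz1, hz2⟩ := exists_prim hl
  -- the operator Λ
  let c : ℕ → ℕ → ℚ := fun j i => (i : ℚ) * ((j : ℚ) - i + 1)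
  let Λ : A →ₗ[ℚ] A := ∑ j ∈ range (n + 1), ∑ i ∈ range (j + 1),
    c j i • ((L ^ (i - 1)) ∘ₗ π j i)
  have hΛapp : ∀ x, Λ x = ∑ j ∈ range (n + 1), ∑ i ∈ range (j + 1),
      c j i • (L ^ (i - 1)) (π j i x) := by
    intro x
    simp [Λ, LinearMap.sum_apply]
  have hΛ : ∀ (j i : ℕ) (u : A), IsPrim ω L j u →
      Λ ((L ^ i) u) = c j i • (L ^ (i - 1)) u := by
    intro j i u hu
    rcases Nat.lt_or_ge j i with hij | hij
    · rw [pack_Lpow_zero hu hij, map_zero]
      rcases Nat.eq_or_lt_of_le (Nat.succ_le_of_lt hij) with he | hlt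
      · have hc : c j i = 0 := by
          simp only [c, ← he]
          push_cast
          ring
        rw [hc, zero_smul]
      · rw [pack_Lpow_zero hu (show j < i - 1 by omega), smul_zero]
    · rw [hΛapp]
      exact pack_sum hπ hz2 (fun a b z => c a b • (L ^ (b - 1)) z) (by simp) hij hu
  -- the inner product g
  let k : ℕ → ℕ → ℚ := fun j i => (i.factorial : ℚ) / ((j - i).factorial : ℚ)
  have hk : ∀ j i, 0 < k j i := fun j i => by
    simp only [k]
    positivity
  let g : A →ₗ[ℚ] A →ₗ[ℚ] ℚ := ∑ j ∈ range (n + 1), ∑ i ∈ range (j + 1),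
    k j i • B.compl₁₂ (ε ∘ₗ π j i) ((L ^ j) ∘ₗ π j i)
  have hgapp : ∀ x y, g x y = ∑ j ∈ range (n + 1), ∑ i ∈ range (j + 1),
      k j i * B (ε (π j i x)) ((L ^ j) (π j i y)) := by
    intro x y
    simp [g, LinearMap.sum_apply]
  have hg : ∀ (j i : ℕ) (u : A) (j' i' : ℕ) (u' : A), IsPrim ω L j u → IsPrim ω L j' u' →
      g ((L ^ i) u) ((L ^ i') u') =
        if i ≤ j ∧ j = j' ∧ i = i' then k j i * B (ε u) ((L ^ j) u') else 0 := by
    intro j i u j' i' u' hu hu'
    rcases Nat.lt_or_ge j i with hij | hij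
    · rw [pack_Lpow_zero hu hij, if_neg (by omega)]
      simp
    rcases Nat.lt_or_ge j' i' with hij' | hij'
    · rw [pack_Lpow_zero hu' hij', if_neg (by omega)]
      simp
    rw [hgapp, pack_sum hπ hz2
      (fun a b z => k a b * B (ε z) ((L ^ a) (π a b ((L ^ i') u')))) (by simp) hij hu,
      hπ j' i' u' hij' hu' j i hij]
    by_cases hc : j = j' ∧ i = i'
    · rw [if_pos hc, if_pos ⟨hij, hc⟩]
    · rw [if_neg hc, if_neg (fun hh => hc hh.2)]
      simp
  refine ⟨Λ, g, ?_, ?_, ?_, ?_, ?_, ?_⟩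
  · -- symmetry
    intro x y
    rw [hgapp, hgapp]
    refine Finset.sum_congr rfl fun j _ => Finset.sum_congr rfl fun i _ => ?_
    rw [h.symmε j _ _ (hprim j i x).1 (hprim j i y).1]
  · -- positivity
    intro x hx
    rw [hgapp]
    have hnn : ∀ j i, 0 ≤ k j i * B (ε (π j i x)) ((L ^ j) (π j i x)) := by
      intro j i
      by_cases h0 : π j i x = 0
      · simp [h0]
      · exact (mul_pos (hk j i) (h.pos j _ (hprim j i x) h0)).le
    obtain ⟨j, hj, i, hi, h0⟩ : ∃ j ∈ range (n + 1), ∃ i ∈ range (j + 1), π j i x ≠ 0 := by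
      by_contra hcon
      push Not at hcon
      apply hx
      rw [← hsum x]
      refine Finset.sum_eq_zero fun j hj => Finset.sum_eq_zero fun i hi => ?_
      rw [hcon j hj i hi, map_zero]
    refine Finset.sum_pos' (fun j _ => Finset.sum_nonneg fun i _ => hnn j i) ⟨j, hj, ?_⟩
    exact Finset.sum_pos' (fun i _ => hnn j i)
      ⟨i, hi, mul_pos (hk j i) (h.pos j _ (hprim j i x) h0)⟩
  · -- weight of Λ
    intro b x
    refine LinearMap.congr_fun (pack_ext hprim hsum (Λ ∘ₗ ω b) (ω (b - 2) ∘ₗ Λ) ?_) x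
    intro j i u hu
    rw [LinearMap.comp_apply, LinearMap.comp_apply, hΛ j i u hu, map_smul,
      pack_ω_Lpow hl hu, pack_ω_Lpow hl hu]
    rcases i with _ | i
    · have hc : c j 0 = 0 := by simp [c]
      rw [hc, zero_smul]
      split_ifs with hb
      · rw [hΛ j 0 u hu, hc, zero_smul]
      · rw [map_zero]
    · have hiff : (b = 2 * ((i + 1 : ℕ) : ℤ) - j) ↔ (b - 2 = 2 * ((i + 1 - 1 : ℕ) : ℤ) - j) := by
        rw [Nat.add_sub_cancel]
        push_cast
        constructor <;> intro hh <;> linarith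
      by_cases hb : b = 2 * ((i + 1 : ℕ) : ℤ) - j
      · rw [if_pos hb, if_pos (hiff.1 hb), hΛ j (i + 1) u hu]
      · rw [if_neg hb, if_neg (fun hh => hb (hiff.2 hh)), map_zero, smul_zero]
  · -- commutator
    intro b x hx
    have key := LinearMap.congr_fun (pack_ext hprim hsum
      (L ∘ₗ Λ ∘ₗ ω b - Λ ∘ₗ L ∘ₗ ω b) ((b : ℚ) • ω b) ?_) x
    · simpa [hx] using key
    intro j i u hu
    simp only [LinearMap.sub_apply, LinearMap.comp_apply, LinearMap.smul_apply]
    rw [pack_ω_Lpow hl hu]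
    by_cases hb : b = 2 * (i : ℤ) - j
    · rw [if_pos hb, hΛ j i u hu, pack_L_pow, hΛ j (i + 1) u hu,
        Nat.add_sub_cancel, map_smul]
      have hLL : c j i • L ((L ^ (i - 1)) u) = c j i • (L ^ i) u := by
        rcases i with _ | i
        · simp [c]
        · rw [pack_L_pow, Nat.add_sub_cancel]
      rw [hLL, ← sub_smul]
      congr 1
      rw [hb]
      simp only [c]
      push_cast
      ring
    · rw [if_neg hb]
      simp
  · -- operators of degree zero
    intro T hTL hTω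
    constructor
    · intro x
      refine LinearMap.congr_fun (pack_ext hprim hsum (T ∘ₗ Λ) (Λ ∘ₗ T) ?_) x
      intro j i u hu
      rw [LinearMap.comp_apply, LinearMap.comp_apply, hΛ j i u hu, map_smul,
        pack_comm_pow hTL, pack_comm_pow hTL, hΛ j i _ (pack_prim_T hTL hTω hu)]
    · intro hTε hTB x y
      refine LinearMap.congr_fun₂ (pack_ext hprim hsum (g ∘ₗ T) (g.compl₂ T) ?_) x y
      intro j i u hu
      refine pack_ext hprim hsum _ _ ?_
      intro j' i' u' hu'
      rw [LinearMap.comp_apply, LinearMap.compl₂_apply, pack_comm_pow hTL, pack_comm_pow hTL,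
        hg _ _ _ _ _ _ (pack_prim_T hTL hTω hu) hu', hg _ _ _ _ _ _ hu (pack_prim_T hTL hTω hu'),
        ← pack_comm_pow hTL, ← hTε, hTB]
  · -- operators of degree one
    intro S T σ hSL hTL hSω hTω hB hε x y
    refine LinearMap.congr_fun₂ (pack_ext hprim hsum (g ∘ₗ S)
      (σ • g.compl₂ (Λ ∘ₗ T - T ∘ₗ Λ)) ?_) x y
    intro j i u hu
    refine pack_ext hprim hsum _ _ ?_
    intro j' i' u' hu'
    simp only [LinearMap.comp_apply, LinearMap.smul_apply, LinearMap.compl₂_apply,
      LinearMap.sub_apply, smul_eq_mul]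
    obtain ⟨v, v', hv, hv0, hv', hSu⟩ := pack_dec hl (j := j) (z := S u)
      (by rw [← hSω, hu.1]) (by rw [← pack_comm_pow hSL, hu.2, map_zero])
    obtain ⟨q, q', hq, hq0, hq', hTu⟩ := pack_dec hl (j := j') (z := T u')
      (by rw [← hTω, hu'.1]) (by rw [← pack_comm_pow hTL, hu'.2, map_zero])
    have hSi : S ((L ^ i) u) = (L ^ i) v + (L ^ (i + 1)) v' := by
      rw [pack_comm_pow hSL, hSu, map_add, pack_Lpow_L]
    have hTi : ∀ t, T ((L ^ t) u') = (L ^ t) q + (L ^ (t + 1)) q' := by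
      intro t
      rw [pack_comm_pow hTL, hTu, map_add, pack_Lpow_L]
    have hD : Λ (T ((L ^ i') u')) - T (Λ ((L ^ i') u')) =
        (-(i' : ℚ)) • (L ^ (i' - 1)) q + ((j' : ℚ) - i' + 1) • (L ^ i') q' := by
      rw [hTi, map_add, hΛ _ _ _ hq, hΛ _ _ _ hq', hΛ _ _ _ hu', map_smul, hTi,
        Nat.add_sub_cancel]
      have hq1 : c (j' - 1) i' • (L ^ (i' - 1)) q =
          ((i' : ℚ) * ((j' : ℚ) - i')) • (L ^ (i' - 1)) q := by
        rcases j' with _ | j'
        · simp [hq0 rfl]
        · congr 1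
          simp only [c, Nat.add_sub_cancel]
          push_cast
          ring
      have hq2 : c j' i' • (L ^ (i' - 1 + 1)) q' = c j' i' • (L ^ i') q' := by
        rcases i' with _ | i'
        · simp [c]
        · rw [Nat.add_sub_cancel]
      rw [smul_add, hq1, hq2]
      simp only [c]
      push_cast
      module
    rw [hSi, hD, map_add, LinearMap.add_apply, map_add, map_smul, map_smul, smul_eq_mul,
      smul_eq_mul, hg _ _ _ _ _ _ hv hu', hg _ _ _ _ _ _ hv' hu', hg _ _ _ _ _ _ hu hq,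
      hg _ _ _ _ _ _ hu hq']
    by_cases hA : j = j' + 1 ∧ i = i'
    · obtain ⟨rfl, rfl⟩ := hA
      rw [Nat.add_sub_cancel] at hv
      simp only [Nat.add_sub_cancel]
      rw [if_neg (show ¬ (i + 1 ≤ j' + 1 + 1 ∧ j' + 1 + 1 = j' ∧ i + 1 = i) by omega),
        if_neg (show ¬ (i ≤ j' + 1 ∧ j' + 1 = j' - 1 ∧ i = i - 1) by omega)]
      by_cases hi : i ≤ j'
      · rw [if_pos (by refine ⟨?_, ?_, ?_⟩ <;> first | omega | trivial),
          if_pos (by refine ⟨?_, ?_, ?_⟩ <;> first | omega | trivial)]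
        have e1 : B (ε v) ((L ^ j') u') = σ * B (ε u) ((L ^ (j' + 1)) q') := by
          have hveq : v = S u - L v' := by rw [hSu]; abel
          have hLv' : B (ε (L v')) ((L ^ j') u') = 0 := by
            rw [h.εL, map_neg, LinearMap.neg_apply, h.BL, pack_L_pow, hu'.2]
            simp
          have hLq : (L ^ j') q = 0 := by
            rcases Nat.eq_zero_or_pos j' with h0 | h0
            · rw [hq0 h0, map_zero]
            · exact pack_Lpow_zero hq (by omega)
          rw [hveq, map_sub, map_sub, LinearMap.sub_apply, hLv', sub_zero, hε, map_smul,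
            LinearMap.smul_apply, hB, hTi, hLq, zero_add, smul_eq_mul]
        have e2 : k j' i = ((j' : ℚ) - i + 1) * k (j' + 1) i := by
          simp only [k]
          have h3 : j' + 1 - i = (j' - i) + 1 := by omega
          have h4 : (((j' - i : ℕ) : ℚ)) = (j' : ℚ) - i := by rw [Nat.cast_sub hi]
          rw [h3, Nat.factorial_succ]
          push_cast
          rw [h4]
          have h5 : ((j' : ℚ) - i + 1) ≠ 0 := by
            have : (i : ℚ) ≤ j' := by exact_mod_cast hi
            linarith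
          have h6 : (((j' - i).factorial : ℚ)) ≠ 0 := by positivity
          field_simp
        rw [e1, e2]
        ring
      · rw [if_neg (fun hh => hi hh.1)]
        by_cases hi2 : i ≤ j' + 1
        · have h7 : (i : ℚ) = j' + 1 := by
            have : i = j' + 1 := by omega
            rw [this]
            push_cast
            ring
          rw [h7]
          simp
        · rw [if_neg (fun hh => hi2 hh.1)]
          simp
    by_cases hBc : j' = j + 1 ∧ i' = i + 1
    · obtain ⟨rfl, rfl⟩ := hBc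
      rw [Nat.add_sub_cancel] at hq
      simp only [Nat.add_sub_cancel]
      rw [if_neg (show ¬ (i ≤ j - 1 ∧ j - 1 = j + 1 ∧ i = i + 1) by omega),
        if_neg (show ¬ (i ≤ j ∧ j = j + 1 + 1 ∧ i = i + 1) by omega)]
      by_cases hi : i ≤ j
      · rw [if_pos (by refine ⟨?_, ?_, ?_⟩ <;> first | omega | trivial),
          if_pos (by refine ⟨?_, ?_, ?_⟩ <;> first | omega | trivial)]
        have e1 : B (ε v') ((L ^ (j + 1)) u') = -σ * B (ε u) ((L ^ j) q) := by
          have hveq : L v' = S u - v := by rw [hSu]; abel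
          have hLv : (L ^ j) v = 0 := by
            rcases Nat.eq_zero_or_pos j with h0 | h0
            · rw [hv0 h0, map_zero]
            · exact pack_Lpow_zero hv (by omega)
          have hv1 : B (ε v) ((L ^ j) u') = 0 := by
            rw [← pack_B_pow h, pack_ε_pow h, hLv]
            simp
          have hq1 : B (ε u) ((L ^ (j + 1)) q') = 0 := by
            rw [← pack_B_pow h, pack_ε_pow h, hu.2]
            simp
          calc B (ε v') ((L ^ (j + 1)) u') = - B (ε (L v')) ((L ^ j) u') := by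
                rw [h.εL, map_neg, LinearMap.neg_apply, neg_neg, h.BL, pack_L_pow]
            _ = -σ * B (ε u) ((L ^ j) q) := by
                rw [hveq, map_sub, map_sub, LinearMap.sub_apply, hv1, sub_zero, hε, map_smul,
                  LinearMap.smul_apply, hB, hTi, map_add, hq1, add_zero, smul_eq_mul]
                ring
        have e2 : k (j + 1) (i + 1) = ((i : ℚ) + 1) * k j i := by
          simp only [k]
          rw [Nat.add_sub_add_right, Nat.factorial_succ]
          push_cast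
          ring
        rw [e1, e2]
        push_cast
        ring
      · rw [if_neg (fun hh => hi (by omega)), if_neg (fun hh => hi hh.1)]
        simp
    · have t1 : (if i ≤ j - 1 ∧ j - 1 = j' ∧ i = i' then
          k (j - 1) i * B (ε v) ((L ^ (j - 1)) u') else 0) = 0 := by
        split_ifs with hc
        · rw [hv0 (by omega)]
          simp
        · rfl
      have t2 : (if i + 1 ≤ j + 1 ∧ j + 1 = j' ∧ i + 1 = i' then
          k (j + 1) (i + 1) * B (ε v') ((L ^ (j + 1)) u') else 0) = 0 := by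
        rw [if_neg (by omega)]
      have t3 : -(i' : ℚ) * (if i ≤ j ∧ j = j' - 1 ∧ i = i' - 1 then
          k j i * B (ε u) ((L ^ j) q) else 0) = 0 := by
        split_ifs with hc
        · rcases Nat.eq_zero_or_pos j' with h0 | h0
          · rw [hq0 h0]
            simp
          · have : i' = 0 := by omega
            rw [this]
            simp
        · simp
      have t4 : (if i ≤ j ∧ j = j' + 1 ∧ i = i' then
          k j i * B (ε u) ((L ^ j) q') else 0) = 0 := by
        rw [if_neg (by omega)]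
      rw [t1, t2, t3, t4]
      simp

end Pool.Agent.Helper10.HD
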