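import Mathlib
import Pool.Agent.Helper10.HD.Package
import Pool.Agent.Helper10.HD.Complex

/-!
# The linear algebra theorem on degenerations (assembly)
-/

set_option autoImplicit false

namespace Pool.Agent.Helper10.HD

open Finset

section Main

variable {A : Type*} [AddCommGroup A] [Module ℚ A]

/-- the hypotheses on the bigrading -/
structure IsBigrading (n : ℕ) (e : ℕ → ℕ → A →ₗ[ℚ] A) : Prop where
  proj : ∀ m p m' p' x, e m p (e m' p' x) = if m = m' ∧ p = p' then e m' p' x else 0
  zero : ∀ m p, n < m + p → e m p = 0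
  sum : ∀ x, ∑ m ∈ range (n + 1), ∑ p ∈ range (n + 1), e m p x = x

variable {n : ℕ} {e : ℕ → ℕ → A →ₗ[ℚ] A}

lemma IsBigrading.induction (he : IsBigrading n e) {P : A → Prop} (h0 : P 0)
    (hadd : ∀ x y, P x → P y → P (x + y))
    (hom : ∀ m p x, m + p ≤ n → e m p x = x → P x) (x : A) : P x := by
  rw [← he.sum x]
  refine Finset.sum_induction _ P (fun a b => hadd a b) h0 fun m _ => ?_
  refine Finset.sum_induction _ P (fun a b => hadd a b) h0 fun p _ => ?_
  by_cases h : m + p ≤ n
  · refine hom m p _ h ?_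
    rw [he.proj, if_pos ⟨rfl, rfl⟩]
  · rw [he.zero m p (by omega)]
    exact h0

/-- the operator which acts by `f m p` on the part of bidegree `(m, p)` -/
noncomputable def wt (n : ℕ) (e : ℕ → ℕ → A →ₗ[ℚ] A) (f : ℕ → ℕ → ℚ) : A →ₗ[ℚ] A :=
  ∑ m ∈ range (n + 1), ∑ p ∈ range (n + 1), f m p • e m p

lemma wt_apply (f : ℕ → ℕ → ℚ) (x : A) :
    wt n e f x = ∑ m ∈ range (n + 1), ∑ p ∈ range (n + 1), f m p • e m p x := by
  simp [wt, LinearMap.sum_apply, LinearMap.smul_apply]

lemma IsBigrading.e_hom (he : IsBigrading n e) {m p : ℕ} {x : A} (hx : e m p x = x) (m' p' : ℕ) :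
    e m' p' x = if m' = m ∧ p' = p then x else 0 := by
  rw [← hx, he.proj]

lemma IsBigrading.wt_hom (he : IsBigrading n e) (f : ℕ → ℕ → ℚ) {m p : ℕ} {x : A}
    (hx : e m p x = x) : wt n e f x = f m p • x := by
  by_cases h : m + p ≤ n
  · rw [wt_apply, Finset.sum_eq_single m, Finset.sum_eq_single p, hx]
    · intro q _ hq
      rw [he.e_hom hx, if_neg (fun h => hq h.2), smul_zero]
    · intro hp
      exact absurd (Finset.mem_range.mpr (by omega)) hp
    · intro m' _ hm'
      refine Finset.sum_eq_zero fun q _ => ?_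
      rw [he.e_hom hx, if_neg (fun h => hm' h.1), smul_zero]
    · intro hm
      exact absurd (Finset.mem_range.mpr (by omega)) hm
  · have h0 : x = 0 := by
      rw [← hx, he.zero m p (by omega)]; rfl
    rw [h0, map_zero, smul_zero]

/-- an operator which shifts the bidegree -/
lemma IsBigrading.wt_shift (he : IsBigrading n e) (T : A →ₗ[ℚ] A) (f f' : ℕ → ℕ → ℚ) 
    (hT : ∀ m p x, m + p ≤ n → e m p x = x → T x = 0 ∨
      ∃ m' p', e m' p' (T x) = T x ∧ f' m' p' = f m p) (x : A) :
    T (wt n e f x) = wt n e f' (T x) := by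
  revert x
  refine he.induction ?_ ?_ ?_
  · simp
  · intro x y hx hy
    simp only [map_add, hx, hy]
  · intro m p x hmp hx
    rw [he.wt_hom f hx, map_smul]
    obtain h | ⟨m', p', h1, h2⟩ := hT m p x hmp hx
    · rw [h, smul_zero, map_zero]
    · rw [he.wt_hom f' h1, h2]


/-- weights -/
noncomputable def om (n : ℕ) (e : ℕ → ℕ → A →ₗ[ℚ] A) (b : ℤ) : A →ₗ[ℚ] A :=
  wt n e (fun m p => if 2 * (p : ℤ) + m - n = b then 1 else 0)

/-- levels -/
noncomputable def lv (n : ℕ) (e : ℕ → ℕ → A →ₗ[ℚ] A) (k : ℕ) : A →ₗ[ℚ] A :=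
  wt n e (fun m _ => if m = k then 1 else 0)

/-- the weight operator -/
noncomputable def hop (n : ℕ) (e : ℕ → ℕ → A →ₗ[ℚ] A) : A →ₗ[ℚ] A :=
  wt n e (fun m p => (2 * (p : ℚ) + m - n))

/-- the sign operator -/
noncomputable def eps (n : ℕ) (e : ℕ → ℕ → A →ₗ[ℚ] A) : A →ₗ[ℚ] A :=
  wt n e (fun _ p => (-1) ^ p)

lemma IsBigrading.om_hom (he : IsBigrading n e) (b : ℤ) {m p : ℕ} {x : A} (hx : e m p x = x) :
    om n e b x = if 2 * (p : ℤ) + m - n = b then x else 0 := by
  rw [om, he.wt_hom _ hx]
  split_ifs <;> simp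

lemma IsBigrading.lv_hom (he : IsBigrading n e) (k : ℕ) {m p : ℕ} {x : A} (hx : e m p x = x) :
    lv n e k x = if m = k then x else 0 := by
  rw [lv, he.wt_hom _ hx]
  split_ifs <;> simp

lemma IsBigrading.hop_hom (he : IsBigrading n e) {m p : ℕ} {x : A} (hx : e m p x = x) :
    hop n e x = (2 * (p : ℚ) + m - n) • x := he.wt_hom _ hx

lemma IsBigrading.eps_hom (he : IsBigrading n e) {m p : ℕ} {x : A} (hx : e m p x = x) :
    eps n e x = (-1 : ℚ) ^ p • x := he.wt_hom _ hx

/-- two linear maps agree if they agree on homogeneous elements -/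
lemma IsBigrading.ext {C : Type*} [AddCommGroup C] [Module ℚ C] (he : IsBigrading n e)
    (S T : A →ₗ[ℚ] C) (h : ∀ m p x, m + p ≤ n → e m p x = x → S x = T x) (x : A) : S x = T x := by
  revert x
  refine he.induction ?_ ?_ h
  · simp
  · intro x y hx hy
    simp only [map_add, hx, hy]

variable {L ρ δ : A →ₗ[ℚ] A} {B : A →ₗ[ℚ] A →ₗ[ℚ] ℚ}

lemma L_hom (Le : ∀ m p x, L (e m p x) = e m (p + 1) (L x)) {m p : ℕ} {x : A}
    (hx : e m p x = x) : e m (p + 1) (L x) = L x := by
  rw [← Le, hx]

lemma L_pow_hom (Le : ∀ m p x, L (e m p x) = e m (p + 1) (L x)) {m p : ℕ} {x : A}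
    (hx : e m p x = x) (j : ℕ) : e m (p + j) ((L ^ j) x) = (L ^ j) x := by
  induction j with
  | zero => exact hx
  | succ j ih =>
    rw [pow_succ', Module.End.mul_apply, ← add_assoc]
    exact L_hom Le ih

lemma L_pow_e (Le : ∀ m p x, L (e m p x) = e m (p + 1) (L x)) (m p : ℕ) (x : A) (j : ℕ) :
    (L ^ j) (e m p x) = e m (p + j) ((L ^ j) x) := by
  induction j with
  | zero => rfl
  | succ j ih =>
    rw [pow_succ', Module.End.mul_apply, ih, Le, Module.End.mul_apply, add_assoc]

lemma B_pow (BL : ∀ x y, B (L x) y = B x (L y)) (j : ℕ) (x y : A) :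
    B ((L ^ j) x) y = B x ((L ^ j) y) := by
  induction j generalizing x y with
  | zero => rfl
  | succ j ih =>
    rw [pow_succ, Module.End.mul_apply, ih, BL]
    congr 1
    rw [← Module.End.mul_apply, ← pow_succ']
    rfl

/-- orthogonality of the parts of the bigrading -/
lemma IsBigrading.B_hom (he : IsBigrading n e)
    (Be : ∀ m p q x y, m + p + q = n → B (e m p x) y = B x (e m q y)) {m p m' p' : ℕ} {x y : A}
    (hx : e m p x = x) (hy : e m' p' y = y) (h : ¬ (m = m' ∧ m + p + p' = n)) : B x y = 0 := by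
  by_cases hmp : m + p ≤ n
  · rw [← hx, Be m p (n - m - p) x y (by omega), he.e_hom hy, if_neg, map_zero]
    rintro ⟨h1, h2⟩
    exact h ⟨h1, by omega⟩
  · have h0 : x = 0 := by
      rw [← hx, he.zero m p (by omega)]; rfl
    rw [h0, map_zero, LinearMap.zero_apply]

/-- the hard Lefschetz property follows from the positivity and the non-degeneracy -/
lemma inj_of_pos 
    (pos : ∀ m p j x, m + 2 * p + j = n → e m p x = x → (L ^ (j + 1)) x = 0 → x ≠ 0 →
      0 < (-1) ^ p * B x ((L ^ j) x)) (m p j : ℕ) (x : A) (h : m + 2 * p + j = n)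
      (hx : e m p x = x) (hj : (L ^ j) x = 0) : x = 0 := by
  by_contra h0
  have h1 : (L ^ (j + 1)) x = 0 := by
    rw [pow_succ', Module.End.mul_apply, hj, map_zero]
  have h2 := pos m p j x h hx h1 h0
  rw [hj, map_zero, mul_zero] at h2
  exact lt_irrefl _ h2

lemma surj_of_pos [FiniteDimensional ℚ A] (he : IsBigrading n e)
    (Le : ∀ m p x, L (e m p x) = e m (p + 1) (L x))
    (Be : ∀ m p q x y, m + p + q = n → B (e m p x) y = B x (e m q y))
    (nondeg : ∀ x, (∀ y, B x y = 0) → x = 0)
    (pos : ∀ m p j x, m + 2 * p + j = n → e m p x = x → (L ^ (j + 1)) x = 0 → x ≠ 0 →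
      0 < (-1) ^ p * B x ((L ^ j) x)) (m p j : ℕ) (x : A) (h : m + 2 * p + j = n)
      (hx : e m (p + j) x = x) : ∃ y, e m p y = y ∧ (L ^ j) y = x := by
  let E : Submodule ℚ A := LinearMap.range (e m p)
  have hE : ∀ y : E, e m p (y : A) = y := by
    rintro ⟨_, y, rfl⟩
    change e m p (e m p y) = e m p y
    rw [he.proj, if_pos ⟨rfl, rfl⟩]
  have hE' : ∀ y : A, e m p y = y → y ∈ E := fun y hy => ⟨y, hy⟩
  let Φ : E →ₗ[ℚ] Module.Dual ℚ E :=
    { toFun := fun y => (B ((L ^ j) (y : A))).comp E.subtype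
      map_add' := by intro a b; ext c; simp
      map_smul' := by intro a b; ext c; simp }
  have hΦ : ∀ y z : E, Φ y z = B ((L ^ j) (y : A)) z := fun y z => rfl
  -- an element of bidegree `(m, p + j)` is zero if it is orthogonal to `E`
  have key : ∀ z : A, e m (p + j) z = z → (∀ y : E, B z y = 0) → z = 0 := by
    intro z hz hzE
    refine nondeg z fun y => ?_
    have h1 : B z y = B z (e m p y) := by
      conv_lhs => rw [← hz]
      rw [Be m (p + j) p z y (by omega)]
    rw [h1]
    exact hzE ⟨e m p y, y, rfl⟩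
  have hinj : Function.Injective Φ := by
    rw [← LinearMap.ker_eq_bot, LinearMap.ker_eq_bot']
    intro y hy
    have h1 : (L ^ j) (y : A) = 0 := by
      refine key _ (L_pow_hom Le (hE y) j) fun z => ?_
      rw [← hΦ, hy, LinearMap.zero_apply]
    exact Subtype.ext (inj_of_pos pos m p j y h (hE y) h1)
  have hsurj : Function.Surjective Φ := by
    refine (LinearMap.injective_iff_surjective_of_finrank_eq_finrank ?_).mp hinj
    exact (Subspace.dual_finrank_eq).symm
  obtain ⟨y, hy⟩ := hsurj ((B x).comp E.subtype)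
  refine ⟨y, hE y, ?_⟩
  have h2 : (L ^ j) (y : A) - x = 0 := by
    refine key _ ?_ fun z => ?_
    · rw [map_sub, L_pow_hom Le (hE y) j, hx]
    · have := LinearMap.congr_fun hy z
      rw [hΦ] at this
      rw [map_sub, LinearMap.sub_apply, this]
      simp
  exact sub_eq_zero.mp h2

lemma IsBigrading.om_om (he : IsBigrading n e) (b b' : ℤ) (x : A) :
    om n e b (om n e b' x) = if b = b' then om n e b' x else 0 := by
  revert x
  refine he.induction ?_ ?_ ?_
  · simp
  · intro x y hx hy
    simp only [map_add, hx, hy]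
    split_ifs <;> simp
  · intro m p x _ hx
    rw [he.om_hom b' hx]
    by_cases h' : 2 * (p : ℤ) + m - n = b'
    · rw [if_pos h', he.om_hom b hx]
      by_cases hb : b = b'
      · rw [if_pos hb, if_pos (h'.trans hb.symm)]
      · rw [if_neg hb, if_neg (fun h => hb (h.symm.trans h'))]
    · rw [if_neg h', map_zero, ite_self]

lemma IsBigrading.om_sum (he : IsBigrading n e) (x : A) :
    ∑ b ∈ Icc (-(n : ℤ)) n, om n e b x = x := by
  revert x
  refine he.induction ?_ ?_ ?_
  · simp
  · intro x y hx hy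
    simp only [map_add, Finset.sum_add_distrib, hx, hy]
  · intro m p x hmp hx
    rw [Finset.sum_congr rfl (fun b _ => he.om_hom b hx), Finset.sum_ite_eq, if_pos]
    rw [Finset.mem_Icc]
    constructor <;> omega

/-- an element of weight `b` is the sum of its homogeneous parts of weight `b` -/
lemma IsBigrading.e_eq_zero_of_om (he : IsBigrading n e) {b : ℤ} {x : A} (hx : om n e b x = x)
    {m p : ℕ} (h : 2 * (p : ℤ) + m - n ≠ b) : e m p x = 0 := by
  have key : ∀ y, e m p (om n e b y) = 0 := by
    refine he.induction ?_ ?_ ?_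
    · simp
    · intro x y hx hy
      simp only [map_add, hx, hy, add_zero]
    · intro m' p' y _ hy
      rw [he.om_hom b hy]
      by_cases h' : 2 * (p' : ℤ) + m' - n = b
      · rw [if_pos h', he.e_hom hy, if_neg]
        rintro ⟨rfl, rfl⟩
        exact h h'
      · rw [if_neg h', map_zero]
  rw [← hx, key]

lemma IsBigrading.om_e (he : IsBigrading n e) (b : ℤ) (m p : ℕ) (x : A) :
    om n e b (e m p x) = e m p (om n e b x) := by
  revert x
  refine he.induction ?_ ?_ ?_
  · simp
  · intro x y hx hy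
    simp only [map_add, hx, hy]
  · intro m' p' y _ hy
    rw [he.om_hom b hy, he.e_hom hy]
    split_ifs
    · rw [he.om_hom b hy, if_pos ‹_›, he.e_hom hy, if_pos ‹_›]
    · rw [he.om_hom b hy, if_neg ‹_›, map_zero]
    · rw [he.e_hom hy, if_neg ‹_›, map_zero]
    · rw [map_zero, map_zero]

theorem isPolarized [FiniteDimensional ℚ A] (he : IsBigrading n e)
    (Le : ∀ m p x, L (e m p x) = e m (p + 1) (L x))
    (symm : ∀ x y, B x y = B y x) (BL : ∀ x y, B (L x) y = B x (L y))
    (Be : ∀ m p q x y, m + p + q = n → B (e m p x) y = B x (e m q y))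
    (nondeg : ∀ x, (∀ y, B x y = 0) → x = 0)
    (pos : ∀ m p j x, m + 2 * p + j = n → e m p x = x → (L ^ (j + 1)) x = 0 → x ≠ 0 →
      0 < (-1) ^ p * B x ((L ^ j) x)) : IsPolarized n (om n e) L (eps n e) B where
  lef :=
    { grading := ⟨he.om_om, he.om_sum⟩
      comm := fun b x => by
        refine he.wt_shift L _ _ ?_ x
        intro m p y _ hy
        refine Or.inr ⟨m, p + 1, L_hom Le hy, ?_⟩
        push_cast
        have : (2 * ((p : ℤ) + 1) + m - n = b + 2) ↔ (2 * (p : ℤ) + m - n = b) := by
          constructor <;> intro h <;> linarith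
        simp only [this]
      inj := fun j x hx hj => by
        rw [← he.sum x]
        refine Finset.sum_eq_zero fun m _ => Finset.sum_eq_zero fun p _ => ?_
        by_cases h : 2 * (p : ℤ) + m - n = -(j : ℤ)
        · refine inj_of_pos pos m p j _ (by omega) ?_ ?_
          · rw [he.proj, if_pos ⟨rfl, rfl⟩]
          · rw [L_pow_e Le, hj, map_zero]
        · exact he.e_eq_zero_of_om hx h
      surj := fun j x hx => by
        have key : ∀ m q, ∃ y, om n e (-(j : ℤ)) y = y ∧ (L ^ j) y = e m q x := by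
          intro m q
          by_cases h : 2 * (q : ℤ) + m - n = (j : ℤ)
          · by_cases h2 : m + q ≤ n
            · obtain ⟨p, rfl⟩ : ∃ p, q = p + j := ⟨q - j, by omega⟩
              obtain ⟨y, hy, hy'⟩ := surj_of_pos he Le Be nondeg pos m p j (e m (p + j) x)
                (by omega) (by rw [he.proj, if_pos ⟨rfl, rfl⟩])
              refine ⟨y, ?_, hy'⟩
              rw [he.om_hom _ hy, if_pos (by push_cast at h; linarith)]
            · refine ⟨0, map_zero _, ?_⟩
              rw [map_zero, he.zero m q (by omega)]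
              rfl
          · exact ⟨0, map_zero _, by rw [map_zero, he.e_eq_zero_of_om hx h]⟩
        choose y hy hy' using key
        refine ⟨∑ m ∈ range (n + 1), ∑ p ∈ range (n + 1), y m p, ?_, ?_⟩
        · simp only [map_sum, hy]
        · simp only [map_sum, hy']
          exact he.sum x }
  εε := fun x => by
    revert x
    refine he.induction ?_ ?_ ?_
    · simp
    · intro x y hx hy
      simp only [map_add, hx, hy]
    · intro m p x _ hx
      rw [he.eps_hom hx, map_smul, he.eps_hom hx, smul_smul, ← mul_pow]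
      norm_num
  εω := fun b x => by
    revert x
    refine he.induction ?_ ?_ ?_
    · simp
    · intro x y hx hy
      simp only [map_add, hx, hy]
    · intro m p x _ hx
      rw [he.eps_hom hx, map_smul, he.om_hom b hx]
      split_ifs
      · exact he.eps_hom hx
      · rw [map_zero, smul_zero]
  εL := fun x => by
    revert x
    refine he.induction ?_ ?_ ?_
    · simp
    · intro x y hx hy
      simp only [map_add, hx, hy, neg_add]
    · intro m p x _ hx
      rw [he.eps_hom hx, map_smul, he.eps_hom (L_hom Le hx), pow_succ, mul_neg_one, neg_smul]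
  symm := symm
  BL := BL
  Bω := fun b x y => by
    revert x
    refine he.induction ?_ ?_ ?_
    · simp
    · intro x x' hx hx'
      simp only [map_add, LinearMap.add_apply, hx, hx']
    · intro m p x _ hx
      revert y
      refine he.induction ?_ ?_ ?_
      · simp
      · intro y y' hy hy'
        simp only [map_add, hy, hy']
      · intro m' p' y _ hy
        rw [he.om_hom b hx, he.om_hom (-b) hy]
        by_cases h : m = m' ∧ m + p + p' = n
        · obtain ⟨rfl, h⟩ := h
          by_cases hb : 2 * (p : ℤ) + m - n = b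
          · rw [if_pos hb, if_pos (by omega)]
          · rw [if_neg hb, if_neg (by omega), map_zero, LinearMap.zero_apply, map_zero]
        · have h0 := he.B_hom Be hx hy h
          split_ifs <;> simp [h0]
  symmε := fun j x y hx hy => by
    have key : ∀ x y, B (eps n e (om n e (-(j : ℤ)) x)) ((L ^ j) (om n e (-(j : ℤ)) y)) =
        B (eps n e (om n e (-(j : ℤ)) y)) ((L ^ j) (om n e (-(j : ℤ)) x)) := by
      intro x y
      revert x
      refine he.induction ?_ ?_ ?_
      · simp
      · intro x x' hx hx'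
        simp only [map_add, LinearMap.add_apply, hx, hx']
      · intro m p x _ hx
        revert y
        refine he.induction ?_ ?_ ?_
        · simp
        · intro y y' hy hy'
          simp only [map_add, LinearMap.add_apply, hy, hy']
        · intro m' p' y _ hy
          rw [he.om_hom _ hx, he.om_hom _ hy]
          by_cases h1 : 2 * (p : ℤ) + m - n = -(j : ℤ)
          · by_cases h2 : 2 * (p' : ℤ) + m' - n = -(j : ℤ)
            · rw [if_pos h1, if_pos h2, he.eps_hom hx, he.eps_hom hy, map_smul, map_smul,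
                LinearMap.smul_apply, LinearMap.smul_apply]
              by_cases hm : m = m' ∧ m + p + (p' + j) = n
              · obtain ⟨rfl, hm⟩ := hm
                have : p = p' := by omega
                subst this
                rw [← B_pow BL, symm]
              · rw [he.B_hom Be hx (L_pow_hom Le hy j) hm,
                  he.B_hom Be hy (L_pow_hom Le hx j) (fun h => hm ⟨h.1.symm, by omega⟩)]
                simp
            · rw [if_neg h2]; simp
          · rw [if_neg h1]; simp
    have := key x y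
    rwa [hx, hy] at this
  pos := fun j u hu hu0 => by
    obtain ⟨hu1, hu2⟩ := hu
    -- expand
    have hexp : B (eps n e u) ((L ^ j) u) = ∑ m ∈ range (n + 1), ∑ p ∈ range (n + 1),
        (-1) ^ p * B (e m p u) ((L ^ j) (e m p u)) := by
      have h1 : ∀ m p, (-1) ^ p * B (e m p u) ((L ^ j) (e m p u)) =
          B (eps n e (e m p u)) ((L ^ j) u) := by
        intro m p
        have hx : e m p (e m p u) = e m p u := by rw [he.proj, if_pos ⟨rfl, rfl⟩]
        rw [he.eps_hom hx, map_smul, LinearMap.smul_apply, smul_eq_mul]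
        congr 1
        by_cases h : 2 * (p : ℤ) + m - n = -(j : ℤ)
        · rw [L_pow_e Le, ← Be m p (p + j) (e m p u) ((L ^ j) u) (by omega), hx]
        · rw [he.e_eq_zero_of_om hu1 h]
          simp
      simp only [h1]
      have h2 : eps n e u = ∑ m ∈ range (n + 1), ∑ p ∈ range (n + 1), eps n e (e m p u) := by
        conv_lhs => rw [← he.sum u]
        simp only [map_sum]
      rw [h2]
      simp only [map_sum, LinearMap.sum_apply]
    have hterm : ∀ m p, 0 ≤ (-1) ^ p * B (e m p u) ((L ^ j) (e m p u)) ∧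
        (e m p u ≠ 0 → 0 < (-1) ^ p * B (e m p u) ((L ^ j) (e m p u))) := by
      intro m p
      by_cases h0 : e m p u = 0
      · rw [h0]
        simp
      · have h : 2 * (p : ℤ) + m - n = -(j : ℤ) := by
          by_contra h
          exact h0 (he.e_eq_zero_of_om hu1 h)
        have h1 := pos m p j (e m p u) (by omega) (by rw [he.proj, if_pos ⟨rfl, rfl⟩])
          (by rw [L_pow_e Le, hu2, map_zero]) h0
        exact ⟨h1.le, fun _ => h1⟩
    rw [hexp]
    obtain ⟨m, hm, p, hp, hmp⟩ : ∃ m ∈ range (n + 1), ∃ p ∈ range (n + 1), e m p u ≠ 0 := by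
      by_contra hcon
      push Not at hcon
      apply hu0
      rw [← he.sum u]
      exact Finset.sum_eq_zero fun m hm => Finset.sum_eq_zero fun p hp => hcon m hm p hp
    refine Finset.sum_pos' (fun m _ => Finset.sum_nonneg fun p _ => (hterm m p).1) ⟨m, hm, ?_⟩
    exact Finset.sum_pos' (fun p _ => (hterm m p).1) ⟨p, hp, (hterm m p).2 hmp⟩


/-- The linear algebra theorem: a class of level `0` which is closed under `ρ`, and whose image
under `L ^ (j + 1)` is a boundary, is a boundary or satisfies the Hodge index inequality. -/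
theorem la_main' [FiniteDimensional ℚ A] (he : IsBigrading n e)
    (Le : ∀ m p x, L (e m p x) = e m (p + 1) (L x))
    (ρe : ∀ m p x, ρ (e m p x) = e (m + 1) p (ρ x)) 
    (δe : ∀ m p x, δ (e (m + 1) p x) = e m (p + 1) (δ x)) (δe0 : ∀ p x, δ (e 0 p x) = 0)
    (symm : ∀ x y, B x y = B y x) (BL : ∀ x y, B (L x) y = B x (L y))
    (Be : ∀ m p q x y, m + p + q = n → B (e m p x) y = B x (e m q y))
    (Bρ : ∀ x y, B (ρ x) y = B x (δ y))
    (Lρ : ∀ x, L (ρ x) = ρ (L x))
    (ρρ : ∀ x, ρ (ρ x) = 0) (ρδ : ∀ x, (∀ p, e 0 p x = 0) → ρ (δ x) + δ (ρ x) = 0)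
    (nondeg : ∀ x, (∀ y, B x y = 0) → x = 0)
    (pos : ∀ m p j x, m + 2 * p + j = n → e m p x = x → (L ^ (j + 1)) x = 0 → x ≠ 0 →
      0 < (-1) ^ p * B x ((L ^ j) x))
    (p j : ℕ) (hpj : 2 * p + j = n) (v ξ : A) (hv : e 0 p v = v) (hvρ : ρ v = 0)
    (hξ : ∀ m q, Even m → e m q ξ = 0) (hvL : (L ^ (j + 1)) v = ρ ξ + δ ξ) :
    (∃ ξ' : A, (∀ m q, Even m → e m q ξ' = 0) ∧ ρ ξ' + δ ξ' = v) ∨
      0 < (-1) ^ p * B v ((L ^ j) v) := by
  have hP := isPolarized he Le symm BL Be nondeg pos
  obtain ⟨Λ, g, gsymm, gpos, Λω, hLΛ, hcomm, hadj⟩ := package hP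
  -- shifts
  have hρ : ∀ {m p x}, e m p x = x → e (m + 1) p (ρ x) = ρ x := by
    intro m p x hx; rw [← ρe, hx]
  have hδ : ∀ {m p x}, e (m + 1) p x = x → e m (p + 1) (δ x) = δ x := by
    intro m p x hx; rw [← δe, hx]
  have hδ0 : ∀ {p x}, e 0 p x = x → δ x = 0 := by
    intro p x hx; rw [← hx, δe0]
  have Bδ : ∀ x y, B (δ x) y = B x (ρ y) := by
    intro x y; rw [symm, ← Bρ, symm]
  have ext' : ∀ x y, (∀ z, B x z = B y z) → x = y := by
    intro x y h
    refine sub_eq_zero.mp (nondeg _ fun z => ?_)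
    rw [map_sub, LinearMap.sub_apply, h, sub_self]
  have δδ : ∀ x, δ (δ x) = 0 := by
    intro x
    refine nondeg _ fun y => ?_
    rw [Bδ, Bδ, ρρ, map_zero]
  have Lδ : ∀ x, L (δ x) = δ (L x) := by
    intro x
    refine ext' _ _ fun z => ?_
    rw [BL, Bδ, ← Lρ, ← BL, Bδ]
  have hL : ∀ {m p x}, e m p x = x → e m (p + 1) (L x) = L x := fun hx => L_hom Le hx
  have hee : ∀ m p x, e m p (e m p x) = e m p x := by
    intro m p x; rw [he.proj, if_pos ⟨rfl, rfl⟩]
  -- commutation with the weight operator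
  have Hshift : ∀ (T : A →ₗ[ℚ] A) (c : ℚ), (∀ m p x, m + p ≤ n → e m p x = x → T x = 0 ∨
      ∃ m' p', e m' p' (T x) = T x ∧ (2 * (p' : ℚ) + m' - n) = (2 * (p : ℚ) + m - n) + c) →
      ∀ x, hop n e (T x) - T (hop n e x) = c • T x := by
    intro T c h x
    have := he.ext ((hop n e).comp T) (T.comp (hop n e) + c • T) ?_ x
    · simp only [LinearMap.comp_apply, LinearMap.add_apply, LinearMap.smul_apply] at this
      rw [this, add_sub_cancel_left]
    · intro m p y hmp hy
      simp only [LinearMap.comp_apply, LinearMap.add_apply, LinearMap.smul_apply]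
      obtain h0 | ⟨m', p', h1, h2⟩ := h m p y hmp hy
      · rw [he.hop_hom hy, map_smul, h0]; simp
      · rw [he.hop_hom hy, map_smul, he.hop_hom h1, h2, add_smul]
  have Hρ : ∀ x, hop n e (ρ x) - ρ (hop n e x) = ρ x := by
    intro x
    rw [Hshift ρ 1 (fun m p y _ hy => Or.inr ⟨m + 1, p, hρ hy, by push_cast; ring⟩), one_smul]
  have Hδ : ∀ x, hop n e (δ x) - δ (hop n e x) = δ x := by
    intro x
    rw [Hshift δ 1 ?_, one_smul]
    intro m p y _ hy
    rcases m with _ | m
    · exact Or.inl (hδ0 hy)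
    · exact Or.inr ⟨m, p + 1, hδ hy, by push_cast; ring⟩
  have HL : ∀ x, hop n e (L x) - L (hop n e x) = (2 : ℚ) • L x := by
    intro x
    rw [Hshift L 2 (fun m p y _ hy => Or.inr ⟨m, p + 1, hL hy, by push_cast; ring⟩)]
  -- weight vectors
  have Hom : ∀ b x, om n e b x = x → hop n e x = (b : ℚ) • x := by
    intro b x hx
    have key : ∀ y, hop n e (om n e b y) = (b : ℚ) • om n e b y := by
      intro y
      refine he.ext ((hop n e).comp (om n e b)) ((b : ℚ) • om n e b) ?_ y
      intro m p y _ hy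
      rw [LinearMap.comp_apply, LinearMap.smul_apply, he.om_hom b hy]
      split_ifs with h
      · rw [he.hop_hom hy, ← h]; push_cast; rfl
      · simp
    rw [← hx, key]
  have omhom : ∀ {m p x}, e m p x = x → om n e (2 * (p : ℤ) + m - n) x = x := by
    intro m p x hx
    rw [he.om_hom _ hx, if_pos rfl]
  have HΛ : ∀ x, hop n e (Λ x) - Λ (hop n e x) = (-2 : ℚ) • Λ x := by
    intro x
    have := he.ext ((hop n e).comp Λ) (Λ.comp (hop n e) + (-2 : ℚ) • Λ) ?_ x
    · simp only [LinearMap.comp_apply, LinearMap.add_apply, LinearMap.smul_apply] at this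
      rw [this, add_sub_cancel_left]
    · intro m p y hmp hy
      simp only [LinearMap.comp_apply, LinearMap.add_apply, LinearMap.smul_apply]
      have h1 : om n e (2 * (p : ℤ) + m - n - 2) (Λ y) = Λ y := by
        rw [← Λω, omhom hy]
      rw [Hom _ _ h1, he.hop_hom hy, map_smul, ← add_smul]
      congr 1
      push_cast
      ring
  have LΛ : ∀ x, L (Λ x) - Λ (L x) = hop n e x := by
    intro x
    have := he.ext (L.comp Λ - Λ.comp L) (hop n e) ?_ x
    · exact this
    · intro m p y hmp hy
      simp only [LinearMap.comp_apply, LinearMap.sub_apply]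
      rw [hLΛ _ y (omhom hy), he.hop_hom hy]
      congr 1
      push_cast
      ring
  -- levels
  have lvhom : ∀ {m p x}, e m p x = x → lv n e m x = x := by
    intro m p x hx; rw [he.lv_hom _ hx, if_pos rfl]
  have lvL : ∀ k x, lv n e k (L x) = L (lv n e k x) := by
    intro k x
    exact (he.wt_shift L _ _ (fun m p y _ hy => Or.inr ⟨m, p + 1, hL hy, rfl⟩) x).symm
  have lvω : ∀ k b x, lv n e k (om n e b x) = om n e b (lv n e k x) := by
    intro k b x
    refine (he.wt_shift (om n e b) _ _ (fun m p y _ hy => ?_) x).symm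
    rw [he.om_hom b hy]
    by_cases h : 2 * (p : ℤ) + m - n = b
    · rw [if_pos h]
      exact Or.inr ⟨m, p, hy, rfl⟩
    · rw [if_neg h]
      exact Or.inl rfl
  have lvε : ∀ k x, lv n e k (eps n e x) = eps n e (lv n e k x) := by
    intro k x
    refine (he.wt_shift (eps n e) _ _ (fun m p y _ hy => ?_) x).symm
    rw [he.eps_hom hy]
    exact Or.inr ⟨m, p, by rw [map_smul, hy], rfl⟩
  have lvB : ∀ k x y, B (lv n e k x) y = B x (lv n e k y) := by
    intro k x y
    have h1 : ∀ y, ∀ x, (B.flip y).comp (lv n e k) x = B.flip (lv n e k y) x := by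
      intro y
      refine he.ext _ _ ?_
      intro m p x _ hx
      have := he.ext ((B x).comp (lv n e k)) (B (lv n e k x)) ?_ y
      · exact this.symm
      · intro m' p' y _ hy
        rw [LinearMap.comp_apply, he.lv_hom k hx, he.lv_hom k hy]
        by_cases h : m = m'
        · subst h
          split_ifs <;> simp
        · rw [show B (if m = k then x else 0) y = 0 by
            split_ifs
            · exact he.B_hom Be hx hy (fun h' => h h'.1)
            · simp]
          split_ifs
          · exact he.B_hom Be hx hy (fun h' => h h'.1)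
          · simp
    exact h1 y x
  have Tlv := fun k => hcomm (lv n e k) (fun x => lvL k x) (fun b x => lvω k b x)
  have lvΛ : ∀ k x, lv n e k (Λ x) = Λ (lv n e k x) := fun k => (Tlv k).1
  have lvg : ∀ k x y, g (lv n e k x) y = g x (lv n e k y) :=
    fun k => (Tlv k).2 (lvε k) (lvB k)
  have lvproj : ∀ m m' x, lv n e m (lv n e m' x) = if m = m' then lv n e m' x else 0 := by
    intro m m' x
    revert x
    refine he.induction ?_ ?_ ?_
    · simp
    · intro x y hx hy
      simp only [map_add, hx, hy]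
      split_ifs <;> simp
    · intro k p x _ hx
      rw [he.lv_hom m' hx]
      by_cases h' : k = m'
      · rw [if_pos h', he.lv_hom m hx]
        by_cases hb : m = m'
        · rw [if_pos hb, if_pos (h'.trans hb.symm)]
        · rw [if_neg hb, if_neg (fun h => hb (h.symm.trans h'))]
      · rw [if_neg h', map_zero, ite_self]
  have lvsum : ∀ x, ∑ m ∈ range (n + 1), lv n e m x = x := by
    refine he.induction ?_ ?_ ?_
    · simp
    · intro x y hx hy
      simp only [map_add, Finset.sum_add_distrib, hx, hy]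
    · intro m p x hmp hx
      rw [Finset.sum_congr rfl (fun b _ => he.lv_hom b hx), Finset.sum_ite_eq, if_pos]
      rw [Finset.mem_range]
      omega
  have lvH : ∀ k x, hop n e (lv n e k x) = lv n e k (hop n e x) := by
    intro k x
    refine he.wt_shift (hop n e) _ _ (fun m p y _ hy => ?_) x
    rw [he.hop_hom hy]
    exact Or.inr ⟨m, p, by rw [map_smul, hy], rfl⟩
  have ρlv : ∀ m x, ρ (lv n e m x) = lv n e (m + 1) (ρ x) := by
    intro k x
    refine he.wt_shift ρ _ _ (fun m p y _ hy => Or.inr ⟨m + 1, p, hρ hy, ?_⟩) x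
    simp
  have ρlv0 : ∀ x, lv n e 0 (ρ x) = 0 := by
    intro x
    refine he.ext ((lv n e 0).comp ρ) 0 (fun m p y _ hy => ?_) x
    rw [LinearMap.comp_apply, he.lv_hom 0 (hρ hy), if_neg (by omega), LinearMap.zero_apply]
  have δlv : ∀ m x, δ (lv n e (m + 1) x) = lv n e m (δ x) := by
    intro k x
    refine he.wt_shift δ _ _ (fun m p y _ hy => ?_) x
    rcases m with _ | m
    · exact Or.inl (hδ0 hy)
    · exact Or.inr ⟨m, p + 1, hδ hy, by simp⟩
  have δlv0 : ∀ x, δ (lv n e 0 x) = 0 := by
    intro x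
    refine he.ext (δ.comp (lv n e 0)) 0 (fun m p y _ hy => ?_) x
    rw [LinearMap.comp_apply, he.lv_hom 0 hy]
    split_ifs with h
    · subst h
      rw [hδ0 hy, LinearMap.zero_apply]
    · rw [map_zero, LinearMap.zero_apply]
  have lv_e : ∀ k m p x, e m p (lv n e k x) = if m = k then e m p x else 0 := by
    intro k m p x
    revert x
    refine he.induction ?_ ?_ ?_
    · simp
    · intro x y hx hy
      simp only [map_add, hx, hy]
      split_ifs <;> simp
    · intro m' p' y _ hy
      rw [he.lv_hom k hy]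
      by_cases h1 : m' = k
      · rw [if_pos h1, he.e_hom hy]
        by_cases h2 : m = k
        · rw [if_pos h2]
        · rw [if_neg h2, if_neg (fun h => h2 (h.1.trans h1))]
      · rw [if_neg h1, map_zero, he.e_hom hy]
        split_ifs with h2 h3
        · exact absurd (h3.1.symm.trans h2) h1
        · rfl
        · rfl
  have adjρ : ∀ x y, g (ρ x) y = g x (Λ (δ y) - δ (Λ y)) := by
    intro x y
    have := hadj ρ δ 1 (fun x => (Lρ x).symm) (fun x => (Lδ x).symm) ?_ ?_ Bρ ?_ x y
    · rw [this, one_mul]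
    · intro b x
      refine he.wt_shift ρ _ _ (fun m p y _ hy => Or.inr ⟨m + 1, p, hρ hy, ?_⟩) x
      have : (2 * (p : ℤ) + ((m + 1 : ℕ) : ℤ) - n = b + 1) ↔ (2 * (p : ℤ) + m - n = b) := by
        push_cast; constructor <;> intro h <;> linarith
      simp only [this]
    · intro b x
      refine he.wt_shift δ _ _ (fun m p y _ hy => ?_) x
      rcases m with _ | m
      · exact Or.inl (hδ0 hy)
      · refine Or.inr ⟨m, p + 1, hδ hy, ?_⟩
        have : (2 * ((p + 1 : ℕ) : ℤ) + m - n = b + 1) ↔
            (2 * (p : ℤ) + ((m + 1 : ℕ) : ℤ) - n = b) := by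
          push_cast; constructor <;> intro h <;> linarith
        simp only [this]
    · intro x
      rw [one_smul]
      exact (he.wt_shift ρ _ _ (fun m p y _ hy => Or.inr ⟨m + 1, p, hρ hy, rfl⟩) x).symm
  have adjδ : ∀ x y, g (δ x) y = - g x (Λ (ρ y) - ρ (Λ y)) := by
    intro x y
    have := hadj δ ρ (-1) (fun x => (Lδ x).symm) (fun x => (Lρ x).symm) ?_ ?_ Bδ ?_ x y
    · rw [this, neg_one_mul]
    · intro b x
      refine he.wt_shift δ _ _ (fun m p y _ hy => ?_) x
      rcases m with _ | m
      · exact Or.inl (hδ0 hy)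
      · refine Or.inr ⟨m, p + 1, hδ hy, ?_⟩
        have : (2 * ((p + 1 : ℕ) : ℤ) + m - n = b + 1) ↔
            (2 * (p : ℤ) + ((m + 1 : ℕ) : ℤ) - n = b) := by
          push_cast; constructor <;> intro h <;> linarith
        simp only [this]
    · intro b x
      refine he.wt_shift ρ _ _ (fun m p y _ hy => Or.inr ⟨m + 1, p, hρ hy, ?_⟩) x
      have : (2 * (p : ℤ) + ((m + 1 : ℕ) : ℤ) - n = b + 1) ↔ (2 * (p : ℤ) + m - n = b) := by
        push_cast; constructor <;> intro h <;> linarith
      simp only [this]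
    · intro x
      refine he.ext ((eps n e).comp δ) ((-1 : ℚ) • δ.comp (eps n e)) (fun m p y _ hy => ?_) x
      rw [LinearMap.comp_apply, LinearMap.smul_apply, LinearMap.comp_apply, he.eps_hom hy,
        map_smul]
      rcases m with _ | m
      · rw [hδ0 hy]; simp
      · rw [he.eps_hom (hδ hy), pow_succ, smul_smul]
        congr 1
        ring
  -- the complex
  have hv0 : lv n e 0 v = v := lvhom hv
  have hvH : hop n e v = (-(j : ℚ)) • v := by
    rw [he.hop_hom hv]
    congr 1
    rw [← hpj]
    push_cast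
    ring
  have hξ' : ∀ m, Even m → lv n e m ξ = 0 := by
    intro m hm
    rw [← he.sum (lv n e m ξ)]
    refine Finset.sum_eq_zero fun m' _ => Finset.sum_eq_zero fun q _ => ?_
    rw [lv_e]
    split_ifs with h
    · rw [h]; exact hξ m q hm
    · rfl
  have hρδ : ∀ x, lv n e 0 x = 0 → ρ (δ x) + δ (ρ x) = 0 := by
    intro x hx
    refine ρδ x fun p => ?_
    have := lv_e 0 0 p x
    rw [if_pos rfl, hx, map_zero] at this
    exact this.symm
  obtain ⟨v', ξ', hv'0, hv'ρ, hv'H, hv'L, hξ'', hvv'⟩ := complex_step n (lv n e) L Λ (hop n e) ρ δ g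
    lvproj lvsum gsymm gpos lvg (fun m x => (lvL m x).symm) (fun m x => (lvΛ m x).symm) 
    lvH ρlv ρlv0 δlv δlv0 Lρ Lδ LΛ HL HΛ Hρ Hδ adjρ adjδ ρρ δδ
    hρδ v ξ (-(j : ℚ)) (j + 1) hv0 hvρ hvH hξ' hvL
  -- the harmonic representative is homogeneous
  have hv' : e 0 p v' = v' := by
    have h1 : ∀ q, q ≠ p → e 0 q v' = 0 := by
      intro q hq
      have h2 : e 0 q (hop n e v') = (2 * (q : ℚ) - n) • e 0 q v' := by
        refine he.ext ((e 0 q).comp (hop n e)) ((2 * (q : ℚ) - n) • e 0 q) (fun m r y _ hy => ?_) v'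
        rw [LinearMap.comp_apply, LinearMap.smul_apply, he.hop_hom hy, map_smul, he.e_hom hy]
        split_ifs with h
        · obtain ⟨rfl, rfl⟩ := h
          congr 1
          push_cast
          ring
        · simp
      rw [hv'H, map_smul] at h2
      have h3 : (2 * (q : ℚ) - 2 * p) • e 0 q v' = 0 := by
        have : (2 * (q : ℚ) - n) • e 0 q v' - (-(j : ℚ)) • e 0 q v' = 0 := by rw [h2, sub_self]
        rw [← sub_smul] at this
        convert this using 2
        rw [← hpj]
        push_cast
        ring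
      rcases smul_eq_zero.mp h3 with h4 | h4
      · exfalso
        apply hq
        have : (q : ℚ) = p := by linarith
        exact_mod_cast this
      · exact h4
    have h5 := he.sum v'
    rw [Finset.sum_eq_single 0, Finset.sum_eq_single p] at h5
    · exact h5
    · intro q _ hq
      exact h1 q hq
    · intro h
      exact absurd (Finset.mem_range.mpr (by omega)) h
    · intro m _ hm
      refine Finset.sum_eq_zero fun q _ => ?_
      rw [← hv'0, lv_e, if_neg hm]
    · intro h
      exact absurd (Finset.mem_range.mpr (by omega)) h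
  by_cases h0 : v' = 0
  · left
    refine ⟨ξ', ?_, ?_⟩
    · intro m q hm
      have := lv_e m m q ξ'
      rw [if_pos rfl, hξ'' m hm, map_zero] at this
      exact this.symm
    · rw [hvv', h0, zero_add]
  · right
    have hLv : ∀ y, e 0 p y = y → ρ y = 0 → B (ρ ξ' + δ ξ') ((L ^ j) y) = 0 := by
      intro y hy hρy
      have h1 : δ ((L ^ j) y) = 0 := hδ0 (L_pow_hom Le hy j)
      have h2 : ρ ((L ^ j) y) = 0 := by
        have : ∀ i, ρ ((L ^ i) y) = (L ^ i) (ρ y) := by
          intro i
          induction i with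
          | zero => rfl
          | succ i ih => rw [pow_succ', Module.End.mul_apply, ← Lρ, ih, Module.End.mul_apply]
        rw [this, hρy, map_zero]
      rw [map_add, LinearMap.add_apply, Bρ, Bδ, h1, h2, map_zero, add_zero]
    have h1 := pos 0 p j v' (by omega) hv' hv'L h0
    have h2 : B v ((L ^ j) v) = B v' ((L ^ j) v') := by
      have h3 : B v ((L ^ j) v) = B v' ((L ^ j) v) := by
        conv_lhs => rw [hvv']
        rw [map_add B, LinearMap.add_apply, ← hvv', hLv v hv hvρ, add_zero]
      rw [h3]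
      conv_lhs => rw [hvv']
      rw [map_add, map_add, ← B_pow BL j v' (ρ ξ' + δ ξ'), symm ((L ^ j) v') _, hLv v' hv' hv'ρ,
        add_zero]
    rw [h2]
    exact h1

end Main

end Pool.Agent.Helper10.HD
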