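import Mathlib
import Pool.Agent.Helper10.HD.Family
import Pool.Agent.Helper10.HD.Main

/-!
# Hodge type, Lefschetz type and conjecture D in terms of the rational vector space
-/

universe u v w

open CategoryTheory TensorProduct

namespace Pool.Agent.Helper10.HD

open SmProjVar Degen Finset

/-- a retraction of the field of coefficients to the rational numbers -/
lemma exists_retr (K : Type v) [Field K] [CharZero K] :
    ∃ f : K →ₗ[ℚ] ℚ, ∀ q : ℚ, f (algebraMap ℚ K q) = q := by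
  obtain ⟨f, hf⟩ := LinearMap.exists_leftInverse_of_injective (Algebra.linearMap ℚ K)
    (LinearMap.ker_eq_bot.mpr (algebraMap ℚ K).injective)
  exact ⟨f, fun q => LinearMap.congr_fun hf q⟩

section

variable {k : Type u} [Field k] {K : Type v} [Field K] [CharZero K]
  {W : WeilCohomology.{u, v, w} k K}

attribute [local instance] ratModule

variable {N : ℕ} {U : Fin N → SmProjVar k} {lev : Fin N → ℕ} (h : ∀ s, (U s).Z 1)

/-- restriction of an operator to the rational space -/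
noncomputable def res {T : (∀ s, W.H (U s)) →ₗ[K] ∀ s, W.H (U s)}
    (hT : ∀ x ∈ Aq W U lev, T x ∈ Aq W U lev) : Aq W U lev →ₗ[ℚ] Aq W U lev :=
  (T.restrictScalars ℚ).restrict hT

lemma res_coe {T : (∀ s, W.H (U s)) →ₗ[K] ∀ s, W.H (U s)}
    (hT : ∀ x ∈ Aq W U lev, T x ∈ Aq W U lev) (x : Aq W U lev) :
    ((res hT x : Aq W U lev) : ∀ s, W.H (U s)) = T x := rfl

variable (W U lev)

/-- the projections -/
noncomputable def eA (m p : ℕ) : Aq W U lev →ₗ[ℚ] Aq W U lev :=
  res (T := E W U lev m p) fun _ hx => E_mem hx m p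

/-- multiplication by the divisors -/
noncomputable def LA : Aq W U lev →ₗ[ℚ] Aq W U lev :=
  res (T := Lop W U h) fun _ hx => Lop_mem h hx

/-- the pairing composed with a linear form -/
noncomputable def BV (f : K →ₗ[ℚ] ℚ) :
    (∀ s, W.H (U s)) →ₗ[ℚ] (∀ s, W.H (U s)) →ₗ[ℚ] ℚ :=
  LinearMap.mk₂ ℚ (fun x y => f (BK W U x y))
    (fun x x' y => by rw [map_add, LinearMap.add_apply, map_add])
    (fun q x y => by
      have : q • x = (algebraMap ℚ K q) • x := rfl
      rw [this, map_smul, LinearMap.smul_apply, smul_eq_mul, ← Algebra.smul_def, map_smul])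
    (fun x y y' => by rw [map_add, map_add])
    (fun q x y => by
      have : q • y = (algebraMap ℚ K q) • y := rfl
      rw [this, map_smul, smul_eq_mul, ← Algebra.smul_def, map_smul])

/-- the pairing -/
noncomputable def BA (f : K →ₗ[ℚ] ℚ) : Aq W U lev →ₗ[ℚ] Aq W U lev →ₗ[ℚ] ℚ :=
  (BV W U f).domRestrict₁₂ (Aq W U lev) (Aq W U lev)

variable {W U lev}

lemma BA_apply (f : K →ₗ[ℚ] ℚ) (x y : Aq W U lev) :
    BA W U lev f x y = f (BK W U (x : ∀ s, W.H (U s)) (y : ∀ s, W.H (U s))) := rfl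

lemma BA_spec {f : K →ₗ[ℚ] ℚ} (hf : ∀ q : ℚ, f (algebraMap ℚ K q) = q) (x y : Aq W U lev) :
    algebraMap ℚ K (BA W U lev f x y) =
      BK W U (x : ∀ s, W.H (U s)) (y : ∀ s, W.H (U s)) := by
  obtain ⟨q, hq⟩ := BK_rat x.2 y.2
  rw [BA_apply, hq, hf]

lemma LA_pow_coe (j : ℕ) (x : Aq W U lev) :
    (((LA W U lev h ^ j) x : Aq W U lev) : ∀ s, W.H (U s)) = (Lop W U h ^ j) x := by
  induction j with
  | zero => rfl
  | succ j ih =>
    rw [pow_succ', Module.End.mul_apply, pow_succ', Module.End.mul_apply, ← ih]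
    rfl

theorem isBigrading {n : ℕ} (hn : ∀ s, lev s + (U s).dim = n) :
    IsBigrading n (eA W U lev) where
  proj := fun m p m' p' x => by
    refine Subtype.ext ?_
    have : ((eA W U lev m p (eA W U lev m' p' x) : Aq W U lev) : ∀ s, W.H (U s)) =
        E W U lev m p (E W U lev m' p' x) := rfl
    rw [this, E_E]
    split_ifs <;> rfl
  zero := fun m p hmp => by
    ext1 x
    exact Subtype.ext (E_zero hn hmp _)
  sum := fun x => by
    refine Subtype.ext ?_
    have := E_sum hn x.2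
    refine Eq.trans ?_ this
    simp only [AddSubmonoidClass.coe_finsetSum]
    rfl

lemma LA_eA (m p : ℕ) (x : Aq W U lev) :
    LA W U lev h (eA W U lev m p x) = eA W U lev m (p + 1) (LA W U lev h x) := by
  refine Subtype.ext ?_
  change Lop W U h (E W U lev m p x) = E W U lev m (p + 1) (Lop W U h x)
  obtain ⟨x, hx⟩ := x
  change Lop W U h (E W U lev m p x) = E W U lev m (p + 1) (Lop W U h x)
  refine Aq_induction (P := fun x => Lop W U h (E W U lev m p x) =
    E W U lev m (p + 1) (Lop W U h x)) ?_ ?_ hx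
  · intro m' p' x hx
    rw [E_G hx, E_G (Lop_G h hx)]
    by_cases h1 : m = m' ∧ p = p'
    · rw [if_pos h1, if_pos ⟨h1.1, by rw [h1.2]⟩]
    · rw [if_neg h1, if_neg (fun h2 => h1 ⟨h2.1, by omega⟩), map_zero]
  · intro a b ha hb
    rw [map_add, map_add, ha, hb, map_add, map_add]

lemma BA_symm (f : K →ₗ[ℚ] ℚ) (x y : Aq W U lev) : BA W U lev f x y = BA W U lev f y x := by
  rw [BA_apply, BA_apply, BK_comm x.2]

lemma BA_LA (f : K →ₗ[ℚ] ℚ) (x y : Aq W U lev) :
    BA W U lev f (LA W U lev h x) y = BA W U lev f x (LA W U lev h y) := by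
  rw [BA_apply, BA_apply]
  exact congrArg f (BK_Lop h _ _)

lemma BA_eA (f : K →ₗ[ℚ] ℚ) {n : ℕ} (hn : ∀ s, lev s + (U s).dim = n) (m p q : ℕ)
    (x y : Aq W U lev) (hmpq : m + p + q = n) :
    BA W U lev f (eA W U lev m p x) y = BA W U lev f x (eA W U lev m q y) := by
  rw [BA_apply, BA_apply]
  exact congrArg f (BK_E hn hmpq x.2 y.2)

/-- conjecture D gives the non-degeneracy of the pairing -/
theorem BA_nondeg {f : K →ₗ[ℚ] ℚ} (hf : ∀ q : ℚ, f (algebraMap ℚ K q) = q)
    (hD : ∀ s, W.StandardD (U s)) (x : Aq W U lev) (hx : ∀ y, BA W U lev f x y = 0) :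
    x = 0 := by
  refine Subtype.ext (funext fun s => ?_)
  refine eq_zero_of_standardD (hD s) (Aq_apply_mem x.2 s) fun y hy => ?_
  unfold CohomologyData.algClasses at hy
  induction hy using Submodule.span_induction with
  | mem y hy =>
    obtain ⟨j, c, rfl⟩ := hy
    have hm : Pi.single s (W.cy (U s) j c) ∈ Aq W U lev :=
      G_le_Aq W U lev _ _ (single_mem_G c)
    have h1 := BA_spec hf x ⟨_, hm⟩
    rw [hx, map_zero, BK_single'] at h1
    exact h1.symm
  | zero => rw [mul_zero, map_zero]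
  | add a b _ _ ha hb => rw [mul_add, map_add, ha, hb, add_zero]
  | smul a b _ hb => rw [mul_smul_comm, map_smul, hb, smul_zero]

theorem Aq_finite {f : K →ₗ[ℚ] ℚ} (hf : ∀ q : ℚ, f (algebraMap ℚ K q) = q)
    (hnd : ∀ x : Aq W U lev, (∀ y, BA W U lev f x y = 0) → x = 0) :
    FiniteDimensional ℚ (Aq W U lev) := by
  have hfin : ∀ s, Module.Finite K (W.H (U s)) := fun s => finite_H W (U s)
  have hfin' : Module.Finite K (∀ s, W.H (U s)) := Module.Finite.pi
  have hfg : (Submodule.span K ((Aq W U lev : Submodule ℚ _) : Set (∀ s, W.H (U s)))).FG :=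
    IsNoetherian.noetherian _
  obtain ⟨T, hT, hspan⟩ := Submodule.fg_span_iff_fg_span_finset_subset _ |>.mp hfg
  let Φ : Aq W U lev →ₗ[ℚ] (T → ℚ) := LinearMap.pi fun w =>
    (BA W U lev f).flip ⟨w.1, hT w.2⟩
  refine Module.Finite.of_injective Φ ?_
  rw [← LinearMap.ker_eq_bot, LinearMap.ker_eq_bot']
  intro x hx
  refine hnd x fun y => ?_
  have h1 : ∀ w ∈ T, BK W U (x : ∀ s, W.H (U s)) w = 0 := by
    intro w hw
    have h2 : BA W U lev f x ⟨w, hT hw⟩ = 0 := congrFun hx ⟨w, hw⟩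
    have h3 := BA_spec hf x ⟨w, hT hw⟩
    rw [h2, map_zero] at h3
    exact h3.symm
  have h4 : ∀ w ∈ Submodule.span K (T : Set (∀ s, W.H (U s))),
      BK W U (x : ∀ s, W.H (U s)) w = 0 := by
    intro w hw
    induction hw using Submodule.span_induction with
    | mem w hw => exact h1 w hw
    | zero => rw [map_zero]
    | add a b _ _ ha hb => rw [map_add, ha, hb, add_zero]
    | smul a b _ hb => rw [map_smul, hb, smul_zero]
  have h5 : (y : ∀ s, W.H (U s)) ∈ Submodule.span K (T : Set (∀ s, W.H (U s))) := by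
    rw [← hspan]
    exact Submodule.subset_span y.2
  rw [BA_apply, h4 _ h5, map_zero]

/-- a homogeneous algebraic class, at one member of the family -/
lemma G_apply_mem {m p : ℕ} {x : ∀ s, W.H (U s)} (hx : x ∈ G W U lev m p) (s : Fin N) :
    x s ∈ Submodule.span ℚ {y | ∃ c : (U s).Z p, y = W.cy (U s) p c} := by
  refine G_induction (P := fun x => x s ∈ Submodule.span ℚ
    {y | ∃ c : (U s).Z p, y = W.cy (U s) p c}) ?_ ?_ ?_ ?_ hx
  · intro t _ c
    by_cases hts : s = t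
    · subst hts
      rw [Pi.single_eq_same]
      exact Submodule.subset_span ⟨c, rfl⟩
    · rw [Pi.single_eq_of_ne hts]
      exact zero_mem _
  · exact zero_mem _
  · intro x y hx hy
    exact add_mem hx hy
  · intro q x hx
    exact Submodule.smul_mem _ q hx

lemma G_apply_eq_zero {m p : ℕ} {x : ∀ s, W.H (U s)} (hx : x ∈ G W U lev m p) (s : Fin N)
    (hs : lev s ≠ m) : x s = 0 := by
  refine G_induction (P := fun x => x s = 0) ?_ ?_ ?_ ?_ hx
  · intro t ht c
    refine Pi.single_eq_of_ne ?_ _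
    rintro rfl
    exact hs ht
  · rfl
  · intro x y hx hy
    rw [Pi.add_apply, hx, hy, add_zero]
  · intro q x hx
    rw [Pi.smul_apply, hx, smul_zero]

lemma mem_G_of_eA {m p : ℕ} {x : Aq W U lev} (hx : eA W U lev m p x = x) :
    (x : ∀ s, W.H (U s)) ∈ G W U lev m p := by
  have h1 := E_mem_G x.2 m p
  have h2 : E W U lev m p (x : ∀ s, W.H (U s)) = x := congrArg Subtype.val hx
  rwa [h2] at h1

/-- the standard conjecture of Hodge type, for rational classes -/
lemma hodge_rat {X : SmProjVar k} {d : X.Z 1} (hH : W.HodgeTypeE X d) {p j : ℕ}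
    (hpj : 2 * p + j = X.dim) {x : W.H X}
    (hx : x ∈ Submodule.span ℚ {y | ∃ c : X.Z p, y = W.cy X p c})
    (hprim : W.cy X 1 d ^ (j + 1) * x = 0) :
    ∃ q : ℚ, 0 ≤ q ∧ (x ≠ 0 → 0 < q) ∧
      W.trL X (x * (W.cy X 1 d ^ j * x)) = algebraMap ℚ K ((-1) ^ p * q) := by
  by_cases hx0 : x = 0
  · refine ⟨0, le_rfl, fun h => absurd hx0 h, ?_⟩
    rw [hx0, zero_mul, map_zero, mul_zero, map_zero]
  obtain ⟨m, c, hm, hc⟩ := exists_multiple W hx
  have hmK : (algebraMap ℚ K (m : ℚ)) ≠ 0 := by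
    rw [map_natCast]
    exact_mod_cast hm.ne'
  have hc' : W.cy X p c = (algebraMap ℚ K (m : ℚ)) • x := hc.symm
  obtain ⟨i, hi, hi'⟩ := hH p j hpj c
    (by rw [hc', mul_smul_comm, hprim, smul_zero])
    (by rw [hc']; exact smul_ne_zero hmK hx0)
  refine ⟨(i : ℚ) / (m : ℚ) ^ 2, by positivity, fun _ => by positivity, ?_⟩
  have h1 : W.trL X (W.cy X p c * W.cy X 1 d ^ j * W.cy X p c) =
      (algebraMap ℚ K (m : ℚ)) ^ 2 * W.trL X (x * (W.cy X 1 d ^ j * x)) := by
    rw [hc', smul_mul_assoc, smul_mul_assoc, mul_smul_comm, map_smul, map_smul, smul_eq_mul,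
      smul_eq_mul, mul_assoc x]
    ring
  have h2 : (algebraMap ℚ K (m : ℚ)) ^ 2 * W.trL X (x * (W.cy X 1 d ^ j * x)) =
      (-1) ^ p * (i : K) := by
    rw [← h1]; exact hi'
  have h3 : W.trL X (x * (W.cy X 1 d ^ j * x)) = (-1) ^ p * (i : K) /
      (algebraMap ℚ K (m : ℚ)) ^ 2 := by
    rw [← h2, mul_div_cancel_left₀ _ (pow_ne_zero 2 hmK)]
  rw [h3]
  simp only [map_mul, map_pow, map_neg, map_one, map_div₀, map_natCast]
  ring

/-- the standard conjecture of Hodge type for all members of the family -/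
theorem BA_pos {f : K →ₗ[ℚ] ℚ} (hf : ∀ q : ℚ, f (algebraMap ℚ K q) = q) {n : ℕ}
    (hn : ∀ s, lev s + (U s).dim = n) (hH : ∀ s, W.HodgeTypeE (U s) (h s)) (m p j : ℕ)
    (x : Aq W U lev) (hmpj : m + 2 * p + j = n) (hx : eA W U lev m p x = x)
    (hL : (LA W U lev h ^ (j + 1)) x = 0) (hx0 : x ≠ 0) :
    0 < (-1) ^ p * BA W U lev f x ((LA W U lev h ^ j) x) := by
  have hG := mem_G_of_eA hx
  have hprim : ∀ s, W.cy (U s) 1 (h s) ^ (j + 1) * (x : ∀ s, W.H (U s)) s = 0 := by
    intro s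
    have h1 := congrArg Subtype.val hL
    rw [LA_pow_coe] at h1
    have h2 := congrFun h1 s
    rw [Lop_pow_apply] at h2
    exact h2
  have hterm : ∀ s, ∃ q : ℚ, 0 ≤ q ∧ ((x : ∀ s, W.H (U s)) s ≠ 0 → 0 < q) ∧
      W.trL (U s) ((x : ∀ s, W.H (U s)) s * (W.cy (U s) 1 (h s) ^ j *
        (x : ∀ s, W.H (U s)) s)) = algebraMap ℚ K ((-1) ^ p * q) := by
    intro s
    by_cases hs : lev s = m
    · exact hodge_rat (hH s) (by have := hn s; omega) (G_apply_mem hG s) (hprim s)
    · have h0 := G_apply_eq_zero hG s hs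
      refine ⟨0, le_rfl, fun h => absurd h0 h, ?_⟩
      rw [h0, zero_mul, map_zero, mul_zero, map_zero]
  choose q hq0 hqpos hq using hterm
  have h1 : BA W U lev f x ((LA W U lev h ^ j) x) = (-1) ^ p * ∑ s, q s := by
    apply (algebraMap ℚ K).injective
    rw [BA_spec hf, LA_pow_coe, BK_apply, map_mul, map_sum, Finset.mul_sum]
    refine Finset.sum_congr rfl fun s _ => ?_
    rw [Lop_pow_apply, hq s, map_mul]
  rw [h1, ← mul_assoc, ← mul_pow]
  rw [show ((-1 : ℚ) * -1) ^ p = 1 by norm_num, one_mul]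
  obtain ⟨s, hs⟩ : ∃ s, (x : ∀ s, W.H (U s)) s ≠ 0 := by
    by_contra hcon
    push Not at hcon
    exact hx0 (Subtype.ext (funext hcon))
  exact Finset.sum_pos' (fun s _ => hq0 s) ⟨s, Finset.mem_univ s, hqpos s hs⟩

end

end Pool.Agent.Helper10.HD
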