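import Mathlib
import Pool.Agent.Helper10.HD.Positive

/-!
# Under the standard conjecture of Hodge type, the conjectures A and D are equivalent
-/

universe u v w

open CategoryTheory TensorProduct

namespace Pool.Agent.Helper10.HD

open SmProjVar Degen Finset

section Abstract

variable {A : Type*} [AddCommGroup A] [Module ℚ A] {n : ℕ} {e : ℕ → ℕ → A →ₗ[ℚ] A}
  {L : A →ₗ[ℚ] A} {B : A →ₗ[ℚ] A →ₗ[ℚ] ℚ}

/-- the pairing is non-degenerate if the Lefschetz operator is surjective -/
theorem nondeg_of_surj (he : IsBigrading n e)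
    (Le : ∀ m p x, L (e m p x) = e m (p + 1) (L x)) (BL : ∀ x y, B (L x) y = B x (L y))
    (Be : ∀ m p q x y, m + p + q = n → B (e m p x) y = B x (e m q y))
    (pos : ∀ m p j x, m + 2 * p + j = n → e m p x = x → (L ^ (j + 1)) x = 0 → x ≠ 0 →
      0 < (-1) ^ p * B x ((L ^ j) x))
    (surj : ∀ m p j x, m + 2 * p + j = n → e m (p + j) x = x →
      ∃ y, e m p y = y ∧ (L ^ j) y = x) (x : A) (hx : ∀ y, B x y = 0) : x = 0 := by
  have hee : ∀ m p x, e m p (e m p x) = e m p x := by
    intro m p x; rw [he.proj, if_pos ⟨rfl, rfl⟩]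
  -- the preimages are in the radical
  have key : ∀ m p j (x y : A), m + 2 * p + j = n → e m p y = y →
      (∀ u, e m p u = u → B ((L ^ j) y) u = 0) → ∀ z, B y z = 0 := by
    intro m p j x y hmpj hy hu z
    rw [← hy, Be m p (p + j) y z (by omega)]
    obtain ⟨u, hu1, hu2⟩ := surj m p j (e m (p + j) z) hmpj (hee _ _ _)
    rw [← hu2, ← B_pow BL]
    exact hu u hu1
  have step1 : ∀ p m j (x : A), m + 2 * p + j = n → e m p x = x → (∀ y, B x y = 0) → x = 0 := by
    intro p
    induction p with
    | zero =>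
      intro m j x hmpj hx hr
      by_contra h0
      have h1 : (L ^ (j + 1)) x = 0 := by
        rw [← L_pow_hom Le hx (j + 1), he.zero _ _ (by omega)]
        rfl
      have h2 := pos m 0 j x hmpj hx h1 h0
      rw [hr, mul_zero] at h2
      exact lt_irrefl _ h2
    | succ p ih =>
      intro m j x hmpj hx hr
      by_contra h0
      have h1 : (L ^ (j + 1)) x = 0 := by
        obtain ⟨y, hy, hy'⟩ := surj m p (j + 2) ((L ^ (j + 1)) x) (by omega) (by
          have := L_pow_hom Le hx (j + 1)
          rwa [show p + 1 + (j + 1) = p + (j + 2) by omega] at this)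
        have hy0 : y = 0 := by
          refine ih m (j + 2) y (by omega) hy (key m p (j + 2) x y (by omega) hy ?_)
          intro u _
          rw [hy', B_pow BL, hr]
        rw [← hy', hy0, map_zero]
      have h2 := pos m (p + 1) j x hmpj hx h1 h0
      rw [hr, mul_zero] at h2
      exact lt_irrefl _ h2
  have step2 : ∀ m p (x : A), m + p ≤ n → e m p x = x → (∀ y, B x y = 0) → x = 0 := by
    intro m q x hmq hx hr
    by_cases h : m + 2 * q ≤ n
    · exact step1 q m (n - (m + 2 * q)) x (by omega) hx hr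
    · obtain ⟨y, hy, hy'⟩ := surj m (n - m - q) (q - (n - m - q)) x (by omega) (by
        rwa [show n - m - q + (q - (n - m - q)) = q by omega])
      have hy0 : y = 0 := by
        refine step1 (n - m - q) m (q - (n - m - q)) y (by omega) hy
          (key m (n - m - q) (q - (n - m - q)) x y (by omega) hy ?_)
        intro u _
        rw [hy', hr]
      rw [← hy', hy0, map_zero]
  rw [← he.sum x]
  refine Finset.sum_eq_zero fun m _ => Finset.sum_eq_zero fun p _ => ?_
  by_cases hmp : m + p ≤ n
  · refine step2 m p _ hmp (hee m p x) fun y => ?_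
    rw [Be m p (n - m - p) x y (by omega), hx]
  · rw [he.zero m p (by omega)]
    rfl

end Abstract

section

variable {k : Type u} [Field k] {K : Type v} [Field K] [CharZero K]
  {W : WeilCohomology.{u, v, w} k K}

attribute [local instance] ratModule

lemma eA_of_mem_G {N : ℕ} {U : Fin N → SmProjVar k} {lev : Fin N → ℕ} {m p : ℕ}
    {x : Aq W U lev} (hx : (x : ∀ s, W.H (U s)) ∈ G W U lev m p) : eA W U lev m p x = x := by
  refine Subtype.ext ?_
  have h1 := E_G hx m p
  rw [if_pos ⟨rfl, rfl⟩] at h1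
  exact h1

theorem lefschetz_of_standardD {X : SmProjVar k} {d : X.Z 1} (hH : W.HodgeTypeE X d)
    (hD : W.StandardD X) : W.LefschetzTypeE X d := by
  intro p r hpr
  refine ⟨fun z hz => ?_, fun z => ?_⟩
  · by_contra h0
    obtain ⟨i, hi, hi'⟩ := hH p r hpr z (by rw [pow_succ', mul_assoc, hz, mul_zero]) h0
    rw [mul_assoc, hz, mul_zero] at hi'
    have h1 : W.tr X 0 = 0 := (W.trL X).map_zero
    rw [h1] at hi'
    have h2 : ((-1 : K) ^ p * (i : K)) ≠ 0 :=
      mul_ne_zero (pow_ne_zero p (neg_ne_zero.mpr one_ne_zero)) (by exact_mod_cast hi.ne')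
    exact h2 hi'.symm
  · obtain ⟨f, hf⟩ := exists_retr K
    let U : Fin 1 → SmProjVar k := fun _ => X
    let lev : Fin 1 → ℕ := fun _ => 0
    let h : ∀ s, (U s).Z 1 := fun _ => d
    have hn : ∀ s, lev s + (U s).dim = X.dim := fun s => zero_add _
    have hnd : ∀ x : Aq W U lev, (∀ y, BA W U lev f x y = 0) → x = 0 :=
      BA_nondeg hf fun _ => hD
    have hfin := Aq_finite hf hnd
    have hmem : Pi.single (0 : Fin 1) (W.cy X (p + r) z) ∈ G W U lev 0 (p + r) :=
      single_mem_G (W := W) (U := U) (lev := lev) (s := 0) z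
    let x : Aq W U lev := ⟨_, G_le_Aq W U lev _ _ hmem⟩
    obtain ⟨y, hy, hy'⟩ := surj_of_pos (n := X.dim) (e := eA W U lev) (L := LA W U lev h)
      (B := BA W U lev f) (isBigrading hn) (LA_eA h)
      (fun m p q x y hmpq => BA_eA f hn m p q x y hmpq) hnd
      (BA_pos h hf hn fun _ => hH) 0 p r x (by omega) (eA_of_mem_G hmem)
    obtain ⟨m, c, hm, hc⟩ := exists_multiple W (G_apply_mem (mem_G_of_eA hy) 0)
    refine ⟨m, c, by exact_mod_cast hm.ne', ?_⟩
    have h1 := congrArg Subtype.val hy'
    rw [LA_pow_coe] at h1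
    have h2 := congrFun h1 0
    rw [Lop_pow_apply] at h2
    have h3 : W.cy X 1 d ^ r * (y : ∀ s, W.H (U s)) 0 = W.cy X (p + r) z := by
      refine h2.trans ?_
      change (Pi.single (0 : Fin 1) (W.cy X (p + r) z) : ∀ s, W.H (U s)) 0 = _
      rw [Pi.single_eq_same]
    rw [← hc, ← h3]
    change (m : ℤ) • _ = W.cy X 1 d ^ r * ((algebraMap ℚ K (m : ℚ)) • _)
    rw [mul_smul_comm, map_natCast, natCast_zsmul, Nat.cast_smul_eq_nsmul]

theorem standardD_of_lefschetz {X : SmProjVar k} {d : X.Z 1} (hH : W.HodgeTypeE X d)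
    (hA : W.LefschetzTypeE X d) : W.StandardD X := by
  obtain ⟨f, hf⟩ := exists_retr K
  let U : Fin 1 → SmProjVar k := fun _ => X
  let lev : Fin 1 → ℕ := fun _ => 0
  let h : ∀ s, (U s).Z 1 := fun _ => d
  have hn : ∀ s, lev s + (U s).dim = X.dim := fun s => zero_add _
  have hnd : ∀ x : Aq W U lev, (∀ y, BA W U lev f x y = 0) → x = 0 := by
    refine nondeg_of_surj (n := X.dim) (e := eA W U lev) (L := LA W U lev h)
      (isBigrading hn) (LA_eA h) (BA_LA h f)
      (fun m p q x y hmpq => BA_eA f hn m p q x y hmpq)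
      (BA_pos h hf hn fun _ => hH) ?_
    intro m p j x hmpj hx
    have hxG := mem_G_of_eA hx
    by_cases hm : m = 0
    · subst hm
      obtain ⟨m1, c, hm1, hc⟩ := exists_multiple W (G_apply_mem hxG 0)
      obtain ⟨m2, c', hm2, hc'⟩ := (hA p j (by omega)).2 c
      have hmem : Pi.single (0 : Fin 1) (W.cy X p c') ∈ G W U lev 0 p :=
        single_mem_G (W := W) (U := U) (lev := lev) (s := 0) c'
      have hmem' := Submodule.smul_mem _ (((m1 : ℚ) * (m2 : ℚ))⁻¹) hmem
      refine ⟨⟨_, G_le_Aq W U lev _ _ hmem'⟩, eA_of_mem_G hmem', Subtype.ext ?_⟩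
      · rw [LA_pow_coe]
        funext s
        rw [Lop_pow_apply]
        have hs : s = 0 := Subsingleton.elim _ _
        subst hs
        have h1 : ((((m1 : ℚ) * (m2 : ℚ))⁻¹ • (Pi.single (0 : Fin 1) (W.cy X p c') :
            ∀ s, W.H (U s))) 0 : W.H X) = (algebraMap ℚ K (((m1 : ℚ) * (m2 : ℚ))⁻¹)) •
            W.cy X p c' := by
          rw [Pi.smul_apply, Pi.single_eq_same]
          rfl
        change W.cy X 1 d ^ j * ((((m1 : ℚ) * (m2 : ℚ))⁻¹ •
          (Pi.single (0 : Fin 1) (W.cy X p c') : ∀ s, W.H (U s))) 0 : W.H X) = _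
        rw [h1, mul_smul_comm]
        have h2 : W.cy X 1 d ^ j * W.cy X p c' = (algebraMap ℚ K ((m1 : ℚ) * m2)) •
            ((x : ∀ s, W.H (U s)) 0 : W.H X) := by
          have h3 : m2 • W.cy X (p + j) c = W.cy X 1 d ^ j * W.cy X p c' := hc'
          have h4 : (algebraMap ℚ K (m1 : ℚ)) • ((x : ∀ s, W.H (U s)) 0 : W.H X) =
            W.cy X (p + j) c := hc
          rw [← h3, ← h4, map_mul, mul_comm, mul_smul, map_intCast, Int.cast_smul_eq_zsmul]
        rw [h2, smul_smul, ← map_mul, inv_mul_cancel₀, map_one, one_smul]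
        have : (m1 : ℚ) ≠ 0 := by exact_mod_cast hm1.ne'
        have : (m2 : ℚ) ≠ 0 := by exact_mod_cast hm2
        positivity
    · refine ⟨0, map_zero _, ?_⟩
      rw [map_zero]
      exact Subtype.ext (funext fun s => (G_apply_eq_zero hxG s (fun h' => hm h'.symm)).symm)
  intro j a b hab
  have ha : Pi.single (0 : Fin 1) (W.cy X j a) ∈ G W U lev 0 j :=
    single_mem_G (W := W) (U := U) (lev := lev) (s := 0) a
  have hb : Pi.single (0 : Fin 1) (W.cy X j b) ∈ G W U lev 0 j :=
    single_mem_G (W := W) (U := U) (lev := lev) (s := 0) b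
  have hab' := sub_mem ha hb
  have h0 := hnd ⟨_, G_le_Aq W U lev _ _ hab'⟩ ?_
  · have h1 := congrFun (congrArg Subtype.val h0) 0
    have h2 : W.cy X j a - W.cy X j b = 0 := by
      refine Eq.trans ?_ h1
      change _ = (Pi.single (0 : Fin 1) (W.cy X j a) : ∀ s, W.H (U s)) 0 -
        (Pi.single (0 : Fin 1) (W.cy X j b) : ∀ s, W.H (U s)) 0
      rw [Pi.single_eq_same, Pi.single_eq_same]
    exact sub_eq_zero.mp h2
  · rintro ⟨y, hy⟩
    apply (algebraMap ℚ K).injective
    rw [BA_spec hf, map_zero]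
    let v : ∀ s, W.H (U s) := Pi.single 0 (W.cy X j a) - Pi.single 0 (W.cy X j b)
    change BK W U v y = 0
    refine Aq_induction (P := fun y => BK W U v y = 0) ?_ ?_ hy
    · intro m i y hy
      refine G_induction (P := fun y => BK W U v y = 0) ?_ ?_ ?_ ?_ hy
      · intro s _ c
        have hs : s = 0 := Subsingleton.elim _ _
        subst hs
        rw [map_sub, LinearMap.sub_apply, BK_single, BK_single, Pi.single_eq_same, sub_eq_zero]
        by_cases hij : j + i = X.dim
        · have h1 := W.cycleClasses.tr_cy_mul X j i a c hij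
          have h2 := W.cycleClasses.tr_cy_mul X j i b c hij
          rw [hab i hij c, ← h2] at h1
          exact h1
        · exact (tr_cy_mul_of_ne W X j i a c hij).trans (tr_cy_mul_of_ne W X j i b c hij).symm
      · rw [map_zero]
      · intro a' b' ha hb
        rw [map_add, ha, hb, add_zero]
      · intro q y hy
        have : q • y = (algebraMap ℚ K q) • y := rfl
        rw [this, map_smul, hy, smul_zero]
    · intro a' b' ha hb
      rw [map_add, ha, hb, add_zero]

end

end Pool.Agent.Helper10.HD
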