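import Mathlib
import Pool.Agent.Helper10.HD.Single

/-!
# The standard conjecture of Hodge type and semistable degenerations
-/

universe u v w u' w'

open CategoryTheory TensorProduct

namespace Pool.Agent.Helper10.HD

open SmProjVar Degen Finset

section

variable {k' : Type u'} [Field k'] {K : Type v} [Field K] [CharZero K]
  {W' : WeilCohomology.{u', v, w'} k' K}

attribute [local instance] ratModule

/-- right non-degeneracy of the pairing -/
lemma ext_tr' {X : SmProjVar k'} {x y : W'.H X}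
    (h : ∀ z, W'.trL X (z * x) = W'.trL X (z * y)) : x = y := by
  have := finite_H W' X
  rw [← sub_eq_zero]
  refine (Module.forall_dual_apply_eq_zero_iff K _).mp fun l => ?_
  obtain ⟨z, hz⟩ := exists_rep W' X l
  rw [← hz, mul_sub, map_sub, h, sub_self]

variable (W') in
/-- the pairing `∫ p^* x ∪ [c] ∪ q^* y` as a bilinear map -/
noncomputable def cp {X Y : SmProjVar k'} (c : AnyCycle (X.prod Y)) :
    W'.H X →ₗ[K] W'.H Y →ₗ[K] K :=
  LinearMap.mk₂ K (fun x y => W'.corrPairing c x y)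
    (fun x x' y => by
      change W'.trL _ (W'.pullA _ (x + x') * _ * W'.pullA _ y) = W'.trL _ _ + W'.trL _ _
      rw [map_add, add_mul, add_mul, map_add]; rfl)
    (fun a x y => by
      change W'.trL _ (W'.pullA _ (a • x) * _ * W'.pullA _ y) = _ • W'.trL _ _
      rw [map_smul, smul_mul_assoc, smul_mul_assoc, map_smul]; rfl)
    (fun x y y' => by
      change W'.trL _ (W'.pullA _ x * _ * W'.pullA _ (y + y')) = W'.trL _ _ + W'.trL _ _
      rw [map_add, mul_add, map_add]; rfl)
    (fun a x y => by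
      change W'.trL _ (W'.pullA _ x * _ * W'.pullA _ (a • y)) = _ • W'.trL _ _
      rw [map_smul, mul_smul_comm, map_smul]; rfl)

lemma cp_apply {X Y : SmProjVar k'} (c : AnyCycle (X.prod Y)) (x : W'.H X) (y : W'.H Y) :
    cp W' c x y = W'.corrPairing c x y := rfl

variable {S : Strata k'} {ρ δ : (∀ s, W'.H (S.U s)) → ∀ s, W'.H (S.U s)}

/-- the operator `ρ` as a linear map -/
noncomputable def rhoL
    (hρ : ∀ (x : ∀ s, W'.H (S.U s)) (t : Fin S.N) (w : W'.H (S.U t)),
      W'.pairing (S.U t) (ρ x t) w =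
        ∑ s with S.lev t = S.lev s + 1, W'.corrPairing ⟨_, S.inc s t⟩ (x s) w) :
    (∀ s, W'.H (S.U s)) →ₗ[K] ∀ s, W'.H (S.U s) where
  toFun := ρ
  map_add' x y := by
    funext t
    refine ext_tr W' fun w => ?_
    rw [Pi.add_apply, add_mul, map_add]
    have h1 := hρ (x + y) t w
    have h2 := hρ x t w
    have h3 := hρ y t w
    change W'.trL _ _ = _ at h1 h2 h3
    rw [h1, h2, h3, ← Finset.sum_add_distrib]
    refine Finset.sum_congr rfl fun s _ => ?_
    rw [Pi.add_apply, ← cp_apply, ← cp_apply, ← cp_apply, map_add, LinearMap.add_apply]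
  map_smul' a x := by
    funext t
    refine ext_tr W' fun w => ?_
    rw [RingHom.id_apply, Pi.smul_apply, smul_mul_assoc, map_smul]
    have h1 := hρ (a • x) t w
    have h2 := hρ x t w
    change W'.trL _ _ = _ at h1 h2
    rw [h1, h2, smul_eq_mul, Finset.mul_sum]
    refine Finset.sum_congr rfl fun s _ => ?_
    rw [Pi.smul_apply, ← cp_apply, ← cp_apply, map_smul, LinearMap.smul_apply, smul_eq_mul]

/-- the operator `δ` as a linear map -/
noncomputable def deltaL
    (hδ : ∀ (y : ∀ s, W'.H (S.U s)) (s : Fin S.N) (w : W'.H (S.U s)),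
      W'.pairing (S.U s) w (δ y s) =
        ∑ t with S.lev t = S.lev s + 1, W'.corrPairing ⟨_, S.inc s t⟩ w (y t)) :
    (∀ s, W'.H (S.U s)) →ₗ[K] ∀ s, W'.H (S.U s) where
  toFun := δ
  map_add' x y := by
    funext s
    refine ext_tr' fun w => ?_
    rw [Pi.add_apply, mul_add, map_add]
    have h1 := hδ (x + y) s w
    have h2 := hδ x s w
    have h3 := hδ y s w
    change W'.trL _ _ = _ at h1 h2 h3
    rw [h1, h2, h3, ← Finset.sum_add_distrib]
    refine Finset.sum_congr rfl fun t _ => ?_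
    rw [Pi.add_apply, ← cp_apply, ← cp_apply, ← cp_apply, map_add]
  map_smul' a x := by
    funext s
    refine ext_tr' fun w => ?_
    rw [RingHom.id_apply, Pi.smul_apply, mul_smul_comm, map_smul]
    have h1 := hδ (a • x) s w
    have h2 := hδ x s w
    change W'.trL _ _ = _ at h1 h2
    rw [h1, h2, smul_eq_mul, Finset.mul_sum]
    refine Finset.sum_congr rfl fun t _ => ?_
    rw [Pi.smul_apply, ← cp_apply, ← cp_apply, map_smul, smul_eq_mul]

/-- `ρ` and `δ` are adjoint -/
lemma BK_rho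
    (hρ : ∀ (x : ∀ s, W'.H (S.U s)) (t : Fin S.N) (w : W'.H (S.U t)),
      W'.pairing (S.U t) (ρ x t) w =
        ∑ s with S.lev t = S.lev s + 1, W'.corrPairing ⟨_, S.inc s t⟩ (x s) w)
    (hδ : ∀ (y : ∀ s, W'.H (S.U s)) (s : Fin S.N) (w : W'.H (S.U s)),
      W'.pairing (S.U s) w (δ y s) =
        ∑ t with S.lev t = S.lev s + 1, W'.corrPairing ⟨_, S.inc s t⟩ w (y t))
    (x y : ∀ s, W'.H (S.U s)) : BK W' S.U (ρ x) y = BK W' S.U x (δ y) := by
  rw [BK_apply, BK_apply]
  have h1 : ∀ t, W'.trL (S.U t) (ρ x t * y t) =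
      ∑ s with S.lev t = S.lev s + 1, W'.corrPairing ⟨_, S.inc s t⟩ (x s) (y t) :=
    fun t => hρ x t (y t)
  have h2 : ∀ s, W'.trL (S.U s) (x s * δ y s) =
      ∑ t with S.lev t = S.lev s + 1, W'.corrPairing ⟨_, S.inc s t⟩ (x s) (y t) :=
    fun s => hδ y s (x s)
  simp only [h1, h2, Finset.sum_filter]
  exact Finset.sum_comm

lemma mem_G_of_apply {N : ℕ} {U : Fin N → SmProjVar k'} {lev : Fin N → ℕ} {m p : ℕ}
    {x : ∀ s, W'.H (U s)}
    (hx : ∀ s, x s = 0 ∨ (lev s = m ∧ ∃ c : (U s).Z p, x s = W'.cy (U s) p c)) :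
    x ∈ G W' U lev m p := by
  rw [← Finset.univ_sum_single x]
  refine Submodule.sum_mem _ fun s _ => ?_
  rcases hx s with h | ⟨h, c, hc⟩
  · rw [h, Pi.single_zero]
    exact zero_mem _
  · rw [hc, ← h]
    exact single_mem_G c

lemma rho_G
    (hρ : ∀ (x : ∀ s, W'.H (S.U s)) (t : Fin S.N) (w : W'.H (S.U t)),
      W'.pairing (S.U t) (ρ x t) w =
        ∑ s with S.lev t = S.lev s + 1, W'.corrPairing ⟨_, S.inc s t⟩ (x s) w)
    {m p : ℕ} {x : ∀ s, W'.H (S.U s)} (hx : x ∈ G W' S.U S.lev m p) :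
    ρ x ∈ G W' S.U S.lev (m + 1) p := by
  change rhoL hρ x ∈ _
  refine G_induction (P := fun x => rhoL hρ x ∈ G W' S.U S.lev (m + 1) p) ?_ ?_ ?_ ?_ hx
  · intro s hs c
    refine mem_G_of_apply fun t => ?_
    have h1 : ∀ w, W'.trL (S.U t) (rhoL hρ (Pi.single s (W'.cy (S.U s) p c)) t * w) =
        if S.lev t = S.lev s + 1 then W'.corrPairing ⟨_, S.inc s t⟩ (W'.cy (S.U s) p c) w
          else 0 := by
      intro w
      have h2 := hρ (Pi.single s (W'.cy (S.U s) p c)) t w
      change W'.trL (S.U t) (rhoL hρ (Pi.single s (W'.cy (S.U s) p c)) t * w) = _ at h2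
      rw [h2, Finset.sum_filter, Finset.sum_eq_single s]
      · rw [Pi.single_eq_same]
      · intro s' _ hs'
        rw [Pi.single_eq_of_ne hs', ← cp_apply, map_zero, LinearMap.zero_apply, ite_self]
      · intro h
        exact absurd (Finset.mem_univ s) h
    by_cases hlev : S.lev t = S.lev s + 1
    · right
      obtain ⟨c', hc'⟩ := corr_cy W' (S.inc s t) c
      refine ⟨by rw [hlev, hs], c', ext_tr W' fun w => ?_⟩
      rw [h1, if_pos hlev, hc']
      rfl
    · left
      refine ext_tr W' fun w => ?_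
      rw [h1, if_neg hlev, zero_mul, map_zero]
  · rw [map_zero]; exact zero_mem _
  · intro x y hx hy
    rw [map_add]; exact add_mem hx hy
  · intro q x hx
    have : q • x = (algebraMap ℚ K q) • x := rfl
    rw [this, map_smul]
    exact Submodule.smul_mem _ q hx

/-- the value of `δ` on a generator -/
lemma delta_single
    (hδ : ∀ (y : ∀ s, W'.H (S.U s)) (s : Fin S.N) (w : W'.H (S.U s)),
      W'.pairing (S.U s) w (δ y s) =
        ∑ t with S.lev t = S.lev s + 1, W'.corrPairing ⟨_, S.inc s t⟩ w (y t))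
    (t : Fin S.N) (a : W'.H (S.U t)) (s : Fin S.N) (w : W'.H (S.U s)) :
    W'.trL (S.U s) (w * δ (Pi.single t a) s) =
      if S.lev t = S.lev s + 1 then W'.corrPairing ⟨_, S.inc s t⟩ w a else 0 := by
  have h2 := hδ (Pi.single t a) s w
  change W'.trL (S.U s) (w * δ (Pi.single t a) s) = _ at h2
  rw [h2, Finset.sum_filter, Finset.sum_eq_single t]
  · rw [Pi.single_eq_same]
  · intro t' _ ht'
    rw [Pi.single_eq_of_ne ht', ← cp_apply, map_zero, ite_self]
  · intro h
    exact absurd (Finset.mem_univ t) h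

lemma delta_G {n : ℕ} (hn : ∀ s, S.lev s + (S.U s).dim = n)
    (hδ : ∀ (y : ∀ s, W'.H (S.U s)) (s : Fin S.N) (w : W'.H (S.U s)),
      W'.pairing (S.U s) w (δ y s) =
        ∑ t with S.lev t = S.lev s + 1, W'.corrPairing ⟨_, S.inc s t⟩ w (y t))
    {m p : ℕ} {x : ∀ s, W'.H (S.U s)} (hx : x ∈ G W' S.U S.lev (m + 1) p) :
    δ x ∈ G W' S.U S.lev m (p + 1) := by
  change deltaL hδ x ∈ _
  refine G_induction (P := fun x => deltaL hδ x ∈ G W' S.U S.lev m (p + 1)) ?_ ?_ ?_ ?_ hx
  · intro t ht c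
    refine mem_G_of_apply fun s => ?_
    have h1 := delta_single hδ t (W'.cy (S.U t) p c) s
    by_cases hlev : S.lev t = S.lev s + 1
    · right
      have hd : (S.U s).dim = (S.U t).dim + 1 := by
        have := hn s
        have := hn t
        omega
      obtain ⟨c', hc'⟩ := corr_cy' W' hd (S.inc s t) c
      refine ⟨by omega, c', ext_tr' fun w => ?_⟩
      refine (h1 w).trans ?_
      rw [if_pos hlev, hc']
      rfl
    · left
      refine ext_tr' fun w => ?_
      refine (h1 w).trans ?_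
      rw [if_neg hlev, mul_zero, map_zero]
  · rw [map_zero]; exact zero_mem _
  · intro x y hx hy
    rw [map_add]; exact add_mem hx hy
  · intro q x hx
    have : q • x = (algebraMap ℚ K q) • x := rfl
    rw [this, map_smul]
    exact Submodule.smul_mem _ q hx

lemma delta_G_zero
    (hδ : ∀ (y : ∀ s, W'.H (S.U s)) (s : Fin S.N) (w : W'.H (S.U s)),
      W'.pairing (S.U s) w (δ y s) =
        ∑ t with S.lev t = S.lev s + 1, W'.corrPairing ⟨_, S.inc s t⟩ w (y t))
    {p : ℕ} {x : ∀ s, W'.H (S.U s)} (hx : x ∈ G W' S.U S.lev 0 p) : δ x = 0 := by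
  change deltaL hδ x = 0
  refine G_induction (P := fun x => deltaL hδ x = 0) ?_ ?_ ?_ ?_ hx
  · intro t ht c
    funext s
    refine ext_tr' fun w => ?_
    refine (delta_single hδ t (W'.cy (S.U t) p c) s w).trans ?_
    rw [if_neg (by omega), Pi.zero_apply, mul_zero, map_zero]
  · rw [map_zero]
  · intro x y hx hy
    rw [map_add, hx, hy, add_zero]
  · intro q x hx
    have : q • x = (algebraMap ℚ K q) • x := rfl
    rw [this, map_smul, hx, smul_zero]

/-- an algebraic class with trivial components of level `m` vanishes on the members of level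
`m` -/
lemma apply_eq_zero_of_eA {n : ℕ} (hn : ∀ s, S.lev s + (S.U s).dim = n)
    {x : Aq W' S.U S.lev} {m : ℕ} (hx : ∀ q, eA W' S.U S.lev m q x = 0) (s : Fin S.N)
    (hs : S.lev s = m) : (x : ∀ s, W'.H (S.U s)) s = 0 := by
  have h1 := E_sum hn x.2
  rw [← h1, Finset.sum_apply]
  refine Finset.sum_eq_zero fun m' _ => ?_
  rw [Finset.sum_apply]
  refine Finset.sum_eq_zero fun q _ => ?_
  by_cases hm : m' = m
  · subst hm
    exact congrFun (congrArg Subtype.val (hx q)) s
  · exact G_apply_eq_zero (E_mem_G x.2 m' q) s (fun h' => hm (h'.symm.trans hs))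

end

end Pool.Agent.Helper10.HD
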