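import Mathlib
import Pool.Agent.Helper10.HD.Degenerate

/-!
# The standard conjecture of Hodge type for varieties with a semistable degeneration
-/

universe u v w u' w'

open CategoryTheory TensorProduct

namespace Pool.Agent.Helper10.HD

open SmProjVar Degen Finset

attribute [local instance] ratModule

/-- If all strata of a semistable degeneration of `X` satisfy the standard conjecture D and the
standard conjecture of Hodge type, then `X` satisfies the standard conjecture of Hodge type. -/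
theorem hodgeTypeE_of_degeneration {k : Type u} [Field k] {k' : Type u'} [Field k']
    {K : Type v} [Field K] [CharZero K] (W : WeilCohomology.{u, v, w} k K)
    (W' : WeilCohomology.{u', v, w'} k' K) (X : SmProjVar k) (d : X.Z 1) (S : Strata k')
    (sp : ∀ j : ℕ, X.Z j → ∀ s, (S.U s).Z j)
    (ρ δ : (∀ s, W'.H (S.U s)) → ∀ s, W'.H (S.U s))
    (hS : IsSemistableDegenerationE W.toCohomologyData W'.toCohomologyData X d S sp ρ δ)
    (hDH : ∀ s, W'.StandardD (S.U s) ∧ W'.HodgeTypeE (S.U s) (S.div s)) :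
    W.HodgeTypeE X d := by
  obtain ⟨f, hf⟩ := exists_retr K
  have hn := hS.dim_eq
  have hD := fun s => (hDH s).1
  have hH := fun s => (hDH s).2
  have hnd : ∀ x : Aq W' S.U S.lev, (∀ y, BA W' S.U S.lev f x y = 0) → x = 0 :=
    BA_nondeg hf hD
  have hfin : FiniteDimensional ℚ (Aq W' S.U S.lev) := Aq_finite hf hnd
  let ρL := rhoL hS.rho_eq
  let δL := deltaL hS.delta_eq
  have hρmem : ∀ x ∈ Aq W' S.U S.lev, ρL x ∈ Aq W' S.U S.lev := fun x hx =>
    map_mem_Aq (T := ρL) (fun m p _ hx => G_le_Aq W' S.U S.lev _ _ (rho_G hS.rho_eq hx)) hx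
  have hδmem : ∀ x ∈ Aq W' S.U S.lev, δL x ∈ Aq W' S.U S.lev := fun x hx =>
    map_mem_Aq (T := δL) (fun m p x hx => by
      rcases m with _ | m
      · have : δL x = 0 := delta_G_zero hS.delta_eq hx
        rw [this]; exact zero_mem _
      · exact G_le_Aq W' S.U S.lev _ _ (delta_G hn hS.delta_eq hx)) hx
  let ρA := res (T := ρL) hρmem
  let δA := res (T := δL) hδmem
  have Bρ : ∀ x y : Aq W' S.U S.lev, BA W' S.U S.lev f (ρA x) y = BA W' S.U S.lev f x (δA y) :=
    fun x y => congrArg f (BK_rho hS.rho_eq hS.delta_eq (x : ∀ s, W'.H (S.U s)) y)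
  have ρe : ∀ m p (x : Aq W' S.U S.lev), ρA (eA W' S.U S.lev m p x) =
      eA W' S.U S.lev (m + 1) p (ρA x) := by
    rintro m p ⟨x, hx⟩
    refine Subtype.ext ?_
    change ρL (E W' S.U S.lev m p x) = E W' S.U S.lev (m + 1) p (ρL x)
    refine Aq_induction (P := fun x => ρL (E W' S.U S.lev m p x) =
      E W' S.U S.lev (m + 1) p (ρL x)) ?_ ?_ hx
    · intro m' p' x hx
      rw [E_G hx, E_G (x := ρL x) (rho_G hS.rho_eq hx)]
      by_cases h1 : m = m' ∧ p = p'
      · rw [if_pos h1, if_pos ⟨by rw [h1.1], h1.2⟩]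
      · rw [if_neg h1, if_neg (fun h2 => h1 ⟨by omega, h2.2⟩), map_zero]
    · intro a b ha hb
      rw [map_add, map_add, ha, hb, map_add, map_add]
  have δe : ∀ m p (x : Aq W' S.U S.lev), δA (eA W' S.U S.lev (m + 1) p x) =
      eA W' S.U S.lev m (p + 1) (δA x) := by
    rintro m p ⟨x, hx⟩
    refine Subtype.ext ?_
    change δL (E W' S.U S.lev (m + 1) p x) = E W' S.U S.lev m (p + 1) (δL x)
    refine Aq_induction (P := fun x => δL (E W' S.U S.lev (m + 1) p x) =
      E W' S.U S.lev m (p + 1) (δL x)) ?_ ?_ hx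
    · intro m' p' x hx
      rcases m' with _ | m'
      · have h0 : δL x = 0 := delta_G_zero hS.delta_eq hx
        rw [E_G hx, if_neg (fun h => Nat.succ_ne_zero m h.1), h0, map_zero, map_zero]
      · rw [E_G hx, E_G (x := δL x) (delta_G hn hS.delta_eq hx)]
        by_cases h1 : m = m' ∧ p = p'
        · rw [if_pos ⟨by rw [h1.1], h1.2⟩, if_pos ⟨h1.1, by rw [h1.2]⟩]
        · rw [if_neg (fun h2 => h1 ⟨by omega, h2.2⟩), if_neg (fun h2 => h1 ⟨h2.1, by omega⟩),
            map_zero]
    · intro a b ha hb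
      rw [map_add, map_add, ha, hb, map_add, map_add]
  have δe0 : ∀ p (x : Aq W' S.U S.lev), δA (eA W' S.U S.lev 0 p x) = 0 := by
    rintro p ⟨x, hx⟩
    refine Subtype.ext ?_
    change δL (E W' S.U S.lev 0 p x) = 0
    exact delta_G_zero hS.delta_eq (E_mem_G hx 0 p)
  have Lρ : ∀ x : Aq W' S.U S.lev, LA W' S.U S.lev S.div (ρA x) =
      ρA (LA W' S.U S.lev S.div x) := by
    rintro ⟨x, hx⟩
    refine Subtype.ext (funext fun t => ?_)
    exact (hS.rho_hyp x t).symm
  have ρρ : ∀ x : Aq W' S.U S.lev, ρA (ρA x) = 0 := by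
    rintro ⟨x, hx⟩
    exact Subtype.ext (hS.rho_rho x)
  have ρδ : ∀ x : Aq W' S.U S.lev, (∀ p, eA W' S.U S.lev 0 p x = 0) →
      ρA (δA x) + δA (ρA x) = 0 := by
    intro x hx
    exact Subtype.ext (hS.rho_delta x fun s hs => apply_eq_zero_of_eA hn hx s hs)
  -- transfer of the boundary equation to rational classes
  have transfer : ∀ x : ∀ s, W'.H (S.U s), (∀ s, Even (S.lev s) → x s = 0) →
      ∃ ξ : Aq W' S.U S.lev, (∀ m q, Even m → eA W' S.U S.lev m q ξ = 0) ∧
        ∀ v : Aq W' S.U S.lev, (∀ s, ρ x s + δ x s = (v : ∀ s, W'.H (S.U s)) s) →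
          ρA ξ + δA ξ = v := by
    intro x hx
    have hinj : Function.Injective (BA W' S.U S.lev f) := by
      rw [← LinearMap.ker_eq_bot, LinearMap.ker_eq_bot']
      intro y hy
      exact hnd y fun z => LinearMap.congr_fun hy z
    have hsurj : Function.Surjective (BA W' S.U S.lev f) :=
      (LinearMap.injective_iff_surjective_of_finrank_eq_finrank
        (Subspace.dual_finrank_eq (K := ℚ) (V := Aq W' S.U S.lev)).symm).mp hinj
    obtain ⟨ξ, hξ⟩ := hsurj ((BV W' S.U f x).comp (Aq W' S.U S.lev).subtype)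
    have hξ' : ∀ y : Aq W' S.U S.lev, BA W' S.U S.lev f ξ y =
        f (BK W' S.U x (y : ∀ s, W'.H (S.U s))) := fun y => LinearMap.congr_fun hξ y
    refine ⟨ξ, fun m q hm => ?_, fun v hv => ?_⟩
    · refine hnd _ fun y => ?_
      by_cases hmq : m + q ≤ X.dim
      · rw [BA_eA f hn m q (X.dim - m - q) ξ y (by omega), hξ', BK_apply]
        rw [Finset.sum_eq_zero, map_zero]
        intro s _
        by_cases hs : S.lev s = m
        · rw [hx s (by rw [hs]; exact hm), zero_mul, map_zero]
        · have : (eA W' S.U S.lev m (X.dim - m - q) y : ∀ s, W'.H (S.U s)) s = 0 :=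
            G_apply_eq_zero (E_mem_G y.2 m _) s hs
          rw [this, mul_zero, map_zero]
      · rw [(isBigrading hn).zero m q (by omega), LinearMap.zero_apply, map_zero,
          LinearMap.zero_apply]
    · rw [← sub_eq_zero]
      refine hnd _ fun y => ?_
      rw [map_sub, LinearMap.sub_apply, sub_eq_zero, map_add, LinearMap.add_apply, Bρ,
        BA_symm f (δA ξ) y, ← Bρ y ξ, BA_symm f (ρA y) ξ, hξ', hξ', BA_apply, ← map_add]
      congr 1
      have hv' : (v : ∀ s, W'.H (S.U s)) = ρ x + δ x := by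
        funext s; exact (hv s).symm
      have h1 : BK W' S.U x (δA y : ∀ s, W'.H (S.U s)) = BK W' S.U (ρ x) y :=
        (BK_rho hS.rho_eq hS.delta_eq x y).symm
      have h2 : BK W' S.U x (ρA y : ∀ s, W'.H (S.U s)) = BK W' S.U (δ x) y := by
        rw [← BK_comm (ρA y).2 x, ← BK_comm y.2 (δ x)]
        exact BK_rho hS.rho_eq hS.delta_eq y x
      rw [h1, h2, hv', map_add, LinearMap.add_apply]
  intro p r hpr z hz hz0
  let v0 : ∀ s, W'.H (S.U s) := fun s =>
    if S.lev s = 0 then W'.cy (S.U s) p (sp p z s) else 0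
  have hv0 : v0 ∈ G W' S.U S.lev 0 p := by
    refine mem_G_of_apply fun s => ?_
    by_cases hs : S.lev s = 0
    · exact Or.inr ⟨hs, sp p z s, if_pos hs⟩
    · exact Or.inl (if_neg hs)
  let v : Aq W' S.U S.lev := ⟨v0, G_le_Aq W' S.U S.lev _ _ hv0⟩
  have hLv : ∀ i s, (((LA W' S.U S.lev S.div ^ i) v : Aq W' S.U S.lev) : ∀ s, W'.H (S.U s)) s =
      if S.lev s = 0 then W'.cy (S.U s) 1 (S.div s) ^ i * W'.cy (S.U s) p (sp p z s) else 0 := by
    intro i s
    rw [LA_pow_coe, Lop_pow_apply]
    change _ * (if S.lev s = 0 then W'.cy (S.U s) p (sp p z s) else 0) = _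
    split_ifs
    · rfl
    · rw [mul_zero]
  obtain ⟨x, hx1, hx2⟩ := (hS.eq_zero_iff (r + 1) p z).mp hz
  obtain ⟨ξ, hξ1, hξ2⟩ := transfer x hx1
  have hbd : (LA W' S.U S.lev S.div ^ (r + 1)) v = ρA ξ + δA ξ :=
    (hξ2 _ fun s => by rw [hx2, hLv]).symm
  have hcases := la_main' (n := X.dim) (e := eA W' S.U S.lev) (L := LA W' S.U S.lev S.div)
    (B := BA W' S.U S.lev f) (ρ := ρA) (δ := δA) (isBigrading hn) (LA_eA S.div) ρe δe δe0
    (BA_symm f) (BA_LA S.div f) (fun m p q x y h => BA_eA f hn m p q x y h) Bρ Lρ ρρ ρδ hnd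
    (BA_pos S.div hf hn hH) p r hpr v ξ (eA_of_mem_G hv0) (Subtype.ext (hS.rho_sp p z))
    hξ1 hbd
  rcases hcases with ⟨ξ', hξ'1, hξ'2⟩ | hpos
  · exfalso
    apply hz0
    have h1 := (hS.eq_zero_iff 0 p z).mpr ⟨(ξ' : ∀ s, W'.H (S.U s)), fun s hs =>
      apply_eq_zero_of_eA hn (fun q => hξ'1 _ q hs) s rfl, fun s => ?_⟩
    · rwa [pow_zero, one_mul] at h1
    · have h2 := congrFun (congrArg Subtype.val hξ'2) s
      refine Eq.trans h2 ?_
      change (if S.lev s = 0 then W'.cy (S.U s) p (sp p z s) else 0) = _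
      rw [pow_zero, one_mul]
  · -- the trace
    have htr : W.tr X (W.cy X p z * W.cy X 1 d ^ r * W.cy X p z) =
        algebraMap ℚ K (BA W' S.U S.lev f v ((LA W' S.U S.lev S.div ^ r) v)) := by
      rw [BA_spec hf, BK_apply, hS.tr_sp p p r z z, Finset.sum_filter]
      refine Finset.sum_congr rfl fun s _ => ?_
      rw [hLv]
      change _ = W'.trL (S.U s) ((if S.lev s = 0 then W'.cy (S.U s) p (sp p z s) else 0) * _)
      split_ifs
      · rw [mul_assoc]; rfl
      · rw [zero_mul, map_zero]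
    obtain ⟨z', hz'⟩ := cy_mul_pow W X d p r z
    obtain ⟨a, ha⟩ := tr_cy_mul_int W X p (p + r) z z'
    have ha' : W.tr X (W.cy X p z * W.cy X 1 d ^ r * W.cy X p z) = a := by
      rw [mul_assoc, ← hz']; exact ha
    have hq : BA W' S.U S.lev f v ((LA W' S.U S.lev S.div ^ r) v) = (a : ℚ) := by
      apply (algebraMap ℚ K).injective
      rw [← htr, ha', map_intCast]
    rw [hq] at hpos
    have hposZ : (0 : ℤ) < (-1) ^ p * a := by exact_mod_cast hpos
    refine ⟨((-1) ^ p * a).toNat, by omega, ?_⟩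
    rw [ha']
    have h3 : ((((-1) ^ p * a).toNat : ℕ) : K) = ((((-1) ^ p * a : ℤ)) : K) := by
      have : ((((-1) ^ p * a).toNat : ℕ) : ℤ) = (-1) ^ p * a := Int.toNat_of_nonneg hposZ.le
      rw [← Int.cast_natCast, this]
    rw [h3]
    push_cast
    rw [← mul_assoc, ← mul_pow]
    norm_num

/-! ### the definitions of the statement -/

section Bridge

variable {k : Type u} [Field k] {K : Type v} [Field K] [CharZero K]
  (W : WeilCohomology.{u, v, w} k K)

lemma hodgeType_iff (X : SmProjVar k) (d : X.Z 1) : W.HodgeType X d ↔ W.HodgeTypeE X d := by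
  have h : ∀ (p r : ℕ) (z : X.Z p),
      W.pairing X (W.cy X p z) (W.lef X d r (W.cy X p z)) =
        W.tr X (W.cy X p z * W.cy X 1 d ^ r * W.cy X p z) := by
    intro p r z
    rw [mul_assoc]
    rfl
  constructor
  · intro hH p r hpr z hz hz0
    obtain ⟨i, hi, hi'⟩ := hH p r hpr z hz hz0
    exact ⟨i, hi, (h p r z).symm.trans hi'⟩
  · intro hH p r hpr z hz hz0
    obtain ⟨i, hi, hi'⟩ := hH p r hpr z hz hz0
    exact ⟨i, hi, (h p r z).trans hi'⟩

lemma lefschetzType_iff (X : SmProjVar k) (d : X.Z 1) :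
    W.LefschetzType X d ↔ W.LefschetzTypeE X d := Iff.rfl

variable {k' : Type u'} [Field k'] (W' : WeilCohomology.{u', v, w'} k' K)

lemma isSemistableDegenerationE {X : SmProjVar k} {d : X.Z 1} {S : Strata k'}
    {sp : ∀ j : ℕ, X.Z j → ∀ s, (S.U s).Z j} {ρ δ : S.Coh W'.toCohomologyData →
      S.Coh W'.toCohomologyData}
    (hS : IsSemistableDegeneration W.toCohomologyData W'.toCohomologyData X d S sp ρ δ) :
    IsSemistableDegenerationE W.toCohomologyData W'.toCohomologyData X d S sp ρ δ where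
  dim_eq := hS.dim_eq
  rho_eq := fun x t y => by
    have h1 := hS.complex.rho x (Pi.single t y)
    have h2 : S.pairing W'.toCohomologyData (ρ x) (Pi.single t y) =
        W'.pairing (S.U t) (ρ x t) y := BK_single' (W := W') (U := S.U) t y (ρ x)
    have h3 : S.incPairing W'.toCohomologyData x (Pi.single t y) =
        ∑ s with S.lev t = S.lev s + 1, W'.corrPairing ⟨_, S.inc s t⟩ (x s) y := by
      unfold Strata.incPairing
      rw [Finset.sum_filter]
      refine Finset.sum_congr rfl fun s _ => ?_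
      rw [Finset.sum_filter, Finset.sum_eq_single t]
      · rw [Pi.single_eq_same]
      · intro t' _ ht'
        rw [Pi.single_eq_of_ne ht', ← cp_apply, map_zero, ite_self]
      · intro h
        exact absurd (Finset.mem_univ t) h
    rw [← h2, h1, h3]
  delta_eq := fun y s x => by
    have h1 := hS.complex.delta (Pi.single s x) y
    have h2 : S.pairing W'.toCohomologyData (Pi.single s x) (δ y) =
        W'.pairing (S.U s) x (δ y s) := BK_single (W := W') (U := S.U) s x (δ y)
    have h3 : S.incPairing W'.toCohomologyData (Pi.single s x) y =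
        ∑ t with S.lev t = S.lev s + 1, W'.corrPairing ⟨_, S.inc s t⟩ x (y t) := by
      unfold Strata.incPairing
      rw [Finset.sum_eq_single s]
      · refine Finset.sum_congr rfl fun t _ => ?_
        rw [Pi.single_eq_same]
      · intro s' _ hs'
        refine Finset.sum_eq_zero fun t _ => ?_
        rw [Pi.single_eq_of_ne hs', ← cp_apply, map_zero, LinearMap.zero_apply]
      · intro h
        exact absurd (Finset.mem_univ s) h
    rw [← h2, h1, h3]
  rho_rho := hS.complex.rho_rho
  rho_delta := hS.complex.rho_delta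
  rho_hyp := fun x t => by
    have h1 := congrFun (hS.complex.rho_div x) t
    have h2 : ∀ (x : S.Coh W'.toCohomologyData), S.lef W'.toCohomologyData 1 x =
        fun s => W'.cy (S.U s) 1 (S.div s) * x s := by
      intro x
      funext s
      change W'.cy (S.U s) 1 (S.div s) ^ 1 * x s = _
      rw [pow_one]
    exact ((congrFun (congrArg ρ (h2 x)) t).symm.trans h1).trans (congrFun (h2 (ρ x)) t)
  rho_sp := hS.rho_sp
  tr_sp := fun i j r z z' => by
    have h1 := hS.pairing_sp i j r z z'
    rw [mul_assoc]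
    refine Eq.trans h1 ?_
    unfold Strata.pairing
    rw [Finset.sum_filter]
    refine Finset.sum_congr rfl fun s _ => ?_
    change W'.trL (S.U s) ((if S.lev s = 0 then W'.cy (S.U s) i (sp i z s) else 0) *
      (W'.cy (S.U s) 1 (S.div s) ^ r * if S.lev s = 0 then W'.cy (S.U s) j (sp j z' s) else 0)) = _
    split_ifs
    · rw [mul_assoc]; rfl
    · rw [zero_mul, map_zero]
  eq_zero_iff := fun r j z => by
    refine (hS.eq_zero_iff r j z).trans ?_
    refine exists_congr fun x => and_congr Iff.rfl ?_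
    constructor
    · intro h s
      refine (congrFun h s).trans ?_
      change W'.cy (S.U s) 1 (S.div s) ^ r * (if S.lev s = 0 then W'.cy (S.U s) j (sp j z s)
        else 0) = _
      split_ifs
      · rfl
      · rw [mul_zero]
    · intro h
      funext s
      refine (h s).trans ?_
      change _ = W'.cy (S.U s) 1 (S.div s) ^ r * (if S.lev s = 0 then W'.cy (S.U s) j (sp j z s)
        else 0)
      split_ifs
      · rfl
      · rw [mul_zero]

theorem hodgeType_of_degeneration (X : SmProjVar k) (d : X.Z 1)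
    (hdeg : DegeneratesToHodgeType W.toCohomologyData W'.toCohomologyData X d) :
    W.HodgeType X d := by
  obtain ⟨S, sp, ρ, δ, hS, hDH⟩ := hdeg
  exact (hodgeType_iff W X d).mpr (hodgeTypeE_of_degeneration W W' X d S sp ρ δ
    (isSemistableDegenerationE W W' hS) fun s =>
      ⟨(hDH s).1, (hodgeType_iff W' (S.U s) (S.div s)).mp (hDH s).2⟩)

end Bridge

end Pool.Agent.Helper10.HD
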