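import Mathlib

set_option autoImplicit false

namespace Pool.Agent.Helper10.HD

/-- The orthogonal projection to a subspace for a positive definite rational form. -/
theorem Harmonic.exists_proj {C : Type*} [AddCommGroup C] [Module ℚ C] [FiniteDimensional ℚ C]
    (g : C →ₗ[ℚ] C →ₗ[ℚ] ℚ) (gpos : ∀ x, x ≠ 0 → 0 < g x x) (R : Submodule ℚ C) (z : C) :
    ∃ r ∈ R, ∀ r' ∈ R, g r r' = g z r' := by
  let f : R →ₗ[ℚ] Module.Dual ℚ R := g.domRestrict₁₂ R R
  have hf : ∀ r r' : R, f r r' = g r r' := fun r r' => rfl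
  have hinj : Function.Injective f := by
    rw [injective_iff_map_eq_zero]
    intro r hr
    by_contra hne
    have h1 : (r : C) ≠ 0 := fun h => hne (Subtype.ext h)
    have h2 := gpos r h1
    have h3 : g r r = 0 := by
      rw [← hf r r, hr]
      rfl
    exact absurd h3 h2.ne'
  have hsurj : Function.Surjective f :=
    (LinearMap.injective_iff_surjective_of_finrank_eq_finrank
      (Subspace.dual_finrank_eq (K := ℚ) (V := R)).symm).1 hinj
  obtain ⟨r, hr⟩ := hsurj ((g z).domRestrict R)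
  refine ⟨r, r.2, fun r' hr' => ?_⟩
  have h4 := congrArg (fun φ : Module.Dual ℚ R => φ ⟨r', hr'⟩) hr
  exact h4

theorem harmonic {C : Type*} [AddCommGroup C] [Module ℚ C] [FiniteDimensional ℚ C]
    (g : C →ₗ[ℚ] C →ₗ[ℚ] ℚ) (gsymm : ∀ x y, g x y = g y x) (gpos : ∀ x, x ≠ 0 → 0 < g x x)
    (d d' : C →ₗ[ℚ] C) (adj : ∀ x y, g (d x) y = g x (d' y)) (d2 : ∀ x, d (d x) = 0) (z : C)
    (hz : d z = 0) :
    ∃ x y, z = x + d y ∧ d x = 0 ∧ d' x = 0 ∧
      ∀ T : C →ₗ[ℚ] C, (∀ v, T (d (d' v) + d' (d v)) = d (d' (T v)) + d' (d (T v))) →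
        (∀ v, ∃ w, T (d v) = d w) → (∃ w, T z = d w) → T x = 0 := by
  have hzero : ∀ x, g x x = 0 → x = 0 := by
    intro x hx
    by_contra hne
    exact absurd hx (gpos x hne).ne'
  have hnonneg : ∀ x, 0 ≤ g x x := by
    intro x
    by_cases hx : x = 0
    · simp [hx]
    · exact (gpos x hx).le
  obtain ⟨r, ⟨y, hy⟩, hr⟩ := Harmonic.exists_proj g gpos (LinearMap.range d) z
  have hd'x : d' (z - r) = 0 := by
    apply hzero
    rw [← adj, gsymm, map_sub, LinearMap.sub_apply, hr _ ⟨_, rfl⟩, sub_self]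
  have hdx : d (z - r) = 0 := by
    rw [map_sub, hz, ← hy, d2, sub_zero]
  refine ⟨z - r, y, by rw [hy]; abel, hdx, hd'x, ?_⟩
  intro T hT hTd hTz
  have h0 : d (d' (T (z - r))) + d' (d (T (z - r))) = 0 := by
    rw [← hT, hdx, hd'x, map_zero, map_zero, add_zero, map_zero]
  set w := T (z - r) with hw
  have h1 : g (d' w) (d' w) + g (d w) (d w) = 0 := by
    have e1 : g (d (d' w)) w = g (d' w) (d' w) := adj _ _
    have e2 : g (d' (d w)) w = g (d w) (d w) := by
      rw [gsymm, ← adj]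
    rw [← e1, ← e2, ← LinearMap.add_apply, ← map_add, h0, map_zero, LinearMap.zero_apply]
  have h2 : d' w = 0 := hzero _ (by linarith [hnonneg (d' w), hnonneg (d w)])
  obtain ⟨w1, hw1⟩ := hTz
  obtain ⟨w2, hw2⟩ := hTd y
  have h3 : w = d (w1 - w2) := by
    rw [hw, map_sub, map_sub, hw1, ← hy, hw2]
  apply hzero
  have h4 : g w w = g (d (w1 - w2)) w := by rw [← h3]
  rw [h4, adj, h2, map_zero]

end Pool.Agent.Helper10.HD
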