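import Mathlib

/-!
# Polarised Lefschetz modules: definitions (MP_5f0950_ag, Hodge index and degenerations)
-/

set_option autoImplicit false

namespace Pool.Agent.Helper10.HD

open Finset

variable {A : Type*} [AddCommGroup A] [Module ℚ A]

/-- a grading of `A` by the weights `-n, …, n`, given by its projections `ω b` -/
structure IsGrading (n : ℕ) (ω : ℤ → A →ₗ[ℚ] A) : Prop where
  proj : ∀ b b' x, ω b (ω b' x) = if b = b' then ω b' x else 0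
  sum : ∀ x, ∑ b ∈ Icc (-(n : ℤ)) n, ω b x = x

/-- `L` raises weights by `2`, and `L ^ j` is an isomorphism from weight `-j` to weight `j` -/
structure IsLefschetz (n : ℕ) (ω : ℤ → A →ₗ[ℚ] A) (L : A →ₗ[ℚ] A) : Prop where
  grading : IsGrading n ω
  comm : ∀ b x, L (ω b x) = ω (b + 2) (L x)
  inj : ∀ (j : ℕ) (x : A), ω (-(j : ℤ)) x = x → (L ^ j) x = 0 → x = 0
  surj : ∀ (j : ℕ) (x : A), ω (j : ℤ) x = x → ∃ y, ω (-(j : ℤ)) y = y ∧ (L ^ j) y = x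

/-- primitive vectors of weight `-j` -/
def IsPrim (ω : ℤ → A →ₗ[ℚ] A) (L : A →ₗ[ℚ] A) (j : ℕ) (u : A) : Prop :=
  ω (-(j : ℤ)) u = u ∧ (L ^ (j + 1)) u = 0

/-- polarised Lefschetz module: `B` is the pairing, `ε` the sign operator `(-1) ^ p` -/
structure IsPolarized (n : ℕ) (ω : ℤ → A →ₗ[ℚ] A) (L ε : A →ₗ[ℚ] A) (B : A →ₗ[ℚ] A →ₗ[ℚ] ℚ) :
    Prop where
  lef : IsLefschetz n ω L
  εε : ∀ x, ε (ε x) = x
  εω : ∀ b x, ε (ω b x) = ω b (ε x)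
  εL : ∀ x, ε (L x) = - L (ε x)
  symm : ∀ x y, B x y = B y x
  BL : ∀ x y, B (L x) y = B x (L y)
  Bω : ∀ b x y, B (ω b x) y = B x (ω (-b) y)
  symmε : ∀ (j : ℕ) (x y : A), ω (-(j : ℤ)) x = x → ω (-(j : ℤ)) y = y →
    B (ε x) ((L ^ j) y) = B (ε y) ((L ^ j) x)
  pos : ∀ (j : ℕ) (u : A), IsPrim ω L j u → u ≠ 0 → 0 < B (ε u) ((L ^ j) u)

end Pool.Agent.Helper10.HD
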