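import Pool.Agent.Helper10.HD.LinDefs

/-!
# Primitive decomposition (piece HD-1)
-/

set_option autoImplicit false

namespace Pool.Agent.Helper10.HD

open Finset

namespace Prim

variable {A : Type*} [AddCommGroup A] [Module ℚ A] {n : ℕ} {ω : ℤ → A →ₗ[ℚ] A} {L : A →ₗ[ℚ] A}

theorem omega_zero (h : IsGrading n ω) {b : ℤ} (hb : b ∉ Icc (-(n : ℤ)) n) (x : A) :
    ω b x = 0 := by
  rw [← h.sum (ω b x)]
  refine Finset.sum_eq_zero fun b' hb' => ?_
  rw [h.proj, if_neg]
  rintro rfl
  exact hb hb'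

theorem pow_comm (h : IsLefschetz n ω L) (k : ℕ) (b : ℤ) (x : A) :
    (L ^ k) (ω b x) = ω (b + 2 * k) ((L ^ k) x) := by
  induction k generalizing b x with
  | zero => simp
  | succ k ih =>
    rw [pow_succ', Module.End.mul_apply, Module.End.mul_apply, ih, h.comm]
    congr 2
    push_cast
    ring

/-- the primitive vectors of weight `-j` as a submodule -/
def P (ω : ℤ → A →ₗ[ℚ] A) (L : A →ₗ[ℚ] A) (j : ℕ) : Submodule ℚ A where
  carrier := {u | IsPrim ω L j u}
  add_mem' := by
    rintro a b ⟨ha, ha'⟩ ⟨hb, hb'⟩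
    exact ⟨by rw [map_add, ha, hb], by rw [map_add, ha', hb', add_zero]⟩
  zero_mem' := ⟨map_zero _, map_zero _⟩
  smul_mem' := by
    rintro c a ⟨ha, ha'⟩
    exact ⟨by rw [map_smul, ha], by rw [map_smul, ha', smul_zero]⟩

theorem mem_P {j : ℕ} {u : A} : u ∈ P ω L j ↔ IsPrim ω L j u := Iff.rfl

theorem prim_zero_of_lt (h : IsLefschetz n ω L) {j : ℕ} (hj : n < j) {u : A}
    (hu : IsPrim ω L j u) : u = 0 := by
  rw [← hu.1]
  apply omega_zero h.grading
  simp only [mem_Icc, not_and_or, not_le]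
  left
  omega

theorem pow_ge_zero {j k : ℕ} (hk : j + 1 ≤ k) {u : A} (hu : IsPrim ω L j u) :
    (L ^ k) u = 0 := by
  obtain ⟨m, rfl⟩ := Nat.exists_eq_add_of_le hk
  rw [add_comm, pow_add, Module.End.mul_apply, hu.2, map_zero]

/-- the weight of `L ^ i u` -/
theorem omega_pow (h : IsLefschetz n ω L) {j i : ℕ} {u : A} (hu : IsPrim ω L j u) (b : ℤ) :
    ω b ((L ^ i) u) = if b = 2 * i - j then (L ^ i) u else 0 := by
  have h1 : (L ^ i) u = ω (-(j : ℤ) + 2 * i) ((L ^ i) u) := by
    conv_lhs => rw [← hu.1]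
    rw [pow_comm h]
  rw [h1, h.grading.proj]
  have e : -(j : ℤ) + 2 * i = 2 * i - j := by ring
  rw [e]

/-- the test operator `L ^ (j - i) ω (2 i - j)` -/
theorem test (h : IsLefschetz n ω L) {j i j' i' : ℕ} (hi : i ≤ j) (hj' : j' ≤ j)
    {u : A} (hu : IsPrim ω L j' u) :
    (L ^ (j - i)) (ω (2 * i - j) ((L ^ i') u)) = if j' = j ∧ i' = i then (L ^ j) u else 0 := by
  rw [omega_pow h hu]
  by_cases hb : (2 * (i : ℤ) - j) = 2 * i' - j'
  · rw [if_pos hb]
    by_cases hjj : j' = j
    · subst hjj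
      have : i' = i := by omega
      subst this
      rw [if_pos ⟨rfl, rfl⟩, ← Module.End.mul_apply, ← pow_add]
      congr 2
      omega
    · rw [if_neg (fun hh => hjj hh.1), ← Module.End.mul_apply, ← pow_add]
      exact pow_ge_zero (by omega) hu
  · rw [if_neg hb, map_zero, if_neg]
    rintro ⟨rfl, rfl⟩
    exact hb rfl

/-- the sum map -/
noncomputable def Psi (n : ℕ) (ω : ℤ → A →ₗ[ℚ] A) (L : A →ₗ[ℚ] A) :
    ((j : Fin (n + 1)) → (Fin (j.1 + 1) → P ω L j.1)) →ₗ[ℚ] A where
  toFun u := ∑ j, ∑ i, (L ^ i.1) (u j i : A)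
  map_add' u v := by
    simp [Finset.sum_add_distrib]
  map_smul' c u := by
    simp [Finset.smul_sum]

theorem Psi_apply (u : (j : Fin (n + 1)) → (Fin (j.1 + 1) → P ω L j.1)) :
    Psi n ω L u = ∑ j, ∑ i, (L ^ i.1) (u j i : A) := rfl

theorem Psi_injective (h : IsLefschetz n ω L) : Function.Injective (Psi n ω L) := by
  rw [injective_iff_map_eq_zero]
  intro u hu
  -- descending induction on `j`
  have key : ∀ k : ℕ, ∀ j : Fin (n + 1), n < j.1 + k → ∀ i, u j i = 0 := by
    intro k
    induction k with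
    | zero => intro j hj; have := j.2; omega
    | succ k ih =>
      intro j hj i
      by_cases hjk : n < j.1 + k
      · exact ih j hjk i
      have hbig : ∀ j' : Fin (n + 1), j < j' → ∀ i', u j' i' = 0 := by
        intro j' hj' i'
        have : j.1 < j'.1 := hj'
        exact ih j' (by omega) i'
      have h1 : (L ^ (j.1 - i.1)) (ω (2 * i.1 - j.1) (Psi n ω L u)) = 0 := by
        rw [hu, map_zero, map_zero]
      rw [Psi_apply] at h1
      simp only [map_sum] at h1
      rw [Finset.sum_eq_single j, Finset.sum_eq_single i] at h1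
      · rw [test h (Nat.lt_succ_iff.1 i.2) le_rfl (u j i).2, if_pos ⟨rfl, rfl⟩] at h1
        exact Subtype.ext (h.inj j.1 _ (u j i).2.1 h1)
      · intro i' _ hi'
        rw [test h (Nat.lt_succ_iff.1 i.2) le_rfl (u j i').2, if_neg]
        rintro ⟨-, h2⟩
        exact hi' (Fin.ext h2)
      · intro h2; exact absurd (mem_univ _) h2
      · intro j' _ hj'
        refine Finset.sum_eq_zero fun i' _ => ?_
        rcases lt_or_gt_of_ne hj' with hlt | hgt
        · rw [test h (Nat.lt_succ_iff.1 i.2) (le_of_lt hlt) (u j' i').2, if_neg]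
          rintro ⟨h2, -⟩
          exact hj' (Fin.ext h2)
        · rw [hbig j' hgt i']
          simp
      · intro h2; exact absurd (mem_univ _) h2
  funext j i
  exact key (n + 1) j (by omega) i

theorem Psi_single (j : Fin (n + 1)) (i : Fin (j.1 + 1)) (u : P ω L j.1) :
    Psi n ω L (Pi.single j (Pi.single i u)) = (L ^ i.1) (u : A) := by
  rw [Psi_apply, Finset.sum_eq_single j, Finset.sum_eq_single i]
  · simp
  · intro i' _ hi'
    simp [Pi.single_eq_of_ne hi']
  · intro h2; exact absurd (mem_univ _) h2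
  · intro j' _ hj'
    refine Finset.sum_eq_zero fun i' _ => ?_
    rw [Pi.single_eq_of_ne hj']
    simp
  · intro h2; exact absurd (mem_univ _) h2

theorem gen_mem (h : IsLefschetz n ω L) {j i : ℕ} {u : A} (hu : IsPrim ω L j u) :
    (L ^ i) u ∈ LinearMap.range (Psi n ω L) := by
  by_cases hj : j ≤ n
  · by_cases hi : i ≤ j
    · exact ⟨Pi.single ⟨j, by omega⟩ (Pi.single ⟨i, by simp; omega⟩ ⟨u, hu⟩), Psi_single _ _ _⟩
    · rw [pow_ge_zero (by omega) hu]
      exact Submodule.zero_mem _
  · rw [prim_zero_of_lt h (by omega) hu, map_zero]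
    exact Submodule.zero_mem _

theorem L_stable (h : IsLefschetz n ω L) {x : A} (hx : x ∈ LinearMap.range (Psi n ω L)) :
    L x ∈ LinearMap.range (Psi n ω L) := by
  obtain ⟨u, rfl⟩ := hx
  rw [Psi_apply]
  simp only [map_sum]
  refine Submodule.sum_mem _ fun j _ => Submodule.sum_mem _ fun i _ => ?_
  have : L ((L ^ i.1) (u j i : A)) = (L ^ (i.1 + 1)) (u j i : A) := by
    rw [pow_succ', Module.End.mul_apply]
  rw [this]
  exact gen_mem h (u j i).2

theorem neg_mem (h : IsLefschetz n ω L) (k : ℕ) : ∀ a : ℕ, n < a + k → ∀ x : A,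
    ω (-(a : ℤ)) x = x → x ∈ LinearMap.range (Psi n ω L) := by
  induction k with
  | zero =>
    intro a ha x hx
    have : x = 0 := by
      rw [← hx]
      apply omega_zero h.grading
      simp only [mem_Icc, not_and_or, not_le]
      left
      omega
    rw [this]
    exact Submodule.zero_mem _
  | succ k ih =>
    intro a ha x hx
    obtain ⟨y, hy, hxy⟩ := h.surj (a + 2) ((L ^ (a + 1)) x) (by
      conv_rhs => rw [← hx, pow_comm h]
      congr 1
      push_cast
      ring_nf)
    have hyS := ih (a + 2) (by omega) y (by exact_mod_cast hy)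
    have hprim : IsPrim ω L a (x - L y) := by
      constructor
      · rw [map_sub, hx]
        congr 1
        conv_rhs => rw [← hy, h.comm]
        congr 2
        push_cast
        ring
      · rw [map_sub, ← hxy, ← Module.End.mul_apply, ← pow_succ, sub_self]
    have h1 := gen_mem h (i := 0) hprim
    rw [pow_zero, Module.End.one_apply] at h1
    have h2 := Submodule.add_mem _ h1 (L_stable h hyS)
    rwa [sub_add_cancel] at h2

theorem Psi_surjective (h : IsLefschetz n ω L) : Function.Surjective (Psi n ω L) := by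
  rw [← LinearMap.range_eq_top, eq_top_iff]
  intro x _
  rw [← h.grading.sum x]
  refine Submodule.sum_mem _ fun b _ => ?_
  have hb : ω b (ω b x) = ω b x := by rw [h.grading.proj, if_pos rfl]
  rcases le_total b 0 with hb0 | hb0
  · obtain ⟨a, ha⟩ := Int.exists_eq_neg_ofNat hb0
    rw [ha] at hb ⊢
    exact neg_mem h (n + 1) a (by omega) _ hb
  · obtain ⟨a, rfl⟩ := Int.eq_ofNat_of_zero_le hb0
    obtain ⟨y, hy, hxy⟩ := h.surj a _ hb
    rw [← hxy]
    have hyS := neg_mem h (n + 1) a (by omega) y hy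
    have : ∀ k : ℕ, (L ^ k) y ∈ LinearMap.range (Psi n ω L) := by
      intro k
      induction k with
      | zero => simpa using hyS
      | succ k ih =>
        rw [pow_succ', Module.End.mul_apply]
        exact L_stable h ih
    exact this a

end Prim

open Prim

theorem exists_prim {A : Type*} [AddCommGroup A] [Module ℚ A] {n : ℕ} {ω : ℤ → A →ₗ[ℚ] A}
    {L : A →ₗ[ℚ] A} (h : IsLefschetz n ω L) :
    ∃ π : ℕ → ℕ → A →ₗ[ℚ] A, (∀ j i x, IsPrim ω L j (π j i x)) ∧
      (∀ x, ∑ j ∈ range (n + 1), ∑ i ∈ range (j + 1), (L ^ i) (π j i x) = x) ∧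
      (∀ (j i : ℕ) (u : A), i ≤ j → IsPrim ω L j u → ∀ j' i' : ℕ, i' ≤ j' →
        π j' i' ((L ^ i) u) = if j' = j ∧ i' = i then u else 0) ∧
      (∀ j i, j < i → π j i = 0) ∧ (∀ j i, n < j → π j i = 0) := by
  let e := LinearEquiv.ofBijective (Psi n ω L) ⟨Psi_injective h, Psi_surjective h⟩
  let π : ℕ → ℕ → A →ₗ[ℚ] A := fun j i =>
    if hj : j < n + 1 then
      if hi : i < j + 1 then
        (P ω L j).subtype ∘ₗ (LinearMap.proj (R := ℚ) (φ := fun _ : Fin (j + 1) => P ω L j) ⟨i, hi⟩) ∘ₗ
          (LinearMap.proj (R := ℚ) (φ := fun j : Fin (n + 1) => (Fin (j.1 + 1) → P ω L j.1))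
            ⟨j, hj⟩) ∘ₗ e.symm.toLinearMap
      else 0
    else 0
  have hπ : ∀ (j i : ℕ) (hj : j < n + 1) (hi : i < j + 1) (x : A),
      π j i x = ((e.symm x) ⟨j, hj⟩ ⟨i, hi⟩ : A) := by
    intro j i hj hi x
    simp only [π, dif_pos hj, dif_pos hi]
    rfl
  have h4 : ∀ j i, j < i → π j i = 0 := by
    intro j i hij
    simp only [π]
    split_ifs with h1 h2
    · omega
    · rfl
    · rfl
  have h5 : ∀ j i, n < j → π j i = 0 := by
    intro j i hj
    simp only [π]
    rw [dif_neg (by omega)]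
  refine ⟨π, ?_, ?_, ?_, h4, h5⟩
  · intro j i x
    by_cases hj : j < n + 1
    · by_cases hi : i < j + 1
      · rw [hπ j i hj hi]
        exact ((e.symm x) ⟨j, hj⟩ ⟨i, hi⟩).2
      · rw [h4 j i (by omega)]
        exact (P ω L j).zero_mem
    · rw [h5 j i (by omega)]
      exact (P ω L j).zero_mem
  · intro x
    have h1 : Psi n ω L (e.symm x) = x := e.apply_symm_apply x
    conv_rhs => rw [← h1, Psi_apply]
    rw [← Fin.sum_univ_eq_sum_range (fun j => ∑ i ∈ range (j + 1), (L ^ i) (π j i x)) (n + 1)]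
    refine Finset.sum_congr rfl fun j _ => ?_
    rw [← Fin.sum_univ_eq_sum_range (fun i => (L ^ i) (π j.1 i x)) (j.1 + 1)]
    refine Finset.sum_congr rfl fun i _ => ?_
    rw [hπ j.1 i.1 j.2 i.2]
  · intro j i u hi hu j' i' hi'
    by_cases hj : j < n + 1
    · have h1 : e.symm ((L ^ i) u) =
          Pi.single ⟨j, hj⟩ (Pi.single ⟨i, by simp; omega⟩ ⟨u, hu⟩) := by
        rw [LinearEquiv.symm_apply_eq]
        exact (Psi_single ⟨j, hj⟩ ⟨i, by simp; omega⟩ ⟨u, hu⟩).symm
      by_cases hj' : j' < n + 1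
      · rw [hπ j' i' hj' (by omega), h1]
        by_cases hjj : j' = j
        · subst hjj
          by_cases hii : i' = i
          · subst hii
            simp
          · rw [if_neg (fun hh => hii hh.2), Pi.single_eq_same, Pi.single_eq_of_ne]
            · rfl
            · intro hh
              exact hii (by simpa using hh)
        · rw [if_neg (fun hh => hjj hh.1), Pi.single_eq_of_ne]
          · rfl
          · intro hh
            exact hjj (by simpa using hh)
      · rw [h5 j' i' (by omega), if_neg (fun hh => by omega)]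
        rfl
    · have hu0 := prim_zero_of_lt h (by omega) hu
      subst hu0
      simp

end Pool.Agent.Helper10.HD
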