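import Mathlib
import Pool.Agent.Helper10.HodgeTypes
import Pool.Agent.Helper10.DegenThm

/-!
# Sanity check: good reduction

A variety degenerates to itself, with one stratum.
-/

universe u v w

namespace Pool.Agent.Helper10.HD

open Finset

/-- the trivial degeneration -/
theorem isSemistableDegeneration_self {k : Type u} [Field k] {K : Type v} [Field K] [CharZero K]
    (W : WeilCohomology.{u, v, w} k K) (X : SmProjVar k) (d : X.Z 1) (c : (X.prod X).Z X.dim) :
    IsSemistableDegeneration W.toCohomologyData W.toCohomologyData X d
      ⟨1, fun _ => X, fun _ => 0, fun _ => d, fun _ _ => c⟩ (fun _ z _ => z)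
      (fun _ => Strata.zero _ _) (fun _ => Strata.zero _ _) where
  dim_eq := fun _ => zero_add _
  complex :=
    { rho := fun x y => by
        refine Eq.trans (Finset.sum_eq_zero fun s _ => ?_)
          (Eq.symm (Finset.sum_eq_zero fun s _ => Finset.sum_eq_zero fun t ht => ?_))
        · change W.trL X (0 * y s) = 0
          rw [zero_mul, map_zero]
        · exact absurd (Finset.mem_filter.mp ht).2 (by simp)
      delta := fun x y => by
        refine Eq.trans (Finset.sum_eq_zero fun s _ => ?_)
          (Eq.symm (Finset.sum_eq_zero fun s _ => Finset.sum_eq_zero fun t ht => ?_))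
        · change W.trL X (x s * 0) = 0
          rw [mul_zero, map_zero]
        · exact absurd (Finset.mem_filter.mp ht).2 (by simp)
      rho_rho := fun _ => rfl
      rho_delta := fun _ _ => funext fun _ => add_zero _
      rho_div := fun x => funext fun s => by
        change (0 : W.H X) = W.cy X 1 d ^ 1 * 0
        rw [mul_zero] }
  rho_sp := fun _ _ => rfl
  pairing_sp := fun i j r z z' => by
    unfold Strata.pairing
    exact (Fin.sum_univ_one (fun _ : Fin 1 => W.pairing X (W.cy X i z)
      (W.lef X d r (W.cy X j z')))).symm
  eq_zero_iff := fun r j z => by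
    constructor
    · intro h
      refine ⟨Strata.zero _ _, fun _ _ => rfl, funext fun s => ?_⟩
      exact (add_zero _).trans h.symm
    · rintro ⟨x, _, hx⟩
      have h := congrFun hx 0
      exact h.symm.trans (add_zero _)

end Pool.Agent.Helper10.HD
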